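import Pool.Agent.H912R2.SM.Core

/-!
# Statements of the modules (as Props) for MP_1b3a35_lc
-/

set_option autoImplicit false

open scoped Classical
open FirstOrder FirstOrder.Language

namespace H912SM

/-! ## combinatorial part -/

/-- amalgamation theorem -/
def St_Amalg : Prop :=
  ∀ (V : Type) (H : Set (Finset V)) (M N : Set V) (α : Code) (b : Fin α.m → V) (f : Fin α.n → V),
    Strong H M N → (∀ j, b j ∈ M) → (∀ k, f k ∉ N) → Cop H α b f → Exact H N α b f →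
    InC H N → InC H (M ∪ Set.range f) →
    InC H (N ∪ Set.range f) ∨ ∃ f' : Fin α.n → V, Cop H α b f' ∧ ∀ k, f' k ∈ N ∧ f' k ∉ M

/-- size bounds of a violation in a one-step extension -/
def St_Viol : Prop :=
  ∀ (V : Type) (H : Set (Finset V)) (N : Set V) (α : Code) (b : Fin α.m → V) (f : Fin α.n → V),
    (∀ j, b j ∈ N) → (∀ k, f k ∉ N) → Cop H α b f → Exact H N α b f → InC H N →
    ∀ β : Code, Viol H (N ∪ Set.range f) β → β.n ≤ α.n ∧ β.m ≤ α.n + α.m

/-- violations in a one-step extension by a one-point code -/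
def St_Viol1 : Prop :=
  ∀ (V : Type) (H : Set (Finset V)) (N : Set V) (α : Code) (b : Fin α.m → V) (f : Fin α.n → V),
    α.n = 1 →
    (∀ j, b j ∈ N) → (∀ k, f k ∉ N) → Cop H α b f → Exact H N α b f → InC H N →
    ∀ β : Code, Viol H (N ∪ Set.range f) β → ∃ f' : Fin α.n → V, Cop H α b f' ∧ ∀ k, f' k ∈ N

/-- maximal structures exist (Zorn) -/
def St_Max : Prop :=
  ∃ (Om : Type) (H : Set (Finset Om)) (S : Set Om),
    (∀ e ∈ H, (e : Set Om) ⊆ S) ∧ ¬ S.Countable ∧ InC H S ∧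
    ∀ (α : Code) (b : Fin α.m → Om), Function.Injective b → (∀ j, b j ∈ S) →
      ∃ (H' : Set (Finset Om)) (f : Fin α.n → Om), H ⊆ H' ∧
        (∀ e ∈ H', (e : Set Om) ⊆ S → e ∈ H) ∧ (∀ k, f k ∉ S) ∧ Cop H' α b f ∧ Exact H' S α b f ∧
        ¬ InC H' (S ∪ Set.range f)

/-- the structure `N0` -/
def St_N0 : Prop :=
  ∃ (V : Type) (H : Set (Finset V)), ¬ (Set.univ : Set V).Countable ∧ InC H Set.univ ∧ LR H ∧
    (∀ x y : V, x ≠ y → ({x, y} : Finset V) ∈ H ∨ ∃ z, z ≠ x ∧ z ≠ y ∧ ({x, y, z} : Finset V) ∈ H) ∧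
    (∀ x : V, ∃ y, y ≠ x ∧ ({x, y} : Finset V) ∈ H)

/-- a code inside an extension of nonpositive predimension -/
def St_Code : Prop :=
  ∀ (V : Type) (H : Set (Finset V)) (X Z : Finset V), Disjoint X Z → Z.Nonempty →
    dl H (X ∪ Z) ≤ dl H X → (∀ e ∈ H, e ⊆ X ∪ Z → e.card = 2 ∨ e.card = 3) →
    ∃ (α : Code) (b : Fin α.m → V) (f : Fin α.n → V), (∀ j, b j ∈ X) ∧ (∀ k, f k ∈ Z) ∧
      Cop H α b f ∧ dl H (X ∪ ran f) ≤ dl H X ∧ (dl H (X ∪ ran f) = dl H X → Exact H X α b f)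

/-- decomposition of strong extensions of finite sets -/
def St_Decomp : Prop :=
  ∀ (V : Type) (H : Set (Finset V)) (X Y : Finset V), X ⊆ Y → X ≠ Y → Strong H X Y →
    (∀ e ∈ H, e ⊆ Y → e.card = 2 ∨ e.card = 3) →
    (∃ c ∈ Y, c ∉ X ∧ Strong H (insert c X : Finset V) Y ∧ ∀ e ∈ H, e ⊆ insert c X → e ⊆ X) ∨
    (∃ (α : Code) (b : Fin α.m → V) (f : Fin α.n → V), (∀ j, b j ∈ X) ∧ (∀ k, f k ∈ Y) ∧
      (∀ k, f k ∉ X) ∧ Cop H α b f ∧ Exact H X α b f ∧ Strong H (X ∪ ran f : Finset V) Y)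

/-- free points exist in every uncountable set -/
def St_Free : Prop :=
  ∀ (V : Type) (H : Set (Finset V)) (D : Set V), InC H Set.univ → ¬ D.Countable →
    ∀ X : Finset V, Strong H X Set.univ → ∃ c ∈ D, FreePt H X c

/-- partial isomorphisms: from `(W,H')` restricted to the finite set `Y` onto a strong subset -/
def PIso {W V : Type} (H' : Set (Finset W)) (H : Set (Finset V)) (Y : Finset W) (g : W → V) : Prop :=
  Set.InjOn g Y ∧ (∀ e, e ⊆ Y → (e ∈ H' ↔ e.image g ∈ H)) ∧ Strong H (Y.image g : Finset V) Set.univ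

/-- extension of partial isomorphisms, with control of the target set `A` and of edge sizes -/
def St_Ext : Prop :=
  ∀ (W V : Type) (H' : Set (Finset W)) (H : Set (Finset V)) (A : Set V) (q : ℕ → Prop),
    InC H Set.univ → LR H →
    (∀ X : Finset V, (X : Set V) ⊆ A → Strong H X Set.univ → ∃ c ∈ A, FreePt H X c) →
    (∀ (α : Code) (b : Fin α.m → V) (f : Fin α.n → V), (∀ e ∈ α.E, q e.card) → (∀ j, b j ∈ A) →
      Cop H α b f → ∀ k, f k ∈ A) →
    ∀ (Y Y' : Finset W) (g : W → V), Y ⊆ Y' → PIso H' H Y g → (∀ y ∈ Y, g y ∈ A) →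
      Strong H' Y Y' → InC H' Y' → (∀ e ∈ H', e ⊆ Y' → ¬ e ⊆ Y → q e.card) →
      ∃ g' : W → V, (∀ y ∈ Y, g' y = g y) ∧ PIso H' H Y' g' ∧ ∀ y ∈ Y', g' y ∈ A

/-! ## model theoretic part -/

/-- one ternary relation symbol -/
inductive Rel : ℕ → Type
  | P : Rel 3

/-- the language -/
def LT : FirstOrder.Language.{0, 0} := ⟨fun _ => Empty, Rel⟩

/-- the ternary relation -/
def tri {M : Type} [LT.Structure M] (a b c : M) : Prop :=
  FirstOrder.Language.Structure.RelMap (L := LT) (n := 3) Rel.P ![a, b, c]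

/-- the mixed hypergraph of a structure: triples, and pairs which are in no triple -/
def Hs (M : Type) [LT.Structure M] : Set (Finset M) :=
  {e | ∃ a b c : M, a ≠ b ∧ a ≠ c ∧ b ≠ c ∧ e = {a, b, c} ∧ tri a b c} ∪
  {e | ∃ a b : M, a ≠ b ∧ e = {a, b} ∧ ∀ c, ¬ tri a b c}

/-- good structures -/
structure Good (M : Type) [LT.Structure M] : Prop where
  ne : Nonempty M
  dist : ∀ a b c : M, tri a b c → a ≠ b ∧ a ≠ c ∧ b ≠ c
  sym : ∀ a b c : M, tri a b c → tri b a c ∧ tri a c b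
  inC : InC (Hs M) Set.univ
  lr : LR (Hs M)
  mate : ∀ x : M, ∃ y, y ≠ x ∧ ∀ z, ¬ tri x y z

/-- goodness is preserved by elementary equivalence -/
def St_Trans : Prop :=
  ∀ (M N : Type) [LT.Structure M] [LT.Structure N], (M ≅[LT] N) → Nonempty N → Good M → Good N

/-- elements outside of an elementary submodel are independent -/
def St_El : Prop :=
  ∀ (M N : Type) [LT.Structure M] [LT.Structure N] (j : M ↪ₑ[LT] N), Good M → Good N →
    ∀ Z : Finset N, ¬ ((Z : Set N) ⊆ Set.range j) →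
      dl (Hs N) (Z.filter (fun v => v ∈ Set.range j)) + 1 ≤ dl (Hs N) Z

/-- back and forth -/
def St_Bnf : Prop :=
  ∀ (M N : Type) [LT.Structure M] [LT.Structure N], Good M → Good N →
    (∀ X : Finset M, Strong (Hs M) X Set.univ → ∃ c, FreePt (Hs M) X c) →
    (∀ X : Finset N, Strong (Hs N) X Set.univ → ∃ c, FreePt (Hs N) X c) →
    ∀ (p : ℕ) (x : Fin p → M) (y : Fin p → N), Function.Injective x → Function.Injective y →
      Strong (Hs M) (ran x : Finset M) Set.univ → Strong (Hs N) (ran y : Finset N) Set.univ →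
      (∀ e : Finset (Fin p), e.image x ∈ Hs M ↔ e.image y ∈ Hs N) →
      ∀ φ : LT.Formula (Fin p), φ.Realize x ↔ φ.Realize y

/-- strong minimality -/
def St_Min : Prop :=
  ∀ (M : Type) [LT.Structure M], Good M → Infinite M →
    ∀ s : Set (Fin 1 → M), Set.Definable (Set.univ : Set M) LT s → s.Finite ∨ sᶜ.Finite

/-- the sandwich `M ≺ N`, `M ⊆ A ⊆ N`, `A` existentially closed in `N`, but the point `a` of `A`
has no mate in `A` -/
def St_Sand : Prop :=
  ∀ (M : Type) [LT.Structure M], Good M → ¬ (Set.univ : Set M).Countable →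
    ∃ (N : Type) (_ : LT.Structure N) (j : M ↪ₑ[LT] N) (A : Set N), Set.range j ⊆ A ∧
      (∃ a ∈ A, ∀ y ∈ A, y ≠ a → ∃ z ∈ A, tri a y z) ∧
      (∀ X Z : Finset N, (X : Set N) ⊆ A → ∃ h : N → N, Set.InjOn h (X ∪ Z : Finset N) ∧
        (∀ x ∈ X, h x = x) ∧ (∀ z ∈ X ∪ Z, h z ∈ A) ∧
        ∀ a ∈ X ∪ Z, ∀ b ∈ X ∪ Z, ∀ c ∈ X ∪ Z, (tri a b c ↔ tri (h a) (h b) (h c)))

end H912SM
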