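import Pool.Agent.H912R2.SM.Basic3
import Pool.Agent.H912R2.SM.Stm

/-!
# The counting lemma, analysis of violations, the amalgamation theorem
-/

set_option autoImplicit false

open scoped Classical

namespace H912SM

variable {V W : Type}

/-- for a copy `f` meeting `M` over a base not inside `M`: number of edge images not inside `M` -/
theorem count_one {H : Set (Finset V)} {M : Set V} {α : Code} {b : Fin α.m → V} {f : Fin α.n → V}
    (h : Cop H α b f) (hb : ∃ j, b j ∉ M) (hf : ∃ k, f k ∈ M) :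
    (Finset.univ.filter (fun k => f k ∉ M)).card + 1 ≤
      ((imE α b f).filter (fun e : Finset V => ¬ (e : Set V) ⊆ M)).card := by
  by_cases h1 : ∃ k, f k ∉ M
  · set Y : Finset V := (ran f).filter (fun v => v ∈ M) ∪ ran b with hY
    have hbY : ∀ j, b j ∈ Y := fun j => Finset.mem_union_right _ (apply_mem_ran b j)
    have hnot : ∀ k, f k ∉ ran b := by
      intro k hk
      obtain ⟨j, hj⟩ := mem_ran.1 hk
      exact h.ne k j hj.symm
    have h2 := card_imE_filter h hbY (by
      obtain ⟨k, hk⟩ := hf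
      exact ⟨k, Finset.mem_union_left _ (Finset.mem_filter.2 ⟨apply_mem_ran f k, hk⟩)⟩) (by
      obtain ⟨k, hk⟩ := h1
      refine ⟨k, fun hk2 => ?_⟩
      rcases Finset.mem_union.1 hk2 with h4 | h4
      · exact hk (Finset.mem_filter.1 h4).2
      · exact hnot k h4)
    have h3 : (Y ∩ ran f).card = (Finset.univ.filter (fun k => f k ∈ M)).card := by
      have h4 : Y ∩ ran f = (Finset.univ.filter (fun k => f k ∈ M)).image f := by
        ext v
        simp only [hY, Finset.mem_inter, Finset.mem_union, Finset.mem_filter, mem_ran,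
          Finset.mem_image, Finset.mem_univ, true_and]
        constructor
        · rintro ⟨⟨_, h6⟩ | ⟨j, hj⟩, ⟨k, rfl⟩⟩
          · exact ⟨k, h6, rfl⟩
          · exact absurd hj.symm (h.ne k j)
        · rintro ⟨k, h5, rfl⟩
          exact ⟨Or.inl ⟨⟨k, rfl⟩, h5⟩, ⟨k, rfl⟩⟩
      rw [h4, Finset.card_image_of_injective _ h.inj_f]
    have h5 : ((imE α b f).filter (fun e : Finset V => (e : Set V) ⊆ M)).card ≤
        ((imE α b f).filter (fun e => e ⊆ Y)).card := by
      apply Finset.card_le_card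
      intro e he
      rw [Finset.mem_filter] at he ⊢
      refine ⟨he.1, ?_⟩
      obtain ⟨e', he', rfl⟩ := mem_imE.1 he.1
      intro v hv
      rcases mem_image_elim.1 hv with ⟨k, _, rfl⟩ | ⟨j, _, rfl⟩
      · exact Finset.mem_union_left _ (Finset.mem_filter.2 ⟨apply_mem_ran f k,
          he.2 (Finset.mem_coe.2 hv)⟩)
      · exact hbY j
    have h6 : ((imE α b f).filter (fun e : Finset V => (e : Set V) ⊆ M)).card +
        ((imE α b f).filter (fun e : Finset V => ¬ (e : Set V) ⊆ M)).card = α.n := by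
      rw [Finset.card_filter_add_card_filter_not, card_imE h.1]
    have h7 : (Finset.univ.filter (fun k => f k ∈ M)).card +
        (Finset.univ.filter (fun k => f k ∉ M)).card = α.n := by
      rw [Finset.card_filter_add_card_filter_not]
      simp
    omega
  · push Not at h1
    have h2 : Finset.univ.filter (fun k => f k ∉ M) = ∅ := by
      rw [Finset.filter_eq_empty_iff]
      intro k _ hk
      exact hk (h1 k)
    rw [h2]
    simp only [Finset.card_empty, zero_add]
    rw [Nat.succ_le_iff, Finset.card_pos]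
    obtain ⟨j, hj⟩ := hb
    obtain ⟨e, he, hje⟩ := α.hbase j
    refine ⟨e.image (Sum.elim f b), Finset.mem_filter.2 ⟨mem_imE.2 ⟨e, he, rfl⟩, fun h3 => ?_⟩⟩
    exact hj (h3 (Finset.mem_coe.2 (mem_image_elim.2 (Or.inr ⟨j, hje, rfl⟩))))

/-- the counting lemma -/
theorem counting {H : Set (Finset V)} {M N : Set V} (hM : Strong H M N) {α : Code}
    {b : Fin α.m → V} {r : ℕ} {F : Fin r → Fin α.n → V} (I : Finset (Fin r))
    (hbN : ∀ j, b j ∈ N) (hF : ∀ i ∈ I, ∀ k, F i k ∈ N) (hc : ∀ i ∈ I, Cop H α b (F i))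
    (hd : ∀ i ∈ I, ∀ j ∈ I, i ≠ j → ∀ k l, F i k ≠ F j l) (hb : ∃ j, b j ∉ M)
    (hmeet : ∀ i ∈ I, ∃ k, F i k ∈ M) :
    I.card ≤ (Finset.univ.filter (fun j => b j ∉ M)).card := by
  set Z : Finset V := ran b ∪ I.biUnion (fun i => ran (F i)) with hZ
  set X : Finset V := Z.filter (fun v => v ∈ M) with hX
  set E' : Finset (Finset V) :=
    I.biUnion (fun i => (imE α b (F i)).filter (fun e : Finset V => ¬ (e : Set V) ⊆ M)) with hE'
  have hZN : (Z : Set V) ⊆ N := by
    intro v hv
    rcases Finset.mem_union.1 (Finset.mem_coe.1 hv) with hv | hv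
    · obtain ⟨j, rfl⟩ := mem_ran.1 hv
      exact hbN j
    · obtain ⟨i, hi, hv⟩ := Finset.mem_biUnion.1 hv
      obtain ⟨k, rfl⟩ := mem_ran.1 hv
      exact hF i hi k
  have h1 : dl H X ≤ dl H Z := hM.2 Z hZN
  have h2 := dl_le_of_edges (H := H) (X := X) (Z := Z) (Finset.filter_subset _ _) E' (by
    intro e he
    obtain ⟨i, hi, he⟩ := Finset.mem_biUnion.1 he
    rw [Finset.mem_filter, mem_imE] at he
    obtain ⟨⟨e', he', rfl⟩, h3⟩ := he
    refine ⟨(hc i hi).2 _ he', ?_, fun h4 => h3 fun v hv => ?_⟩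
    · intro v hv
      rcases mem_image_elim.1 hv with ⟨k, _, rfl⟩ | ⟨j, _, rfl⟩
      · exact Finset.mem_union_right _ (Finset.mem_biUnion.2 ⟨i, hi, apply_mem_ran _ k⟩)
      · exact Finset.mem_union_left _ (apply_mem_ran b j)
    · exact (Finset.mem_filter.1 (h4 (Finset.mem_coe.1 hv))).2)
  -- size of E'
  have h3 : E'.card = ∑ i ∈ I, ((imE α b (F i)).filter (fun e : Finset V => ¬ (e : Set V) ⊆ M)).card := by
    rw [hE']
    apply Finset.card_biUnion
    intro i hi j hj hij
    show Disjoint _ _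
    rw [Finset.disjoint_left]
    intro e he1 he2
    rw [Finset.mem_filter, mem_imE] at he1 he2
    obtain ⟨⟨e1, he1, h4⟩, _⟩ := he1
    obtain ⟨⟨e2, he2, h5⟩, _⟩ := he2
    obtain ⟨k, hk⟩ := α.hmeet e1 he1
    have h6 : F i k ∈ e := by rw [h4]; exact mem_image_elim.2 (Or.inl ⟨k, hk, rfl⟩)
    rw [h5] at h6
    rcases mem_image_elim.1 h6 with ⟨l, _, h7⟩ | ⟨l, _, h7⟩
    · exact hd j hj i hi (Ne.symm hij) l k h7
    · exact (hc i hi).ne k l h7.symm
  have h4 : ∑ i ∈ I, ((Finset.univ.filter (fun k => F i k ∉ M)).card + 1) ≤ E'.card := by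
    rw [h3]
    apply Finset.sum_le_sum
    intro i hi
    exact count_one (hc i hi) hb (hmeet i hi)
  rw [Finset.sum_add_distrib, Finset.sum_const, smul_eq_mul, mul_one] at h4
  have h5 : (Z \ X).card ≤ (Finset.univ.filter (fun j => b j ∉ M)).card +
      ∑ i ∈ I, (Finset.univ.filter (fun k => F i k ∉ M)).card := by
    have h6 : Z \ X ⊆ (Finset.univ.filter (fun j => b j ∉ M)).image b ∪
        I.biUnion (fun i => (Finset.univ.filter (fun k => F i k ∉ M)).image (F i)) := by
      intro v hv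
      rw [Finset.mem_sdiff, hX, Finset.mem_filter] at hv
      obtain ⟨hv1, hv2⟩ := hv
      have hv3 : v ∉ M := fun h => hv2 ⟨hv1, h⟩
      rcases Finset.mem_union.1 hv1 with hv | hv
      · obtain ⟨j, rfl⟩ := mem_ran.1 hv
        exact Finset.mem_union_left _ (Finset.mem_image.2 ⟨j, by simpa using hv3, rfl⟩)
      · obtain ⟨i, hi, hv⟩ := Finset.mem_biUnion.1 hv
        obtain ⟨k, rfl⟩ := mem_ran.1 hv
        exact Finset.mem_union_right _ (Finset.mem_biUnion.2 ⟨i, hi, Finset.mem_image.2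
          ⟨k, by simpa using hv3, rfl⟩⟩)
    refine (Finset.card_le_card h6).trans ((Finset.card_union_le _ _).trans ?_)
    refine Nat.add_le_add Finset.card_image_le (Finset.card_biUnion_le.trans ?_)
    exact Finset.sum_le_sum (fun i _ => Finset.card_image_le)
  have h7 : (I.card : ℤ) + ((∑ i ∈ I, (Finset.univ.filter (fun k => F i k ∉ M)).card : ℕ) : ℤ) ≤
      (E'.card : ℤ) := by
    have := h4
    zify at this
    push_cast
    linarith
  have h8 : ((Z \ X).card : ℤ) ≤ ((Finset.univ.filter (fun j => b j ∉ M)).card : ℤ) +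
      ((∑ i ∈ I, (Finset.univ.filter (fun k => F i k ∉ M)).card : ℕ) : ℤ) := by
    exact_mod_cast h5
  have h9 : (I.card : ℤ) ≤ ((Finset.univ.filter (fun j => b j ∉ M)).card : ℤ) := by
    linarith
  exact_mod_cast h9

/-- data of a one step extension -/
structure Step (H : Set (Finset V)) (N : Set V) (α : Code) (b : Fin α.m → V) (f : Fin α.n → V) :
    Prop where
  hb : ∀ j, b j ∈ N
  hf : ∀ k, f k ∉ N
  cop : Cop H α b f
  ex : Exact H N α b f

theorem Step.mem_imE_of {H : Set (Finset V)} {N : Set V} {α : Code} {b : Fin α.m → V}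
    {f : Fin α.n → V} (s : Step H N α b f) {e : Finset V} (he : e ∈ H)
    (h1 : (e : Set V) ⊆ N ∪ Set.range f) (h2 : ¬ (e : Set V) ⊆ N) : e ∈ imE α b f := by
  rcases s.ex e he h1 with h | h
  · exact absurd h h2
  · exact mem_imE.2 h

theorem mem_of_mem_imE {α : Code} {b : Fin α.m → V} {f : Fin α.n → V} {e : Finset V} {v : V}
    (he : e ∈ imE α b f) (hv : v ∈ e) : v ∈ Set.range b ∨ v ∈ Set.range f := by
  obtain ⟨e', _, rfl⟩ := mem_imE.1 he
  rcases mem_image_elim.1 hv with ⟨k, _, rfl⟩ | ⟨j, _, rfl⟩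
  · exact Or.inr ⟨k, rfl⟩
  · exact Or.inl ⟨j, rfl⟩

/-- Lemma B: a copy inside the new points has all its edges among the new edges -/
theorem Step.imE_sub {H : Set (Finset V)} {N : Set V} {α : Code} {b : Fin α.m → V}
    {f : Fin α.n → V} (s : Step H N α b f) {β : Code} {c : Fin β.m → V} {g : Fin β.n → V}
    (hc : ∀ j, c j ∈ N ∪ Set.range f) (hcop : Cop H β c g) (hg : ∀ k, g k ∈ Set.range f) :
    imE β c g ⊆ imE α b f := by
  intro e he
  obtain ⟨e', he', rfl⟩ := mem_imE.1 he
  apply s.mem_imE_of (hcop.2 _ he')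
  · intro v hv
    rcases mem_image_elim.1 (Finset.mem_coe.1 hv) with ⟨k, _, rfl⟩ | ⟨j, _, rfl⟩
    · exact Or.inr (hg k)
    · exact hc j
  · apply not_image_subset _ he'
    intro k hk
    obtain ⟨l, hl⟩ := hg k
    exact s.hf l (hl ▸ hk)

theorem Step.base_sub {H : Set (Finset V)} {N : Set V} {α : Code} {b : Fin α.m → V}
    {f : Fin α.n → V} (s : Step H N α b f) {β : Code} {c : Fin β.m → V} {g : Fin β.n → V}
    (hc : ∀ j, c j ∈ N ∪ Set.range f) (hcop : Cop H β c g) (hg : ∀ k, g k ∈ Set.range f) (j : Fin β.m) :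
    c j ∈ Set.range b ∨ c j ∈ Set.range f := by
  obtain ⟨e, he, hj⟩ := β.hbase j
  exact mem_of_mem_imE (s.imE_sub hc hcop hg (mem_imE.2 ⟨e, he, rfl⟩))
    (mem_image_elim.2 (Or.inr ⟨j, hj, rfl⟩))

theorem n_le_of_range {α β : Code} {f : Fin α.n → V} {g : Fin β.n → V}
    (hg : Function.Injective g) (hgf : ∀ k, g k ∈ Set.range f) : β.n ≤ α.n := by
  have h1 : ran g ⊆ ran f := by
    intro v hv
    obtain ⟨k, rfl⟩ := mem_ran.1 hv
    obtain ⟨l, hl⟩ := hgf k
    exact mem_ran.2 ⟨l, hl⟩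
  have h2 := Finset.card_le_card h1
  rw [card_ran hg] at h2
  refine h2.trans ?_
  unfold ran
  exact Finset.card_image_le.trans (by simp)

theorem m_le_of_range {α β : Code} {b : Fin α.m → V} {f : Fin α.n → V} {c : Fin β.m → V}
    (hc : Function.Injective c) (h : ∀ j, c j ∈ Set.range b ∨ c j ∈ Set.range f) :
    β.m ≤ α.n + α.m := by
  have h1 : ran c ⊆ ran f ∪ ran b := by
    intro v hv
    obtain ⟨k, rfl⟩ := mem_ran.1 hv
    rcases h k with ⟨l, hl⟩ | ⟨l, hl⟩
    · exact Finset.mem_union_right _ (mem_ran.2 ⟨l, hl⟩)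
    · exact Finset.mem_union_left _ (mem_ran.2 ⟨l, hl⟩)
  have h2 := Finset.card_le_card h1
  rw [card_ran hc] at h2
  refine h2.trans ((Finset.card_union_le _ _).trans ?_)
  unfold ran
  exact Nat.add_le_add (Finset.card_image_le.trans (by simp)) (Finset.card_image_le.trans (by simp))

/-- Lemma C: a copy inside the new points over a base in `N` is the new block -/
theorem Step.same {H : Set (Finset V)} {N : Set V} {α : Code} {b : Fin α.m → V}
    {f : Fin α.n → V} (s : Step H N α b f) {β : Code} {c : Fin β.m → V} {g : Fin β.n → V}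
    (hc : ∀ j, c j ∈ N) (hcop : Cop H β c g) (hg : ∀ k, g k ∈ Set.range f) :
    Set.range g = Set.range f ∧ Set.range c = Set.range b ∧ imE β c g = imE α b f ∧
      β.n = α.n ∧ β.m = α.m := by
  have hsub := s.imE_sub (fun j => Or.inl (hc j)) hcop hg
  -- range g = range f
  have hall : ∀ l, f l ∈ Set.range g := by
    by_contra hcon
    push Not at hcon
    obtain ⟨l, hl⟩ := hcon
    -- use Y = ran g ∪ ran b
    have hlg : f l ∉ ran g ∪ ran b := by
      intro h
      rcases Finset.mem_union.1 h with h | h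
      · obtain ⟨k, hk⟩ := mem_ran.1 h
        exact hl ⟨k, hk⟩
      · obtain ⟨j, hj⟩ := mem_ran.1 h
        exact s.cop.ne l j hj.symm
    have h1 := card_imE_filter s.cop (Y := ran g ∪ ran b)
      (fun j => Finset.mem_union_right _ (apply_mem_ran b j)) (by
        obtain ⟨l', hl'⟩ := hg ⟨0, β.npos⟩
        exact ⟨l', by rw [hl']; exact Finset.mem_union_left _ (apply_mem_ran g _)⟩) ⟨l, hlg⟩
    have h2 : (ran g ∪ ran b) ∩ ran f ⊆ ran g := by
      intro v hv
      obtain ⟨hv1, hv2⟩ := Finset.mem_inter.1 hv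
      rcases Finset.mem_union.1 hv1 with h | h
      · exact h
      · obtain ⟨j, hj⟩ := mem_ran.1 h
        obtain ⟨k, hk⟩ := mem_ran.1 hv2
        exact absurd (hk.trans hj.symm) (s.cop.ne k j)
    have h3 : imE β c g ⊆ (imE α b f).filter (fun e => e ⊆ ran g ∪ ran b) := by
      intro e he
      refine Finset.mem_filter.2 ⟨hsub he, ?_⟩
      intro v hv
      rcases mem_of_mem_imE he hv with ⟨j, hj⟩ | ⟨k, hk⟩
      · -- v = c j ∈ N, and v in an edge of α, so v ∈ range b
        rcases mem_of_mem_imE (hsub he) hv with ⟨j', hj'⟩ | ⟨k', hk'⟩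
        · exact Finset.mem_union_right _ (mem_ran.2 ⟨j', hj'⟩)
        · exact absurd (hk'.trans hj.symm ▸ hc j : f k' ∈ N) (s.hf k')
      · exact Finset.mem_union_left _ (mem_ran.2 ⟨k, hk⟩)
    have h4 := Finset.card_le_card h3
    rw [card_imE hcop.1] at h4
    have h5 := Finset.card_le_card h2
    rw [card_ran hcop.inj_f] at h5
    omega
  have hr : Set.range g = Set.range f := by
    apply Set.Subset.antisymm
    · rintro v ⟨k, rfl⟩
      exact hg k
    · rintro v ⟨l, rfl⟩
      exact hall l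
  have hn : β.n = α.n :=
    le_antisymm (n_le_of_range hcop.inj_f hg) (n_le_of_range s.cop.inj_f hall)
  have hE : imE β c g = imE α b f := by
    apply Finset.eq_of_subset_of_card_le hsub
    rw [card_imE hcop.1, card_imE s.cop.1, hn]
  have hr2 : Set.range c = Set.range b := by
    apply Set.Subset.antisymm
    · rintro v ⟨j, rfl⟩
      obtain ⟨e, he, hj⟩ := β.hbase j
      have h1 : e.image (Sum.elim g c) ∈ imE α b f := by
        rw [← hE]
        exact mem_imE.2 ⟨e, he, rfl⟩
      rcases mem_of_mem_imE h1 (mem_image_elim.2 (Or.inr ⟨j, hj, rfl⟩)) with h2 | ⟨k, hk⟩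
      · exact h2
      · exact absurd (hk ▸ hc j : f k ∈ N) (s.hf k)
    · rintro v ⟨j, rfl⟩
      obtain ⟨e, he, hj⟩ := α.hbase j
      have h1 : e.image (Sum.elim f b) ∈ imE β c g := by
        rw [hE]
        exact mem_imE.2 ⟨e, he, rfl⟩
      rcases mem_of_mem_imE h1 (mem_image_elim.2 (Or.inr ⟨j, hj, rfl⟩)) with h2 | h2
      · exact h2
      · rw [hr] at h2
        obtain ⟨k, hk⟩ := h2
        exact absurd (hk ▸ s.hb j : f k ∈ N) (s.hf k)
  have hm : β.m = α.m := by
    have h1 : ran c = ran b := by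
      ext v
      rw [mem_ran, mem_ran]
      exact Set.ext_iff.1 hr2 v
    rw [← card_ran hcop.inj_b, ← card_ran s.cop.inj_b, h1]
  exact ⟨hr, hr2, hE, hn, hm⟩

/-- Lemma D: conversion of copies -/
theorem convert_copy {H : Set (Finset V)} {α β : Code} {b : Fin α.m → V} {f : Fin α.n → V}
    {c : Fin β.m → V} {g : Fin β.n → V} (h1 : Cop H α b f) (h2 : Cop H β c g)
    (hr : Set.range g = Set.range f) (hr2 : Set.range c = Set.range b)
    (hE : imE β c g = imE α b f) {g' : Fin β.n → V} (h3 : Cop H β c g') :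
    ∃ f' : Fin α.n → V, Cop H α b f' ∧ Set.range f' = Set.range g' := by
  have hs : ∀ k : Fin α.n, ∃ l : Fin β.n, g l = f k := fun k => by
    have : f k ∈ Set.range g := by rw [hr]; exact ⟨k, rfl⟩
    exact this
  have ht : ∀ k : Fin α.m, ∃ l : Fin β.m, c l = b k := fun k => by
    have : b k ∈ Set.range c := by rw [hr2]; exact ⟨k, rfl⟩
    exact this
  choose σ hσ using hs
  choose τ hτ using ht
  have e1 : Sum.elim f b = Sum.elim g c ∘ Sum.map σ τ := by
    ext x
    rcases x with k | j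
    · exact (hσ k).symm
    · exact (hτ j).symm
  have e2 : Sum.elim (g' ∘ σ) b = Sum.elim g' c ∘ Sum.map σ τ := by
    ext x
    rcases x with k | j
    · rfl
    · exact (hτ j).symm
  have hinj : Function.Injective (Sum.map σ τ) := by
    have := h1.1
    rw [e1] at this
    exact this.of_comp
  refine ⟨g' ∘ σ, ⟨?_, ?_⟩, ?_⟩
  · rw [e2]
    exact h3.1.comp hinj
  · intro e he
    have h4 : e.image (Sum.elim f b) ∈ imE β c g := by
      rw [hE]
      exact mem_imE.2 ⟨e, he, rfl⟩
    obtain ⟨e', he', h5⟩ := mem_imE.1 h4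
    rw [e1, ← Finset.image_image] at h5
    have h6 := Finset.image_injective h2.1 h5
    rw [e2, ← Finset.image_image, h6]
    exact h3.2 e' he'
  · apply Set.Subset.antisymm
    · rintro v ⟨k, rfl⟩
      exact ⟨σ k, rfl⟩
    · rintro v ⟨l, rfl⟩
      have : g l ∈ Set.range f := by rw [← hr]; exact ⟨l, rfl⟩
      obtain ⟨k, hk⟩ := this
      refine ⟨k, ?_⟩
      have h4 : g (σ k) = g l := by rw [hσ, hk]
      exact congrArg g' (h2.inj_f h4)

/-- in a one-point code every base point and the new point are in the unique edge -/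
theorem code_one {β : Code} (h1 : β.n = 1) {e : Finset (Fin β.n ⊕ Fin β.m)} (he : e ∈ β.E) :
    e = Finset.univ := by
  have h2 : β.E.card = 1 := by rw [β.hcard, h1]
  obtain ⟨e0, h3⟩ := Finset.card_eq_one.1 h2
  have h4 : e = e0 := by rw [h3] at he; exact Finset.mem_singleton.1 he
  ext x
  simp only [Finset.mem_univ, iff_true]
  rcases x with k | j
  · obtain ⟨k', hk'⟩ := β.hmeet e he
    have : k = k' := by
      apply Fin.ext
      have := k.2
      have := k'.2
      omega
    rw [this]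
    exact hk'
  · obtain ⟨e', he', hj⟩ := β.hbase j
    have h5 : e' = e0 := by rw [h3] at he'; exact Finset.mem_singleton.1 he'
    rw [h4, ← h5]
    exact hj

theorem code_E_nonempty (β : Code) : ∃ e, e ∈ β.E := by
  have h : 0 < β.E.card := by rw [β.hcard]; exact β.npos
  obtain ⟨e, he⟩ := Finset.card_pos.1 h
  exact ⟨e, he⟩

/-- violation with base not inside `N`, one-point code: all data is in the base and the new block -/
theorem Step.viol_one {H : Set (Finset V)} {N : Set V} {α : Code} {b : Fin α.m → V}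
    {f : Fin α.n → V} (s : Step H N α b f) {β : Code} (h1 : β.n = 1) {c : Fin β.m → V}
    {g : Fin β.n → V} (hc : ∀ j, c j ∈ N ∪ Set.range f) (hg : ∀ k, g k ∈ N ∪ Set.range f)
    (hcop : Cop H β c g) (hcN : ∃ j, c j ∉ N) :
    (∃ e ∈ imE α b f, ∀ v, v ∈ e ↔ v ∈ Set.range c ∨ v ∈ Set.range g) := by
  obtain ⟨e, he⟩ := code_E_nonempty β
  have h2 := code_one h1 he
  refine ⟨e.image (Sum.elim g c), ?_, ?_⟩
  · apply s.mem_imE_of (hcop.2 e he)
    · intro v hv
      rcases mem_image_elim.1 (Finset.mem_coe.1 hv) with ⟨k, _, rfl⟩ | ⟨j, _, rfl⟩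
      · exact hg k
      · exact hc j
    · intro h3
      obtain ⟨j, hj⟩ := hcN
      apply hj
      apply h3
      rw [h2]
      exact Finset.mem_coe.2 (mem_image_elim.2 (Or.inr ⟨j, Finset.mem_univ _, rfl⟩))
  · intro v
    rw [h2, mem_image_elim]
    constructor
    · rintro (⟨k, _, rfl⟩ | ⟨j, _, rfl⟩)
      · exact Or.inr ⟨k, rfl⟩
      · exact Or.inl ⟨j, rfl⟩
    · rintro (⟨j, rfl⟩ | ⟨k, rfl⟩)
      · exact Or.inr ⟨j, Finset.mem_univ _, rfl⟩
      · exact Or.inl ⟨k, Finset.mem_univ _, rfl⟩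

/-- violation with base not inside `N`, code with at least two points: some copy is inside the
new block -/
theorem Step.viol_big {H : Set (Finset V)} {N : Set V} {α : Code} {b : Fin α.m → V}
    {f : Fin α.n → V} (s : Step H N α b f) {β : Code} (h1 : β.n ≠ 1) {c : Fin β.m → V}
    {F : Fin (β.mu + 1) → Fin β.n → V} (hc : ∀ j, c j ∈ N ∪ Set.range f)
    (hF : ∀ i k, F i k ∈ N ∪ Set.range f)
    (hcop : ∀ i, Cop H β c (F i)) (hd : ∀ i j, i ≠ j → ∀ k l, F i k ≠ F j l)
    (hcN : ∃ j, c j ∉ N) : ∃ i, ∀ k, F i k ∈ Set.range f := by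
  have hS := strong_of_exact s.hf s.cop s.ex
  by_contra hcon
  push Not at hcon
  have hmeet : ∀ i ∈ (Finset.univ : Finset (Fin (β.mu + 1))), ∃ k, F i k ∈ N := by
    intro i _
    obtain ⟨k, hk⟩ := hcon i
    refine ⟨k, ?_⟩
    rcases hF i k with h | h
    · exact h
    · exact absurd h hk
  have h2 := counting hS Finset.univ hc (fun i _ k => hF i k) (fun i _ => hcop i)
    (fun i _ j _ hij => hd i j hij) hcN hmeet
  have h3 : (Finset.univ.filter (fun j => c j ∉ N)).card ≤ β.m :=
    (Finset.card_filter_le _ _).trans (by simp)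
  have h4 : β.mu = β.m := by
    unfold Code.mu
    rw [if_neg h1]
  rw [Finset.card_univ, Fintype.card_fin, h4] at h2
  omega

/-- violation with base inside `N`: one of the copies is the new block -/
theorem Step.viol_base {H : Set (Finset V)} {N : Set V} {α : Code} {b : Fin α.m → V}
    {f : Fin α.n → V} (s : Step H N α b f) (hN : InC H N) {β : Code} {c : Fin β.m → V}
    {F : Fin (β.mu + 1) → Fin β.n → V} (hc : ∀ j, c j ∈ N)
    (hF : ∀ i k, F i k ∈ N ∪ Set.range f)
    (hcop : ∀ i, Cop H β c (F i)) (hd : ∀ i j, i ≠ j → ∀ k l, F i k ≠ F j l) :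
    ∃ i, (∀ k, F i k ∈ Set.range f) ∧ ∀ j, j ≠ i → ∀ k, F j k ∈ N := by
  have hS := strong_of_exact s.hf s.cop s.ex
  have h1 : ∃ i, ∃ k, F i k ∉ N := by
    by_contra hcon
    push Not at hcon
    exact hN.k6 β ⟨c, F, hc, hcon, hcop, hd⟩
  have h2 : ∀ i, (∃ k, F i k ∉ N) → ∀ k, F i k ∈ Set.range f := by
    intro i hi k
    rcases strong_copy hS (hcop i) hc (hF i) with h3 | h3
    · obtain ⟨k', hk'⟩ := hi
      exact absurd (h3 k') hk'
    · rcases hF i k with h4 | h4
      · exact absurd h4 (h3 k)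
      · exact h4
  obtain ⟨i, hi⟩ := h1
  refine ⟨i, h2 i hi, ?_⟩
  intro j hji k
  by_contra hcon
  have h3 := h2 j ⟨k, hcon⟩ k
  obtain ⟨hr, -⟩ := s.same hc (hcop i) (h2 i hi)
  rw [← hr] at h3
  obtain ⟨l, hl⟩ := h3
  exact hd i j (Ne.symm hji) l k hl

theorem st_Viol : St_Viol := by
  intro V H N α b f hb hf hcop hex hN β hV
  obtain ⟨c, F, h1, h2, h3, h4⟩ := hV
  have s : Step H N α b f := ⟨hb, hf, hcop, hex⟩
  by_cases hcN : ∀ j, c j ∈ N
  · obtain ⟨i, hi, -⟩ := s.viol_base hN hcN h2 h3 h4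
    exact ⟨n_le_of_range (h3 i).inj_f hi, m_le_of_range (h3 i).inj_b (s.base_sub h1 (h3 i) hi)⟩
  · push Not at hcN
    by_cases hn : β.n = 1
    · refine ⟨by rw [hn]; exact α.npos, ?_⟩
      obtain ⟨e, he, he2⟩ := s.viol_one hn h1 (h2 0) (h3 0) hcN
      apply m_le_of_range (h3 0).inj_b (b := b) (f := f)
      intro j
      exact mem_of_mem_imE he ((he2 _).2 (Or.inl ⟨j, rfl⟩))
    · obtain ⟨i, hi⟩ := s.viol_big hn h1 h2 h3 h4 hcN
      exact ⟨n_le_of_range (h3 i).inj_f hi, m_le_of_range (h3 i).inj_b (s.base_sub h1 (h3 i) hi)⟩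

theorem st_Viol1 : St_Viol1 := by
  intro V H N α b f hα hb hf hcop hex hN β hV
  obtain ⟨c, F, h1, h2, h3, h4⟩ := hV
  have s : Step H N α b f := ⟨hb, hf, hcop, hex⟩
  by_cases hcN : ∀ j, c j ∈ N
  · obtain ⟨i, hi, hj⟩ := s.viol_base hN hcN h2 h3 h4
    obtain ⟨hr, hr2, hE, hn, hm⟩ := s.same hcN (h3 i) hi
    have hmu : β.mu = 1 := by
      unfold Code.mu
      rw [if_pos (by rw [hn, hα])]
    have h5 : ∃ j : Fin (β.mu + 1), j ≠ i := by
      by_cases hi0 : i = ⟨0, by omega⟩
      · refine ⟨⟨1, by omega⟩, fun h => ?_⟩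
        rw [hi0] at h
        have := congrArg Fin.val h
        simp at this
      · exact ⟨⟨0, by omega⟩, fun h => hi0 h.symm⟩
    obtain ⟨j, hji⟩ := h5
    obtain ⟨f', hf', hr'⟩ := convert_copy hcop (h3 i) hr hr2 hE (h3 j)
    refine ⟨f', hf', fun k => ?_⟩
    have : f' k ∈ Set.range (F j) := by rw [← hr']; exact ⟨k, rfl⟩
    obtain ⟨l, hl⟩ := this
    rw [← hl]
    exact hj j hji l
  · push Not at hcN
    exfalso
    by_cases hn : β.n = 1
    · have hmu : β.mu = 1 := by
        unfold Code.mu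
        rw [if_pos hn]
      obtain ⟨e, he, he2⟩ := s.viol_one hn h1 (h2 ⟨0, by omega⟩) (h3 ⟨0, by omega⟩) hcN
      obtain ⟨e', he', he2'⟩ := s.viol_one hn h1 (h2 ⟨1, by omega⟩) (h3 ⟨1, by omega⟩) hcN
      have hcard : (imE α b f).card = 1 := by rw [card_imE hcop.1, hα]
      obtain ⟨e0, he0⟩ := Finset.card_eq_one.1 hcard
      rw [he0, Finset.mem_singleton] at he he'
      have h5 : F ⟨0, by omega⟩ ⟨0, β.npos⟩ ∈ e' := by
        rw [he', ← he]
        exact (he2 _).2 (Or.inr ⟨_, rfl⟩)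
      rcases (he2' _).1 h5 with ⟨j, hj⟩ | ⟨k, hk⟩
      · exact (h3 ⟨0, by omega⟩).ne ⟨0, β.npos⟩ j hj.symm
      · refine h4 ⟨1, by omega⟩ ⟨0, by omega⟩ (fun h => ?_) k ⟨0, β.npos⟩ hk
        have := congrArg Fin.val h
        simp at this
    · obtain ⟨i, hi⟩ := s.viol_big hn h1 h2 h3 h4 hcN
      have h5 := n_le_of_range (h3 i).inj_f hi
      have := β.npos
      omega

theorem st_Amalg : St_Amalg := by
  intro V H M N α b f hMN hbM hf hcop hex hN hMf
  by_cases hcopy : ∃ f' : Fin α.n → V, Cop H α b f' ∧ ∀ k, f' k ∈ N ∧ f' k ∉ M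
  · exact Or.inr hcopy
  left
  have hb : ∀ j, b j ∈ N := fun j => hMN.1 (hbM j)
  have s : Step H N α b f := ⟨hb, hf, hcop, hex⟩
  have hS := strong_of_exact hf hcop hex
  have himE : ∀ e ∈ imE α b f, (e : Set V) ⊆ M ∪ Set.range f := by
    intro e he v hv
    rcases mem_of_mem_imE he (Finset.mem_coe.1 hv) with ⟨j, rfl⟩ | h
    · exact Or.inl (hbM j)
    · exact Or.inr h
  refine ⟨?_, ?_, ?_, ?_⟩
  · intro e he heN
    by_cases h1 : (e : Set V) ⊆ N
    · exact hN.k1 e he h1
    · exact hMf.k1 e he (himE e (s.mem_imE_of he heN h1))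
  · intro e he f' hf' hfN hef
    by_cases h1 : (f' : Set V) ⊆ N
    · exact hN.k4 e he f' hf' h1 hef
    · exact hMf.k4 e he f' hf' (himE f' (s.mem_imE_of hf' hfN h1)) hef
  · intro X hX
    have h1 := hS.2 X hX
    have h2 := hN.k5 (X.filter (fun v => v ∈ N)) (fun v hv => (Finset.mem_filter.1
      (Finset.mem_coe.1 hv)).2)
    linarith
  · rintro β ⟨c, F, h1, h2, h3, h4⟩
    by_cases hcN : ∀ j, c j ∈ N
    · obtain ⟨i, hi, hj⟩ := s.viol_base hN hcN h2 h3 h4
      obtain ⟨hr, hr2, hE, hn, hm⟩ := s.same hcN (h3 i) hi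
      have hcM : ∀ j, c j ∈ M := by
        intro j
        have : c j ∈ Set.range b := by rw [← hr2]; exact ⟨j, rfl⟩
        obtain ⟨l, hl⟩ := this
        rw [← hl]
        exact hbM l
      by_cases hall : ∀ j, j ≠ i → ∀ k, F j k ∈ M
      · apply hMf.k6 β
        refine ⟨c, F, fun j => Or.inl (hcM j), fun j k => ?_, h3, h4⟩
        by_cases hji : j = i
        · rw [hji]
          exact Or.inr (hi k)
        · exact Or.inl (hall j hji k)
      · push Not at hall
        obtain ⟨j, hji, k, hk⟩ := hall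
        rcases strong_copy hMN (h3 j) hcM (hj j hji) with h5 | h5
        · exact hk (h5 k)
        · obtain ⟨f', hf', hr'⟩ := convert_copy hcop (h3 i) hr hr2 hE (h3 j)
          apply hcopy
          refine ⟨f', hf', fun l => ?_⟩
          have : f' l ∈ Set.range (F j) := by rw [← hr']; exact ⟨l, rfl⟩
          obtain ⟨l', hl'⟩ := this
          rw [← hl']
          exact ⟨hj j hji l', h5 l'⟩
    · push Not at hcN
      apply hMf.k6 β
      by_cases hn : β.n = 1
      · have h5 : ∀ i, ∀ v, v ∈ Set.range c ∨ v ∈ Set.range (F i) → v ∈ M ∪ Set.range f := by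
          intro i v hv
          obtain ⟨e, he, he2⟩ := s.viol_one hn h1 (h2 i) (h3 i) hcN
          exact himE e he (Finset.mem_coe.2 ((he2 v).2 hv))
        exact ⟨c, F, fun j => h5 0 _ (Or.inl ⟨j, rfl⟩), fun i k => h5 i _ (Or.inr ⟨k, rfl⟩), h3, h4⟩
      · obtain ⟨i, hi⟩ := s.viol_big hn h1 h2 h3 h4 hcN
        have hcM : ∀ j, c j ∈ M ∪ Set.range f := by
          intro j
          rcases s.base_sub h1 (h3 i) hi j with ⟨l, hl⟩ | h5
          · rw [← hl]
            exact Or.inl (hbM l)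
          · exact Or.inr h5
        have hS2 : Strong H (M ∪ Set.range f) (N ∪ Set.range f) :=
          strong_union_copy (Strong.trans' hMN hS) hcop hbM (fun k => Or.inr ⟨k, rfl⟩)
        refine ⟨c, F, hcM, fun i' k => ?_, h3, h4⟩
        rcases strong_copy hS2 (h3 i') hcM (h2 i') with h5 | h5
        · exact h5 k
        · exfalso
          obtain ⟨j, hj⟩ := hcN
          obtain ⟨e, he, hje⟩ := β.hbase j
          obtain ⟨l, hl⟩ := β.hmeet e he
          have h6 : e.image (Sum.elim (F i') c) ∈ imE α b f := by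
            apply s.mem_imE_of ((h3 i').2 e he)
            · intro v hv
              rcases mem_image_elim.1 (Finset.mem_coe.1 hv) with ⟨k', _, rfl⟩ | ⟨j', _, rfl⟩
              · exact h2 i' k'
              · exact h1 j'
            · intro h7
              exact hj (h7 (Finset.mem_coe.2 (mem_image_elim.2 (Or.inr ⟨j, hje, rfl⟩))))
          exact h5 l (himE _ h6 (Finset.mem_coe.2 (mem_image_elim.2 (Or.inl ⟨l, hl, rfl⟩))))

end H912SM
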