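import Pool.Agent.H912R2.SM.Core

/-!
# Basic facts on predimension, strong subsets and copies
-/

set_option autoImplicit false

open scoped Classical

namespace H912SM

variable {V W : Type}

theorem mem_edg {H : Set (Finset V)} {X e : Finset V} : e ∈ edg H X ↔ e ⊆ X ∧ e ∈ H := by
  simp [edg]

theorem mem_ran {n : ℕ} {f : Fin n → V} {v : V} : v ∈ ran f ↔ ∃ k, f k = v := by
  simp [ran]

theorem coe_ran {n : ℕ} (f : Fin n → V) : (ran f : Set V) = Set.range f := by
  simp [ran]

theorem apply_mem_ran {n : ℕ} (f : Fin n → V) (k : Fin n) : f k ∈ ran f := mem_ran.2 ⟨k, rfl⟩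

theorem card_ran {n : ℕ} {f : Fin n → V} (h : Function.Injective f) : (ran f).card = n := by
  simp [ran, Finset.card_image_of_injective _ h]

theorem edg_mono {H : Set (Finset V)} {X Y : Finset V} (h : X ⊆ Y) : edg H X ⊆ edg H Y := by
  intro e he
  rw [mem_edg] at he ⊢
  exact ⟨he.1.trans h, he.2⟩

theorem edg_inter (H : Set (Finset V)) (X Y : Finset V) : edg H (X ∩ Y) = edg H X ∩ edg H Y := by
  ext e
  simp only [Finset.mem_inter, mem_edg, Finset.subset_inter_iff]
  tauto

/-- submodularity -/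
theorem dl_submod (H : Set (Finset V)) (X Y : Finset V) :
    dl H (X ∪ Y) + dl H (X ∩ Y) ≤ dl H X + dl H Y := by
  have h1 := Finset.card_union_add_card_inter X Y
  have h2 := Finset.card_union_add_card_inter (edg H X) (edg H Y)
  have h3 : (edg H X ∪ edg H Y).card ≤ (edg H (X ∪ Y)).card := by
    apply Finset.card_le_card
    apply Finset.union_subset
    · exact edg_mono Finset.subset_union_left
    · exact edg_mono Finset.subset_union_right
  rw [← edg_inter] at h2
  unfold dl
  zify at h1 h2 h3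
  linarith

theorem dl_insert_le (H : Set (Finset V)) (c : V) (X : Finset V) :
    dl H (insert c X) ≤ dl H X + 1 := by
  have h1 : (insert c X).card ≤ X.card + 1 := Finset.card_insert_le _ _
  have h3 : (edg H X).card ≤ (edg H (insert c X)).card :=
    Finset.card_le_card (edg_mono (Finset.subset_insert _ _))
  unfold dl
  zify at h1 h3
  linarith

/-- general estimate: if `X ⊆ Z` and the family `E'` of edges consists of edges inside `Z`, not
inside `X`, then `dl Z ≤ dl X + |Z \ X| - |E'|`. -/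
theorem dl_le_of_edges {H : Set (Finset V)} {X Z : Finset V} (hXZ : X ⊆ Z)
    (E' : Finset (Finset V)) (hE : ∀ e ∈ E', e ∈ H ∧ e ⊆ Z ∧ ¬ e ⊆ X) :
    dl H Z ≤ dl H X + ((Z \ X).card : ℤ) - (E'.card : ℤ) := by
  have h1 : (edg H X ∪ E').card ≤ (edg H Z).card := by
    apply Finset.card_le_card
    intro e he
    rcases Finset.mem_union.1 he with h | h
    · exact edg_mono hXZ h
    · exact mem_edg.2 ⟨(hE e h).2.1, (hE e h).1⟩
  have h2 : Disjoint (edg H X) E' := by
    rw [Finset.disjoint_left]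
    intro e he he'
    exact (hE e he').2.2 (mem_edg.1 he).1
  rw [Finset.card_union_of_disjoint h2] at h1
  have h3 := Finset.card_sdiff_add_card_eq_card hXZ
  unfold dl
  zify at h1 h3
  linarith

/-- exact formula when the new edges are exactly `E'` -/
theorem dl_eq_of_edges {H : Set (Finset V)} {X Z : Finset V} (hXZ : X ⊆ Z)
    (E' : Finset (Finset V)) (hE : ∀ e, e ∈ E' ↔ e ∈ H ∧ e ⊆ Z ∧ ¬ e ⊆ X) :
    dl H Z = dl H X + ((Z \ X).card : ℤ) - (E'.card : ℤ) := by
  have h1 : edg H Z = edg H X ∪ E' := by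
    ext e
    rw [Finset.mem_union, mem_edg, mem_edg, hE]
    constructor
    · rintro ⟨h1, h2⟩
      by_cases h : e ⊆ X
      · exact Or.inl ⟨h, h2⟩
      · exact Or.inr ⟨h2, h1, h⟩
    · rintro (⟨h1, h2⟩ | ⟨h1, h2, h3⟩)
      · exact ⟨h1.trans hXZ, h2⟩
      · exact ⟨h2, h1⟩
  have h2 : Disjoint (edg H X) E' := by
    rw [Finset.disjoint_left]
    intro e he he'
    exact ((hE e).1 he').2.2 (mem_edg.1 he).1
  have h3 := Finset.card_sdiff_add_card_eq_card hXZ
  unfold dl
  rw [h1, Finset.card_union_of_disjoint h2]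
  zify at h3
  push_cast
  linarith

/-! ### strong subsets -/

theorem filter_mem_of_subset {M : Set V} {X : Finset V} (h : (X : Set V) ⊆ M) :
    X.filter (fun v => v ∈ M) = X :=
  Finset.filter_true_of_mem (fun v hv => h (Finset.mem_coe.2 hv))

theorem Strong.refl' (H : Set (Finset V)) (M : Set V) : Strong H M M :=
  ⟨subset_rfl, fun Z hZ => by rw [filter_mem_of_subset hZ]⟩

theorem Strong.trans' {H : Set (Finset V)} {M N K : Set V} (h1 : Strong H M N)
    (h2 : Strong H N K) : Strong H M K := by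
  refine ⟨h1.1.trans h2.1, fun Z hZ => ?_⟩
  have e1 : Z.filter (fun v => v ∈ M) = (Z.filter (fun v => v ∈ N)).filter (fun v => v ∈ M) := by
    ext v
    simp only [Finset.mem_filter]
    constructor
    · rintro ⟨h, h'⟩
      exact ⟨⟨h, h1.1 h'⟩, h'⟩
    · rintro ⟨⟨h, _⟩, h'⟩
      exact ⟨h, h'⟩
  rw [e1]
  refine (h1.2 _ ?_).trans (h2.2 Z hZ)
  intro v hv
  exact (Finset.mem_filter.1 (Finset.mem_coe.1 hv)).2

theorem Strong.mono {H : Set (Finset V)} {M N K : Set V} (h : Strong H M K) (h1 : M ⊆ N)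
    (h2 : N ⊆ K) : Strong H M N :=
  ⟨h1, fun Z hZ => h.2 Z (hZ.trans h2)⟩

/-- strong subsets in terms of arbitrary finite subsets `Y` of `M` and `Z ⊆ N` with `Z ∩ M = Y` -/
theorem Strong.le {H : Set (Finset V)} {M N : Set V} (h : Strong H M N) {Y Z : Finset V}
    (hZ : (Z : Set V) ⊆ N) (hY : ∀ v, v ∈ Y ↔ v ∈ Z ∧ v ∈ M) : dl H Y ≤ dl H Z := by
  have := h.2 Z hZ
  have e1 : Z.filter (fun v => v ∈ M) = Y := by
    ext v
    rw [Finset.mem_filter, hY]
  rwa [e1] at this

/-- finite criterion: `X` finite, `dl X ≤ dl (X ∪ Z)` for all `Z ⊆ N` -/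
theorem strong_of_le_union {H : Set (Finset V)} {X : Finset V} {N : Set V} (hXN : (X : Set V) ⊆ N)
    (h : ∀ Z : Finset V, (Z : Set V) ⊆ N → dl H X ≤ dl H (X ∪ Z)) : Strong H (X : Set V) N := by
  refine ⟨hXN, fun Z hZ => ?_⟩
  have h1 := dl_submod H X Z
  have h2 := h Z hZ
  have h3 : dl H (X ∩ Z) ≤ dl H Z := by linarith
  convert h3 using 2
  ext v
  simp [and_comm]

theorem Strong.le_of_subset {H : Set (Finset V)} {X Y : Finset V} {N : Set V}
    (h : Strong H (X : Set V) N) (hXY : X ⊆ Y) (hY : (Y : Set V) ⊆ N) : dl H X ≤ dl H Y := by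
  apply h.le hY
  intro v
  constructor
  · intro hv
    exact ⟨hXY hv, hv⟩
  · intro hv
    exact hv.2

/-! ### copies -/

theorem Cop.inj_f {H : Set (Finset V)} {α : Code} {b : Fin α.m → V} {f : Fin α.n → V}
    (h : Cop H α b f) : Function.Injective f := by
  intro x y hxy
  have := h.1 (a₁ := Sum.inl x) (a₂ := Sum.inl y) hxy
  simpa using this

theorem Cop.inj_b {H : Set (Finset V)} {α : Code} {b : Fin α.m → V} {f : Fin α.n → V}
    (h : Cop H α b f) : Function.Injective b := by
  intro x y hxy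
  have := h.1 (a₁ := Sum.inr x) (a₂ := Sum.inr y) hxy
  simpa using this

theorem Cop.ne {H : Set (Finset V)} {α : Code} {b : Fin α.m → V} {f : Fin α.n → V}
    (h : Cop H α b f) (k : Fin α.n) (j : Fin α.m) : f k ≠ b j := by
  intro hxy
  have := h.1 (a₁ := Sum.inl k) (a₂ := Sum.inr j) hxy
  simp at this

theorem Cop.mono {H H' : Set (Finset V)} (hH : H ⊆ H') {α : Code} {b : Fin α.m → V}
    {f : Fin α.n → V} (h : Cop H α b f) : Cop H' α b f :=
  ⟨h.1, fun e he => hH (h.2 e he)⟩

/-- the set of images of the edges of `α` -/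
noncomputable def imE (α : Code) (b : Fin α.m → V) (f : Fin α.n → V) : Finset (Finset V) :=
  α.E.image (fun e => e.image (Sum.elim f b))

theorem mem_imE {α : Code} {b : Fin α.m → V} {f : Fin α.n → V} {e : Finset V} :
    e ∈ imE α b f ↔ ∃ e' ∈ α.E, e = e'.image (Sum.elim f b) := by
  simp only [imE, Finset.mem_image]
  constructor
  · rintro ⟨a, h1, h2⟩
    exact ⟨a, h1, h2.symm⟩
  · rintro ⟨a, h1, h2⟩
    exact ⟨a, h1, h2.symm⟩

theorem card_imE {α : Code} {b : Fin α.m → V} {f : Fin α.n → V}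
    (h : Function.Injective (Sum.elim f b)) : (imE α b f).card = α.n := by
  rw [imE, Finset.card_image_of_injective _ (Finset.image_injective h), α.hcard]

/-- points of an edge image -/
theorem mem_image_elim {α : Code} {b : Fin α.m → V} {f : Fin α.n → V}
    {e : Finset (Fin α.n ⊕ Fin α.m)} {v : V} :
    v ∈ e.image (Sum.elim f b) ↔ (∃ k, Sum.inl k ∈ e ∧ f k = v) ∨ (∃ j, Sum.inr j ∈ e ∧ b j = v) := by
  simp only [Finset.mem_image]
  constructor
  · rintro ⟨a, h1, h2⟩
    rcases a with k | j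
    · exact Or.inl ⟨k, h1, h2⟩
    · exact Or.inr ⟨j, h1, h2⟩
  · rintro (⟨k, h1, h2⟩ | ⟨j, h1, h2⟩)
    · exact ⟨_, h1, h2⟩
    · exact ⟨_, h1, h2⟩

/-- the edge images inside `Y` (where `Y` contains the base) are those of the edges whose new points
are in `Y` -/
theorem image_subset_iff {H : Set (Finset V)} {α : Code} {b : Fin α.m → V} {f : Fin α.n → V}
    (_h : Cop H α b f) {Y : Finset V} (hb : ∀ j, b j ∈ Y) {e : Finset (Fin α.n ⊕ Fin α.m)} :
    e.image (Sum.elim f b) ⊆ Y ↔ ∀ k, Sum.inl k ∈ e → f k ∈ Y := by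
  constructor
  · intro h k hk
    exact h (mem_image_elim.2 (Or.inl ⟨k, hk, rfl⟩))
  · intro h v hv
    rcases mem_image_elim.1 hv with ⟨k, h1, rfl⟩ | ⟨j, h1, rfl⟩
    · exact h k h1
    · exact hb j

/-- if no point of the copy is in `Y` then no edge image is inside `Y` -/
theorem not_image_subset {α : Code} {b : Fin α.m → V} {f : Fin α.n → V}
    {Y : Set V} (hf : ∀ k, f k ∉ Y) {e : Finset (Fin α.n ⊕ Fin α.m)} (he : e ∈ α.E) :
    ¬ ((e.image (Sum.elim f b) : Finset V) : Set V) ⊆ Y := by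
  intro h
  obtain ⟨k, hk⟩ := α.hmeet e he
  exact hf k (h (Finset.mem_coe.2 (mem_image_elim.2 (Or.inl ⟨k, hk, rfl⟩))))

/-- number of edge images inside `Y` -/
theorem card_imE_filter {H : Set (Finset V)} {α : Code} {b : Fin α.m → V} {f : Fin α.n → V}
    (h : Cop H α b f) {Y : Finset V} (hb : ∀ j, b j ∈ Y) (h1 : ∃ k, f k ∈ Y) (h2 : ∃ k, f k ∉ Y) :
    ((imE α b f).filter (fun e => e ⊆ Y)).card < (Y ∩ ran f).card := by
  have e1 : (imE α b f).filter (fun e => e ⊆ Y) =
      (α.E.filter (fun e => ∀ k, Sum.inl k ∈ e → k ∈ Finset.univ.filter (fun k => f k ∈ Y))).image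
        (fun e => e.image (Sum.elim f b)) := by
    ext e
    simp only [Finset.mem_filter, mem_imE, Finset.mem_image, Finset.mem_univ, true_and]
    constructor
    · rintro ⟨⟨e', he', rfl⟩, h3⟩
      exact ⟨e', ⟨he', (image_subset_iff h hb).1 h3⟩, rfl⟩
    · rintro ⟨e', ⟨he', h3⟩, rfl⟩
      exact ⟨⟨e', he', rfl⟩, (image_subset_iff h hb).2 h3⟩
  rw [e1, Finset.card_image_of_injective _ (Finset.image_injective h.1)]
  have e2 : (Y ∩ ran f).card = (Finset.univ.filter (fun k => f k ∈ Y)).card := by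
    have : Y ∩ ran f = (Finset.univ.filter (fun k => f k ∈ Y)).image f := by
      ext v
      simp only [Finset.mem_inter, mem_ran, Finset.mem_image, Finset.mem_filter, Finset.mem_univ,
        true_and]
      constructor
      · rintro ⟨h3, k, rfl⟩
        exact ⟨k, h3, rfl⟩
      · rintro ⟨k, h3, rfl⟩
        exact ⟨h3, k, rfl⟩
    rw [this, Finset.card_image_of_injective _ h.inj_f]
  rw [e2]
  apply α.hmin
  · obtain ⟨k, hk⟩ := h1
    exact ⟨k, by simpa using hk⟩
  · obtain ⟨k, hk⟩ := h2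
    intro h3
    have : k ∈ Finset.univ.filter (fun k => f k ∈ Y) := by rw [h3]; exact Finset.mem_univ _
    exact hk (by simpa using this)

/-- copies do not increase the predimension; strict decrease for partially contained copies -/
theorem cop_dl_lt {H : Set (Finset V)} {α : Code} {b : Fin α.m → V} {f : Fin α.n → V}
    (h : Cop H α b f) {Y : Finset V} (hb : ∀ j, b j ∈ Y) (h1 : ∃ k, f k ∈ Y) (h2 : ∃ k, f k ∉ Y) :
    dl H (Y ∪ ran f) + 1 ≤ dl H Y := by
  have h3 := dl_le_of_edges (H := H) (X := Y) (Z := Y ∪ ran f) Finset.subset_union_left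
    ((imE α b f).filter (fun e => ¬ e ⊆ Y)) (by
      intro e he
      rw [Finset.mem_filter, mem_imE] at he
      obtain ⟨⟨e', he', rfl⟩, h4⟩ := he
      refine ⟨h.2 _ he', ?_, h4⟩
      intro v hv
      rcases mem_image_elim.1 hv with ⟨k, _, rfl⟩ | ⟨j, _, rfl⟩
      · exact Finset.mem_union_right _ (apply_mem_ran f k)
      · exact Finset.mem_union_left _ (hb j))
  have h4 := card_imE_filter h hb h1 h2
  have h5 : ((imE α b f).filter (fun e => e ⊆ Y)).card +
      ((imE α b f).filter (fun e => ¬ e ⊆ Y)).card = (imE α b f).card :=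
    Finset.card_filter_add_card_filter_not _
  rw [card_imE h.1] at h5
  have h6 : ((Y ∪ ran f) \ Y).card + (Y ∩ ran f).card = α.n := by
    rw [Finset.union_sdiff_left, Finset.inter_comm, Finset.card_sdiff_add_card_inter,
      card_ran h.inj_f]
  zify at h4 h5 h6
  linarith

theorem cop_dl_le {H : Set (Finset V)} {α : Code} {b : Fin α.m → V} {f : Fin α.n → V}
    (h : Cop H α b f) {Y : Finset V} (hb : ∀ j, b j ∈ Y) :
    dl H (Y ∪ ran f) ≤ dl H Y := by
  by_cases h1 : ∃ k, f k ∈ Y
  · by_cases h2 : ∃ k, f k ∉ Y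
    · have := cop_dl_lt h hb h1 h2
      linarith
    · push Not at h2
      have : Y ∪ ran f = Y := by
        apply Finset.union_eq_left.2
        intro v hv
        obtain ⟨k, rfl⟩ := mem_ran.1 hv
        exact h2 k
      rw [this]
  · push Not at h1
    have h3 := dl_le_of_edges (H := H) (X := Y) (Z := Y ∪ ran f) Finset.subset_union_left
      (imE α b f) (by
        intro e he
        rw [mem_imE] at he
        obtain ⟨e', he', rfl⟩ := he
        refine ⟨h.2 _ he', ?_, fun h5 => not_image_subset (Y := (Y : Set V)) h1 he'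
          (Finset.coe_subset.2 h5)⟩
        intro v hv
        rcases mem_image_elim.1 hv with ⟨k, _, rfl⟩ | ⟨j, _, rfl⟩
        · exact Finset.mem_union_right _ (apply_mem_ran f k)
        · exact Finset.mem_union_left _ (hb j))
    rw [card_imE h.1] at h3
    have h6 : ((Y ∪ ran f) \ Y).card ≤ α.n := by
      rw [Finset.union_sdiff_left]
      exact (Finset.card_le_card Finset.sdiff_subset).trans (card_ran h.inj_f).le
    zify at h6
    linarith

end H912SM
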