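import Pool.Agent.H912R2.SM.Basic

/-!
# More basic facts: strong subsets and copies, closures, transport of the class
-/

set_option autoImplicit false

open scoped Classical

namespace H912SM

variable {V W : Type}

/-- the image of an edge lies in base ∪ copy -/
theorem image_subset_union {α : Code} {b : Fin α.m → V} {f : Fin α.n → V} {Y : Finset V}
    (hb : ∀ j, b j ∈ Y) (e : Finset (Fin α.n ⊕ Fin α.m)) :
    e.image (Sum.elim f b) ⊆ Y ∪ ran f := by
  intro v hv
  rcases mem_image_elim.1 hv with ⟨k, _, rfl⟩ | ⟨j, _, rfl⟩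
  · exact Finset.mem_union_right _ (apply_mem_ran f k)
  · exact Finset.mem_union_left _ (hb j)

/-- a copy over a base in a strong set `M` is inside `M` or disjoint from `M` -/
theorem strong_copy {H : Set (Finset V)} {M N : Set V} (hM : Strong H M N) {α : Code}
    {b : Fin α.m → V} {f : Fin α.n → V} (h : Cop H α b f) (hb : ∀ j, b j ∈ M)
    (hf : ∀ k, f k ∈ N) : (∀ k, f k ∈ M) ∨ (∀ k, f k ∉ M) := by
  by_contra hcon
  push Not at hcon
  obtain ⟨⟨k1, h1⟩, ⟨k2, h2⟩⟩ := hcon
  have hb' : ∀ j, b j ∈ ran b ∪ (ran f).filter (fun v => v ∈ M) := fun j =>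
    Finset.mem_union_left _ (apply_mem_ran b j)
  have hY : ∀ v, v ∈ ran b ∪ (ran f).filter (fun v => v ∈ M) → v ∈ M := by
    intro v hv
    rcases Finset.mem_union.1 hv with hv | hv
    · obtain ⟨j, rfl⟩ := mem_ran.1 hv
      exact hb j
    · exact (Finset.mem_filter.1 hv).2
  have h3 := cop_dl_lt h hb' ⟨k2, Finset.mem_union_right _ (Finset.mem_filter.2
    ⟨apply_mem_ran f k2, h2⟩)⟩ ⟨k1, fun hk => h1 (hY _ hk)⟩
  have h4 : dl H (ran b ∪ (ran f).filter (fun v => v ∈ M)) ≤
      dl H (ran b ∪ (ran f).filter (fun v => v ∈ M) ∪ ran f) := by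
    apply hM.le
    · intro v hv
      rcases Finset.mem_union.1 (Finset.mem_coe.1 hv) with hv | hv
      · exact hM.1 (hY v hv)
      · obtain ⟨k, rfl⟩ := mem_ran.1 hv
        exact hf k
    · intro v
      constructor
      · intro hv
        exact ⟨Finset.mem_union_left _ hv, hY v hv⟩
      · rintro ⟨hv, hv2⟩
        rcases Finset.mem_union.1 hv with hv | hv
        · exact hv
        · exact Finset.mem_union_right _ (Finset.mem_filter.2 ⟨hv, hv2⟩)
  linarith

/-- copies disjoint from a strong set are exact -/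
theorem exact_of_strong {H : Set (Finset V)} {M N : Set V} (hM : Strong H M N) {α : Code}
    {b : Fin α.m → V} {f : Fin α.n → V} (h : Cop H α b f) (hb : ∀ j, b j ∈ M)
    (hf : ∀ k, f k ∈ N) (hf2 : ∀ k, f k ∉ M) : Exact H M α b f := by
  intro e he heM
  by_contra hcon
  push Not at hcon
  obtain ⟨h1, h2⟩ := hcon
  -- Y = (e ∩ M) ∪ base, Z = Y ∪ copy
  set Y : Finset V := e.filter (fun v => v ∈ M) ∪ ran b with hYdef
  have hY : ∀ v, v ∈ Y → v ∈ M := by
    intro v hv
    rcases Finset.mem_union.1 hv with hv | hv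
    · exact (Finset.mem_filter.1 hv).2
    · obtain ⟨j, rfl⟩ := mem_ran.1 hv
      exact hb j
  have hbY : ∀ j, b j ∈ Y := fun j => Finset.mem_union_right _ (apply_mem_ran b j)
  have h3 : dl H Y ≤ dl H (Y ∪ ran f) := by
    apply hM.le
    · intro v hv
      rcases Finset.mem_union.1 (Finset.mem_coe.1 hv) with hv | hv
      · exact hM.1 (hY v hv)
      · obtain ⟨k, rfl⟩ := mem_ran.1 hv
        exact hf k
    · intro v
      constructor
      · intro hv
        exact ⟨Finset.mem_union_left _ hv, hY v hv⟩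
      · rintro ⟨hv, hv2⟩
        rcases Finset.mem_union.1 hv with hv | hv
        · exact hv
        · obtain ⟨k, rfl⟩ := mem_ran.1 hv
          exact absurd hv2 (hf2 k)
  have h4 := dl_le_of_edges (H := H) (X := Y) (Z := Y ∪ ran f) Finset.subset_union_left
    (insert e (imE α b f)) (by
      intro e1 he1
      rcases Finset.mem_insert.1 he1 with rfl | he1
      · refine ⟨he, ?_, fun h5 => h1 fun v hv => hY v (h5 (Finset.mem_coe.1 hv))⟩
        intro v hv
        rcases heM (Finset.mem_coe.2 hv) with h6 | ⟨k, h6⟩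
        · exact Finset.mem_union_left _ (Finset.mem_union_left _ (Finset.mem_filter.2 ⟨hv, h6⟩))
        · exact Finset.mem_union_right _ (mem_ran.2 ⟨k, h6⟩)
      · obtain ⟨e', he', rfl⟩ := mem_imE.1 he1
        refine ⟨h.2 _ he', image_subset_union hbY e', fun h5 => ?_⟩
        exact not_image_subset (Y := M) hf2 he' (fun v hv => hY v (h5 (Finset.mem_coe.1 hv))))
  have h5 : e ∉ imE α b f := by
    intro h6
    obtain ⟨e', he', h7⟩ := mem_imE.1 h6
    exact h2 e' he' h7
  rw [Finset.card_insert_of_notMem h5, card_imE h.1] at h4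
  have h6 : ((Y ∪ ran f) \ Y).card ≤ α.n := by
    rw [Finset.union_sdiff_left]
    exact (Finset.card_le_card Finset.sdiff_subset).trans (card_ran h.inj_f).le
  zify at h6
  push_cast at h4
  linarith

/-- a strong set together with a copy over it is strong -/
theorem strong_union_copy {H : Set (Finset V)} {M N : Set V} (hM : Strong H M N) {α : Code}
    {b : Fin α.m → V} {f : Fin α.n → V} (h : Cop H α b f) (hb : ∀ j, b j ∈ M)
    (hf : ∀ k, f k ∈ N) : Strong H (M ∪ Set.range f) N := by
  rcases strong_copy hM h hb hf with h0 | hf2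
  · have : M ∪ Set.range f = M := by
      apply Set.union_eq_left.2
      rintro v ⟨k, rfl⟩
      exact h0 k
    rw [this]
    exact hM
  refine ⟨Set.union_subset hM.1 (by rintro v ⟨k, rfl⟩; exact hf k), fun Z hZ => ?_⟩
  set Y : Finset V := Z.filter (fun v => v ∈ M) ∪ ran b with hYdef
  have hY : ∀ v, v ∈ Y → v ∈ M := by
    intro v hv
    rcases Finset.mem_union.1 hv with hv | hv
    · exact (Finset.mem_filter.1 hv).2
    · obtain ⟨j, rfl⟩ := mem_ran.1 hv
      exact hb j
  have hbY : ∀ j, b j ∈ Y := fun j => Finset.mem_union_right _ (apply_mem_ran b j)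
  have h1 : dl H (Y ∪ ran f) ≤ dl H Y := cop_dl_le h hbY
  have h2 := dl_submod H Z (Y ∪ ran f)
  have h3 : dl H Y ≤ dl H (Z ∪ (Y ∪ ran f)) := by
    apply hM.le
    · intro v hv
      rcases Finset.mem_union.1 (Finset.mem_coe.1 hv) with hv | hv
      · exact hZ (Finset.mem_coe.2 hv)
      · rcases Finset.mem_union.1 hv with hv | hv
        · exact hM.1 (hY v hv)
        · obtain ⟨k, rfl⟩ := mem_ran.1 hv
          exact hf k
    · intro v
      constructor
      · intro hv
        exact ⟨Finset.mem_union_right _ (Finset.mem_union_left _ hv), hY v hv⟩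
      · rintro ⟨hv, hv2⟩
        rcases Finset.mem_union.1 hv with hv | hv
        · exact Finset.mem_union_left _ (Finset.mem_filter.2 ⟨hv, hv2⟩)
        · rcases Finset.mem_union.1 hv with hv | hv
          · exact hv
          · obtain ⟨k, rfl⟩ := mem_ran.1 hv
            exact absurd hv2 (hf2 k)
  have h4 : Z ∩ (Y ∪ ran f) = Z.filter (fun v => v ∈ M ∪ Set.range f) := by
    ext v
    simp only [Finset.mem_inter, Finset.mem_union, Finset.mem_filter, hYdef, mem_ran, Set.mem_union,
      Set.mem_range]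
    constructor
    · rintro ⟨h5, (⟨_, h6⟩ | ⟨j, rfl⟩) | h6⟩
      · exact ⟨h5, Or.inl h6⟩
      · exact ⟨h5, Or.inl (hb j)⟩
      · exact ⟨h5, Or.inr h6⟩
    · rintro ⟨h5, h6 | h6⟩
      · exact ⟨h5, Or.inl (Or.inl ⟨h5, h6⟩)⟩
      · exact ⟨h5, Or.inr h6⟩
  rw [h4] at h2
  have h6 : dl H (Z.filter (fun v => v ∈ M ∪ Set.range f)) ≤ dl H Z := by linarith
  convert h6

/-- finite strong hulls exist inside strong sets -/
theorem exists_closure {H : Set (Finset V)} {A : Set V} (hA : Strong H A Set.univ)
    (h5 : ∀ X : Finset V, (X : Set V) ⊆ A → 0 ≤ dl H X) (X : Finset V) (hX : (X : Set V) ⊆ A) :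
    ∃ X' : Finset V, X ⊆ X' ∧ (X' : Set V) ⊆ A ∧ Strong H (X' : Set V) Set.univ := by
  -- choose X' with minimal dl
  have hex : ∃ n : ℕ, ∃ X' : Finset V, X ⊆ X' ∧ (X' : Set V) ⊆ A ∧ dl H X' = n := by
    refine ⟨(dl H X).toNat, X, subset_rfl, hX, ?_⟩
    rw [Int.toNat_of_nonneg (h5 X hX)]
  obtain ⟨X', h1, h2, h3⟩ := Nat.find_spec hex
  refine ⟨X', h1, h2, ?_⟩
  refine Strong.trans' ?_ hA
  apply strong_of_le_union h2
  intro Z hZ
  by_contra hcon
  push Not at hcon
  have h4 : ((X' ∪ Z : Finset V) : Set V) ⊆ A := by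
    rw [Finset.coe_union]
    exact Set.union_subset h2 hZ
  have h6 := Nat.find_min' hex (m := (dl H (X' ∪ Z)).toNat)
    ⟨X' ∪ Z, h1.trans Finset.subset_union_left, h4, by rw [Int.toNat_of_nonneg (h5 _ h4)]⟩
  have h7 : ((Nat.find hex : ℕ) : ℤ) ≤ dl H (X' ∪ Z) := by
    rw [← Int.toNat_of_nonneg (h5 _ h4)]
    exact_mod_cast h6
  linarith

/-! ### transport -/

theorem edg_congr {H H' : Set (Finset V)} {X : Finset V} (h : ∀ e, e ⊆ X → (e ∈ H' ↔ e ∈ H)) :
    edg H' X = edg H X := by
  ext e
  rw [mem_edg, mem_edg]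
  constructor
  · rintro ⟨h1, h2⟩
    exact ⟨h1, (h e h1).1 h2⟩
  · rintro ⟨h1, h2⟩
    exact ⟨h1, (h e h1).2 h2⟩

theorem dl_congr {H H' : Set (Finset V)} {X : Finset V} (h : ∀ e, e ⊆ X → (e ∈ H' ↔ e ∈ H)) :
    dl H' X = dl H X := by
  unfold dl
  rw [edg_congr h]

theorem dl_anti {H H' : Set (Finset V)} (h : H' ⊆ H) (X : Finset V) : dl H X ≤ dl H' X := by
  have : (edg H' X).card ≤ (edg H X).card := by
    apply Finset.card_le_card
    intro e he
    rw [mem_edg] at he ⊢
    exact ⟨he.1, h he.2⟩
  unfold dl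
  zify at this
  linarith

/-- the predimension is preserved by maps which are injective on `X` and preserve edges -/
theorem dl_map {H' : Set (Finset W)} {H : Set (Finset V)} {g : W → V} {X : Finset W}
    (hg : Set.InjOn g X) (h : ∀ e, e ⊆ X → (e ∈ H' ↔ e.image g ∈ H)) :
    dl H (X.image g) = dl H' X := by
  have h1 : (X.image g).card = X.card := Finset.card_image_of_injOn hg
  have h2 : edg H (X.image g) = (edg H' X).image (fun e => e.image g) := by
    ext e
    rw [mem_edg, Finset.mem_image]
    constructor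
    · rintro ⟨h3, h4⟩
      obtain ⟨e', h5, h6⟩ := Finset.subset_image_iff.1 h3
      refine ⟨e', mem_edg.2 ⟨Finset.coe_subset.1 h5, ?_⟩, ?_⟩
      · rw [h e' (Finset.coe_subset.1 h5), h6]
        exact h4
      · exact h6
    · rintro ⟨e', h5, rfl⟩
      rw [mem_edg] at h5
      exact ⟨Finset.image_subset_image h5.1, (h e' h5.1).1 h5.2⟩
  have h3 : (edg H (X.image g)).card = (edg H' X).card := by
    rw [h2]
    apply Finset.card_image_of_injOn
    intro e1 he1 e2 he2 h12
    rw [Finset.mem_coe, mem_edg] at he1 he2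
    ext v
    constructor
    · intro hv
      have : g v ∈ e2.image g := by
        have h12' : e1.image g = e2.image g := h12
        rw [← h12']
        exact Finset.mem_image_of_mem g hv
      obtain ⟨w, hw, hwv⟩ := Finset.mem_image.1 this
      rw [← hg (he2.1 hw) (he1.1 hv) hwv]
      exact hw
    · intro hv
      have : g v ∈ e1.image g := by
        have h12' : e1.image g = e2.image g := h12
        rw [h12']
        exact Finset.mem_image_of_mem g hv
      obtain ⟨w, hw, hwv⟩ := Finset.mem_image.1 this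
      rw [← hg (he1.1 hw) (he2.1 hv) hwv]
      exact hw
  unfold dl
  rw [h1, h3]

theorem InC.mono_set {H : Set (Finset V)} {S S' : Set V} (h : InC H S) (hS : S' ⊆ S) :
    InC H S' where
  k1 := fun e he heS => h.k1 e he (heS.trans hS)
  k4 := fun e he f hf hfS hef => h.k4 e he f hf (hfS.trans hS) hef
  k5 := fun X hX => h.k5 X (hX.trans hS)
  k6 := by
    rintro α ⟨b, F, h1, h2, h3, h4⟩
    exact h.k6 α ⟨b, F, fun j => hS (h1 j), fun i k => hS (h2 i k), h3, h4⟩

theorem InC.mono_edges {H H' : Set (Finset V)} {S : Set V} (h : InC H S) (hH : H' ⊆ H) :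
    InC H' S where
  k1 := fun e he heS => h.k1 e (hH he) heS
  k4 := fun e he f hf hfS hef => h.k4 e (hH he) f (hH hf) hfS hef
  k5 := fun X hX => (h.k5 X hX).trans (dl_anti hH X)
  k6 := by
    rintro α ⟨b, F, h1, h2, h3, h4⟩
    exact h.k6 α ⟨b, F, h1, h2, fun i => (h3 i).mono hH, h4⟩

/-- the class is local: it only depends on the edges inside `S`; transport along a map `g`
injective on `S` -/
theorem InC.of_map {H' : Set (Finset W)} {H : Set (Finset V)} {g : W → V} {S : Set W}
    (hg : Set.InjOn g S) (h : ∀ e : Finset W, (e : Set W) ⊆ S → (e ∈ H' → e.image g ∈ H))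
    (hC : InC H (g '' S)) : InC H' S where
  k1 := by
    intro e he heS
    have h1 := hC.k1 _ (h e heS he) (by rw [Finset.coe_image]; exact Set.image_mono heS)
    rwa [Finset.card_image_of_injOn (hg.mono heS)] at h1
  k4 := by
    intro e he f hf hfS hef
    have heS : (e : Set W) ⊆ S := (Finset.coe_subset.2 hef).trans hfS
    have h1 := hC.k4 _ (h e heS he) _ (h f hfS hf) (by rw [Finset.coe_image]; exact Set.image_mono hfS)
      (Finset.image_subset_image hef)
    apply Finset.Subset.antisymm hef
    intro v hv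
    have h2 : g v ∈ e.image g := by rw [h1]; exact Finset.mem_image_of_mem g hv
    obtain ⟨w, hw, hwv⟩ := Finset.mem_image.1 h2
    rw [← hg (heS hw) (hfS hv) hwv]
    exact hw
  k5 := by
    intro X hX
    have h1 := hC.k5 (X.image g) (by rw [Finset.coe_image]; exact Set.image_mono hX)
    have h2 : (edg H' X).card ≤ (edg H (X.image g)).card := by
      have h3 : (edg H' X).image (fun e => e.image g) ⊆ edg H (X.image g) := by
        intro e he
        obtain ⟨e', h4, rfl⟩ := Finset.mem_image.1 he
        rw [mem_edg] at h4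
        exact mem_edg.2 ⟨Finset.image_subset_image h4.1,
          h e' ((Finset.coe_subset.2 h4.1).trans hX) h4.2⟩
      refine le_trans (le_of_eq ?_) (Finset.card_le_card h3)
      symm
      apply Finset.card_image_of_injOn
      intro e1 he1 e2 he2 h12
      rw [Finset.mem_coe, mem_edg] at he1 he2
      have h12' : e1.image g = e2.image g := h12
      ext v
      constructor
      · intro hv
        have : g v ∈ e2.image g := by
          rw [← h12']
          exact Finset.mem_image_of_mem g hv
        obtain ⟨w, hw, hwv⟩ := Finset.mem_image.1 this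
        rw [← hg (hX (he2.1 hw)) (hX (he1.1 hv)) hwv]
        exact hw
      · intro hv
        have : g v ∈ e1.image g := by
          rw [h12']
          exact Finset.mem_image_of_mem g hv
        obtain ⟨w, hw, hwv⟩ := Finset.mem_image.1 this
        rw [← hg (hX (he1.1 hw)) (hX (he2.1 hv)) hwv]
        exact hw
    have h3 : (X.image g).card = X.card := Finset.card_image_of_injOn (hg.mono hX)
    unfold dl at h1 ⊢
    rw [h3] at h1
    zify at h2
    linarith
  k6 := by
    rintro α ⟨b, F, h1, h2, h3, h4⟩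
    apply hC.k6 α
    refine ⟨g ∘ b, fun i => g ∘ F i, fun j => ⟨b j, h1 j, rfl⟩, fun i k => ⟨F i k, h2 i k, rfl⟩, ?_, ?_⟩
    · intro i
      have e1 : Sum.elim (g ∘ F i) (g ∘ b) = g ∘ Sum.elim (F i) b := by
        ext x
        rcases x with k | j <;> rfl
      have hS : ∀ x, Sum.elim (F i) b x ∈ S := by
        intro x
        rcases x with k | j
        · exact h2 i k
        · exact h1 j
      constructor
      · rw [e1]
        intro x y hxy
        exact (h3 i).1 (hg (hS x) (hS y) hxy)
      · intro e he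
        rw [e1, ← Finset.image_image]
        apply h _ _ ((h3 i).2 e he)
        intro v hv
        obtain ⟨x, _, rfl⟩ := Finset.mem_image.1 (Finset.mem_coe.1 hv)
        exact hS x
    · intro i j hij k l hkl
      exact h4 i j hij k l (hg (h2 i k) (h2 j l) hkl)

theorem InC.congr {H H' : Set (Finset V)} {S : Set V} (h : InC H S)
    (hH : ∀ e : Finset V, (e : Set V) ⊆ S → e ∈ H' → e ∈ H) : InC H' S := by
  apply InC.of_map (g := id) (H := H) (Set.injOn_id S)
  · intro e he he'
    rw [Finset.image_id]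
    exact hH e he he'
  · rwa [Set.image_id]

end H912SM
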