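import Pool.Agent.H912R2.SM.Basic2

/-!
# Free extensions by a code are strong
-/

set_option autoImplicit false

open scoped Classical

namespace H912SM

variable {V W : Type}

/-- number of edge images inside a set `Z` -/
theorem card_imE_subset_le {H : Set (Finset V)} {α : Code} {b : Fin α.m → V} {f : Fin α.n → V}
    (h : Cop H α b f) (Z : Finset V) :
    ((imE α b f).filter (fun e => e ⊆ Z)).card ≤ (Z ∩ ran f).card := by
  by_cases h1 : ∃ k, f k ∈ Z
  · by_cases h2 : ∃ k, f k ∉ Z
    · have hb : ∀ j, b j ∈ Z ∪ ran b := fun j => Finset.mem_union_right _ (apply_mem_ran b j)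
      have hnot : ∀ k, f k ∉ ran b := by
        intro k hk
        obtain ⟨j, hj⟩ := mem_ran.1 hk
        exact h.ne k j hj.symm
      have h3 := card_imE_filter h hb (by
        obtain ⟨k, hk⟩ := h1
        exact ⟨k, Finset.mem_union_left _ hk⟩) (by
        obtain ⟨k, hk⟩ := h2
        refine ⟨k, fun hk2 => ?_⟩
        rcases Finset.mem_union.1 hk2 with h4 | h4
        · exact hk h4
        · exact hnot k h4)
      have h4 : (Z ∪ ran b) ∩ ran f = Z ∩ ran f := by
        ext v
        simp only [Finset.mem_inter, Finset.mem_union]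
        constructor
        · rintro ⟨h5 | h5, h6⟩
          · exact ⟨h5, h6⟩
          · obtain ⟨k, rfl⟩ := mem_ran.1 h6
            exact absurd h5 (hnot k)
        · rintro ⟨h5, h6⟩
          exact ⟨Or.inl h5, h6⟩
      rw [h4] at h3
      refine le_trans (Finset.card_le_card ?_) h3.le
      intro e he
      rw [Finset.mem_filter] at he ⊢
      exact ⟨he.1, he.2.trans Finset.subset_union_left⟩
    · push Not at h2
      have h3 : Z ∩ ran f = ran f := by
        apply Finset.inter_eq_right.2
        intro v hv
        obtain ⟨k, rfl⟩ := mem_ran.1 hv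
        exact h2 k
      rw [h3, card_ran h.inj_f, ← card_imE h.1]
      exact Finset.card_filter_le _ _
  · push Not at h1
    have h3 : (imE α b f).filter (fun e => e ⊆ Z) = ∅ := by
      rw [Finset.filter_eq_empty_iff]
      intro e he heZ
      obtain ⟨e', he', rfl⟩ := mem_imE.1 he
      exact not_image_subset (Y := (Z : Set V)) h1 he' (Finset.coe_subset.2 heZ)
    rw [h3]
    simp

/-- a free extension by a code is a strong extension -/
theorem strong_of_exact {H : Set (Finset V)} {S : Set V} {α : Code} {b : Fin α.m → V}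
    {f : Fin α.n → V} (hf : ∀ k, f k ∉ S) (h : Cop H α b f)
    (hex : Exact H S α b f) : Strong H S (S ∪ Set.range f) := by
  refine ⟨Set.subset_union_left, fun Z hZ => ?_⟩
  have h1 := dl_eq_of_edges (H := H) (X := Z.filter (fun v => v ∈ S)) (Z := Z)
    (Finset.filter_subset _ _) ((imE α b f).filter (fun e => e ⊆ Z)) (by
      intro e
      rw [Finset.mem_filter, mem_imE]
      constructor
      · rintro ⟨⟨e', he', rfl⟩, h2⟩
        refine ⟨h.2 _ he', h2, fun h3 => ?_⟩
        apply not_image_subset hf he'
        intro v hv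
        exact (Finset.mem_filter.1 (h3 (Finset.mem_coe.1 hv))).2
      · rintro ⟨h2, h3, h4⟩
        rcases hex e h2 ((Finset.coe_subset.2 h3).trans hZ) with h5 | h5
        · exact absurd (fun v hv => Finset.mem_filter.2 ⟨h3 hv, h5 (Finset.mem_coe.2 hv)⟩) h4
        · exact ⟨h5, h3⟩)
  have h2 := card_imE_subset_le h Z
  have h3 : Z \ Z.filter (fun v => v ∈ S) = Z ∩ ran f := by
    ext v
    simp only [Finset.mem_sdiff, Finset.mem_filter, Finset.mem_inter, not_and, mem_ran]
    constructor
    · rintro ⟨h4, h5⟩
      rcases hZ (Finset.mem_coe.2 h4) with h6 | ⟨k, h6⟩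
      · exact absurd h6 (h5 h4)
      · exact ⟨h4, k, h6⟩
    · rintro ⟨h4, k, rfl⟩
      exact ⟨h4, fun _ => hf k⟩
  rw [h3] at h1
  have h4 : (((imE α b f).filter (fun e => e ⊆ Z)).card : ℤ) ≤ ((Z ∩ ran f).card : ℤ) := by
    exact_mod_cast h2
  linarith

end H912SM
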