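import Pool.Agent.H912R2.SM.Stm
import Pool.Agent.H912R2.SM.Basic2

/-!
# Back and forth (task T7, helper605)
-/

set_option autoImplicit false

open scoped Classical
open FirstOrder FirstOrder.Language

namespace H912SM

/-- for distinct points `tri` says that the triple is an edge -/
theorem tri_iff_mem_Hs {M : Type} [LT.Structure M]
    (hsym : ∀ a b c : M, tri a b c → tri b a c ∧ tri a c b) {a b c : M}
    (hab : a ≠ b) (hac : a ≠ c) (hbc : b ≠ c) :
    tri a b c ↔ ({a, b, c} : Finset M) ∈ Hs M := by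
  constructor
  · intro h
    exact Or.inl ⟨a, b, c, hab, hac, hbc, rfl, h⟩
  · rintro (⟨a', b', c', h1, h2, h3, h4, h5⟩ | ⟨a', b', h1, h2, h3⟩)
    · have ha : a ∈ ({a', b', c'} : Finset M) := by rw [← h4]; simp
      have hb : b ∈ ({a', b', c'} : Finset M) := by rw [← h4]; simp
      have hc : c ∈ ({a', b', c'} : Finset M) := by rw [← h4]; simp
      simp only [Finset.mem_insert, Finset.mem_singleton] at ha hb hc
      have s1 := hsym _ _ _ h5
      have s2 := hsym _ _ _ s1.1
      have s3 := hsym _ _ _ s1.2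
      have s4 := hsym _ _ _ s2.2
      rcases ha with rfl | rfl | rfl <;> rcases hb with rfl | rfl | rfl <;>
        rcases hc with rfl | rfl | rfl <;>
        first
        | exact absurd rfl hab
        | exact absurd rfl hac
        | exact absurd rfl hbc
        | exact h5
        | exact s1.1
        | exact s1.2
        | exact s2.2
        | exact s3.1
        | exact s4.1
    · have hc1 : ({a, b, c} : Finset M).card = 3 := by
        rw [Finset.card_insert_of_notMem (by simp [hab, hac]),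
          Finset.card_insert_of_notMem (by simp [hbc]), Finset.card_singleton]
      have hc2 : ({a', b'} : Finset M).card = 2 := Finset.card_pair h1
      rw [h2, hc2] at hc1
      omega

/-- partial isomorphisms preserve `tri` -/
theorem tri_iff_of_map {M N : Type} [LT.Structure M] [LT.Structure N] (hM : Good M) (hN : Good N)
    {Y : Finset M} {g : M → N} (hg : Set.InjOn g Y)
    (he : ∀ e, e ⊆ Y → (e ∈ Hs M ↔ e.image g ∈ Hs N)) {a b c : M}
    (ha : a ∈ Y) (hb : b ∈ Y) (hc : c ∈ Y) : tri a b c ↔ tri (g a) (g b) (g c) := by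
  by_cases hd : a ≠ b ∧ a ≠ c ∧ b ≠ c
  · obtain ⟨hab, hac, hbc⟩ := hd
    rw [tri_iff_mem_Hs hM.sym hab hac hbc, tri_iff_mem_Hs hN.sym (fun h => hab (hg ha hb h))
      (fun h => hac (hg ha hc h)) (fun h => hbc (hg hb hc h)), he]
    · simp [Finset.image_insert]
    · intro v hv
      simp only [Finset.mem_insert, Finset.mem_singleton] at hv
      rcases hv with rfl | rfl | rfl <;> assumption
  · constructor
    · intro h
      exact absurd (hM.dist _ _ _ h) hd
    · intro h
      obtain ⟨h1, h2, h3⟩ := hN.dist _ _ _ h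
      exact absurd ⟨fun h => h1 (by rw [h]), fun h => h2 (by rw [h]), fun h => h3 (by rw [h])⟩ hd

/-- a partial isomorphism between strong finite sets -/
def SI (M N : Type) [LT.Structure M] [LT.Structure N] (Y : Finset M) (g : M → N) : Prop :=
  PIso (Hs M) (Hs N) Y g ∧ Strong (Hs M) (Y : Set M) Set.univ

theorem SI.inv {M N : Type} [LT.Structure M] [LT.Structure N] [Nonempty M] {Y : Finset M}
    {g : M → N} (h : SI M N Y g) :
    ∃ g' : N → M, SI N M (Y.image g) g' ∧ ∀ y ∈ Y, g' (g y) = y := by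
  obtain ⟨⟨h1, h2, h3⟩, h4⟩ := h
  set g' : N → M := Function.invFunOn g Y with hg'
  have hinv : ∀ y ∈ Y, g' (g y) = y := by
    intro y hy
    have h5 : g y ∈ g '' (Y : Set M) := ⟨y, hy, rfl⟩
    have h6 : g' (g y) ∈ (Y : Set M) := Function.invFunOn_mem h5
    have h7 : g (g' (g y)) = g y := Function.invFunOn_eq h5
    exact h1 h6 hy h7
  have himg : ∀ e : Finset M, e ⊆ Y → (e.image g).image g' = e := by
    intro e he
    ext v
    simp only [Finset.mem_image]
    constructor
    · rintro ⟨w, ⟨z, hz, rfl⟩, rfl⟩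
      rw [hinv z (he hz)]
      exact hz
    · intro hv
      exact ⟨g v, ⟨v, hv, rfl⟩, hinv v (he hv)⟩
  refine ⟨g', ⟨⟨?_, ?_, ?_⟩, h3⟩, hinv⟩
  · intro a ha b hb hab
    obtain ⟨a', ha', rfl⟩ := Finset.mem_image.1 (Finset.mem_coe.1 ha)
    obtain ⟨b', hb', rfl⟩ := Finset.mem_image.1 (Finset.mem_coe.1 hb)
    rw [hinv a' ha', hinv b' hb'] at hab
    rw [hab]
  · intro e he
    obtain ⟨e', h5, rfl⟩ := Finset.subset_image_iff.1 he
    have h6 : e' ⊆ Y := Finset.coe_subset.1 h5
    rw [himg e' h6, h2 e' h6]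
  · rw [himg Y subset_rfl]
    exact h4

theorem SI.forth (h : St_Ext) {M N : Type} [LT.Structure M] [LT.Structure N] (hM : Good M)
    (hN : Good N) (hfree : ∀ X : Finset N, Strong (Hs N) X Set.univ → ∃ c, FreePt (Hs N) X c)
    {Y : Finset M} {g : M → N} (hY : SI M N Y g) (a : M) :
    ∃ (Y' : Finset M) (g' : M → N), Y ⊆ Y' ∧ a ∈ Y' ∧ SI M N Y' g' ∧ ∀ y ∈ Y, g' y = g y := by
  obtain ⟨Y', h1, -, h3⟩ := exists_closure (H := Hs M) (A := Set.univ) (Strong.refl' _ _)
    (fun X hX => hM.inC.k5 X hX) (insert a Y) (Set.subset_univ _)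
  have hYY' : Y ⊆ Y' := (Finset.subset_insert a Y).trans h1
  obtain ⟨g', h4, h5, -⟩ := h M N (Hs M) (Hs N) Set.univ (fun _ => True) hN.inC hN.lr
    (fun X _ hX => by
      obtain ⟨c, hc⟩ := hfree X hX
      exact ⟨c, trivial, hc⟩)
    (fun _ _ _ _ _ _ _ => trivial) Y Y' g hYY' hY.1 (fun _ _ => trivial)
    (hY.2.mono (Finset.coe_subset.2 hYY') (Set.subset_univ _))
    (hM.inC.mono_set (Set.subset_univ _)) (fun _ _ _ _ => trivial)
  exact ⟨Y', g', hYY', h1 (Finset.mem_insert_self _ _), ⟨h5, h3⟩, h4⟩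

/-- connected tuples -/
def Conn {M N : Type} [LT.Structure M] [LT.Structure N] {ι : Type} (u : ι → M) (w : ι → N) :
    Prop :=
  ∃ (Y : Finset M) (g : M → N), SI M N Y g ∧ ∀ i, u i ∈ Y ∧ w i = g (u i)

theorem Conn.symm {M N : Type} [LT.Structure M] [LT.Structure N] [Nonempty M] {ι : Type}
    {u : ι → M} {w : ι → N} (h : Conn u w) : Conn w u := by
  obtain ⟨Y, g, h1, h2⟩ := h
  obtain ⟨g', h3, h4⟩ := h1.inv
  refine ⟨Y.image g, g', h3, fun i => ⟨?_, ?_⟩⟩
  · rw [(h2 i).2]
    exact Finset.mem_image_of_mem g (h2 i).1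
  · rw [(h2 i).2, h4 _ (h2 i).1]

theorem Conn.forth (h : St_Ext) {M N : Type} [LT.Structure M] [LT.Structure N] (hM : Good M)
    (hN : Good N) (hfree : ∀ X : Finset N, Strong (Hs N) X Set.univ → ∃ c, FreePt (Hs N) X c)
    {α : Type} {n : ℕ} {v : α → M} {v' : α → N} {xs : Fin n → M} {xs' : Fin n → N}
    (hc : Conn (Sum.elim v xs) (Sum.elim v' xs')) (a : M) :
    ∃ b : N, Conn (Sum.elim v (Fin.snoc xs a : Fin (n + 1) → M))
      (Sum.elim v' (Fin.snoc xs' b : Fin (n + 1) → N)) := by
  obtain ⟨Y, g, h1, h2⟩ := hc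
  obtain ⟨Y', g', h3, h4, h5, h6⟩ := h1.forth h hM hN hfree a
  refine ⟨g' a, Y', g', h5, ?_⟩
  rintro (i | i)
  · have := h2 (Sum.inl i)
    simp only [Sum.elim_inl] at this ⊢
    exact ⟨h3 this.1, by rw [h6 _ this.1]; exact this.2⟩
  · simp only [Sum.elim_inr]
    refine Fin.lastCases ?_ ?_ i
    · rw [Fin.snoc_last, Fin.snoc_last]
      exact ⟨h4, rfl⟩
    · intro j
      rw [Fin.snoc_castSucc, Fin.snoc_castSucc]
      have := h2 (Sum.inr j)
      simp only [Sum.elim_inr] at this
      exact ⟨h3 this.1, by rw [h6 _ this.1]; exact this.2⟩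

/-- terms of the language are variables -/
theorem term_var {α : Type} (t : LT.Term α) : ∃ i, t = Term.var i := by
  cases t with
  | var i => exact ⟨i, rfl⟩
  | func f ts => exact f.elim

theorem conn_realize (h : St_Ext) {M N : Type} [LT.Structure M] [LT.Structure N] (hM : Good M)
    (hN : Good N)
    (hfM : ∀ X : Finset M, Strong (Hs M) X Set.univ → ∃ c, FreePt (Hs M) X c)
    (hfN : ∀ X : Finset N, Strong (Hs N) X Set.univ → ∃ c, FreePt (Hs N) X c)
    {α : Type} {n : ℕ} (φ : LT.BoundedFormula α n) :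
    ∀ (v : α → M) (v' : α → N) (xs : Fin n → M) (xs' : Fin n → N),
      Conn (Sum.elim v xs) (Sum.elim v' xs') → (φ.Realize v xs ↔ φ.Realize v' xs') := by
  have := hM.ne
  have := hN.ne
  induction φ with
  | falsum => 
    intro v v' xs xs' _
    exact Iff.rfl
  | equal t1 t2 =>
    intro v v' xs xs' hc
    obtain ⟨Y, g, ⟨h1, -⟩, h2⟩ := hc
    obtain ⟨i, rfl⟩ := term_var t1
    obtain ⟨j, rfl⟩ := term_var t2
    simp only [BoundedFormula.Realize, Term.realize_var]
    rw [(h2 i).2, (h2 j).2]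
    exact ⟨fun h3 => by rw [h3], fun h3 => h1.1 (h2 i).1 (h2 j).1 h3⟩
  | @rel m l R ts =>
    intro v v' xs xs' hc
    obtain ⟨Y, g, ⟨h1, -⟩, h2⟩ := hc
    change Rel l at R
    cases R
    obtain ⟨i0, hi0⟩ := term_var (ts 0)
    obtain ⟨i1, hi1⟩ := term_var (ts 1)
    obtain ⟨i2, hi2⟩ := term_var (ts 2)
    have e1 : ∀ {K : Type} [LT.Structure K] (w : α ⊕ Fin m → K),
        (fun i => (ts i).realize w) = ![w i0, w i1, w i2] := by
      intro K _ w
      funext i
      fin_cases i
      · change (ts 0).realize w = w i0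
        rw [hi0, Term.realize_var]
      · change (ts 1).realize w = w i1
        rw [hi1, Term.realize_var]
      · change (ts 2).realize w = w i2
        rw [hi2, Term.realize_var]
    have key := tri_iff_of_map hM hN h1.1 h1.2.1 (h2 i0).1 (h2 i1).1 (h2 i2).1
    rw [← (h2 i0).2, ← (h2 i1).2, ← (h2 i2).2] at key
    simp only [BoundedFormula.Realize]
    rw [e1, e1]
    exact key
  | imp f1 f2 ih1 ih2 =>
    intro v v' xs xs' hc
    simp only [BoundedFormula.realize_imp]
    rw [ih1 v v' xs xs' hc, ih2 v v' xs xs' hc]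
  | all f ih =>
    intro v v' xs xs' hc
    simp only [BoundedFormula.realize_all]
    constructor
    · intro h3 b
      obtain ⟨a, ha⟩ := hc.symm.forth h hN hM hfM b
      exact (ih v v' _ _ ha.symm).1 (h3 a)
    · intro h3 a
      obtain ⟨b, hb⟩ := hc.forth h hM hN hfN a
      exact (ih v v' _ _ hb).2 (h3 b)

theorem st_Bnf (h : St_Ext) : St_Bnf := by
  intro M N _ _ hM hN hfM hfN p x y hx hy hsx hsy he φ
  have := hM.ne
  have := hN.ne
  refine conn_realize h hM hN hfM hfN φ x y default default ?_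
  set g : M → N := Function.extend x y (fun _ => Classical.arbitrary N) with hg
  have hgx : ∀ i, g (x i) = y i := fun i => hx.extend_apply y _ i
  refine ⟨ran x, g, ⟨⟨?_, ?_, ?_⟩, hsx⟩, ?_⟩
  · intro a ha b hb hab
    obtain ⟨i, rfl⟩ := mem_ran.1 (Finset.mem_coe.1 ha)
    obtain ⟨j, rfl⟩ := mem_ran.1 (Finset.mem_coe.1 hb)
    rw [hgx, hgx] at hab
    rw [hy hab]
  · intro e hex
    obtain ⟨e', -, rfl⟩ := Finset.subset_image_iff.1 hex
    rw [he e', Finset.image_image]
    have : e'.image (g ∘ x) = e'.image y := by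
      refine Finset.image_congr fun i _ => ?_
      exact hgx i
    rw [this]
  · have : (ran x).image g = ran y := by
      unfold ran
      rw [Finset.image_image]
      refine Finset.image_congr fun i _ => ?_
      exact hgx i
    rw [this]
    exact hsy
  · rintro (i | i)
    · exact ⟨apply_mem_ran x i, (hgx i).symm⟩
    · exact i.elim0

end H912SM
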