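import Pool.Agent.H912R2.SM.Basic2
import Pool.Agent.H912R2.SM.Stm

/-!
# Task T1: codes inside extensions of nonpositive predimension, decomposition (helper96)
-/

set_option autoImplicit false

open scoped Classical

namespace H912SM

/-- new edges of `X ∪ Z'` over `X` -/
noncomputable def T1_newE {V : Type} (H : Set (Finset V)) (X Z' : Finset V) : Finset (Finset V) :=
  (edg H (X ∪ Z')).filter (fun e => ¬ e ⊆ X)

theorem T1_mem_newE {V : Type} {H : Set (Finset V)} {X Z' e : Finset V} :
    e ∈ T1_newE H X Z' ↔ e ∈ H ∧ e ⊆ X ∪ Z' ∧ ¬ e ⊆ X := by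
  rw [T1_newE, Finset.mem_filter, mem_edg]
  tauto

theorem T1_dl {V : Type} (H : Set (Finset V)) {X Z' : Finset V} (h : Disjoint X Z') :
    dl H (X ∪ Z') = dl H X + (Z'.card : ℤ) - ((T1_newE H X Z').card : ℤ) := by
  rw [dl_eq_of_edges (H := H) (X := X) (Z := X ∪ Z') Finset.subset_union_left (T1_newE H X Z')
    (fun e => T1_mem_newE)]
  have : (X ∪ Z') \ X = Z' := by
    rw [Finset.union_sdiff_left]
    exact Finset.sdiff_eq_self_of_disjoint h.symm
  rw [this]

/-- enumeration of a finite set -/
theorem T1_enum {V : Type} (Z : Finset V) : ∃ (n : ℕ) (f : Fin n → V), Z.card = n ∧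
    Function.Injective f ∧ (∀ k, f k ∈ Z) ∧ ∀ v ∈ Z, ∃ k, f k = v := by
  refine ⟨Z.card, fun k => (Z.equivFin.symm k : V), rfl, ?_, ?_, ?_⟩
  · intro a b hab
    exact Z.equivFin.symm.injective (Subtype.ext hab)
  · intro k
    exact (Z.equivFin.symm k).2
  · intro v hv
    exact ⟨Z.equivFin ⟨v, hv⟩, by simp⟩

theorem st_Code : St_Code := by
  intro V H X Z hdis hZ hdl hsz
  -- minimal subset
  obtain ⟨Z1, hZ1, hmin1⟩ := Finset.exists_min_image
    (Z.powerset.filter (fun Z' => Z'.Nonempty ∧ dl H (X ∪ Z') ≤ dl H X)) Finset.card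
    ⟨Z, Finset.mem_filter.2 ⟨Finset.mem_powerset.2 subset_rfl, hZ, hdl⟩⟩
  rw [Finset.mem_filter, Finset.mem_powerset] at hZ1
  obtain ⟨hZ1Z, hZ1ne, hZ1dl⟩ := hZ1
  have hdis1 : Disjoint X Z1 := Finset.disjoint_of_subset_right hZ1Z hdis
  have hcard1 : Z1.card ≤ (T1_newE H X Z1).card := by
    have h := T1_dl H hdis1
    zify
    linarith
  have hprop : ∀ Z' : Finset V, Z' ⊆ Z1 → Z'.Nonempty → Z' ≠ Z1 →
      (T1_newE H X Z').card < Z'.card := by
    intro Z' h1 h2 h3
    by_contra hcon
    push Not at hcon
    have h := T1_dl H (Finset.disjoint_of_subset_right h1 hdis1)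
    have h4 : dl H (X ∪ Z') ≤ dl H X := by
      zify at hcon
      linarith
    have h5 := hmin1 Z' (Finset.mem_filter.2 ⟨Finset.mem_powerset.2 (h1.trans hZ1Z), h2, h4⟩)
    exact h3 (Finset.eq_of_subset_of_card_le h1 h5)
  obtain ⟨E', hE', hE'card⟩ := Finset.exists_subset_card_eq hcard1
  have hE'H : ∀ e ∈ E', e ∈ H ∧ e ⊆ X ∪ Z1 ∧ ¬ e ⊆ X := fun e he => T1_mem_newE.1 (hE' he)
  obtain ⟨n, f, hn, hfinj, hfmem, hfsurj⟩ := T1_enum Z1
  obtain ⟨m, b, hm, hbinj, hbmem, hbsurj⟩ := T1_enum (X.filter (fun v => ∃ e ∈ E', v ∈ e))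
  have hbX : ∀ j, b j ∈ X := fun j => (Finset.mem_filter.1 (hbmem j)).1
  have hinj : Function.Injective (Sum.elim f b) := by
    intro x y hxy
    rcases x with x | x <;> rcases y with y | y
    · rw [hfinj hxy]
    · exfalso
      have h1 : f x = b y := hxy
      exact Finset.disjoint_left.1 hdis1 (hbX y) (h1 ▸ hfmem x)
    · exfalso
      have h1 : b x = f y := hxy
      exact Finset.disjoint_left.1 hdis1 (hbX x) (h1 ▸ hfmem y)
    · rw [hbinj hxy]
  -- preimages of the edges
  set pre : Finset V → Finset (Fin n ⊕ Fin m) :=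
    fun e => Finset.univ.filter (fun s => Sum.elim f b s ∈ e) with hpre
  have hmempre : ∀ e s, s ∈ pre e ↔ Sum.elim f b s ∈ e := by
    intro e s
    simp [hpre]
  have himg : ∀ e ∈ E', (pre e).image (Sum.elim f b) = e := by
    intro e he
    ext v
    rw [Finset.mem_image]
    constructor
    · rintro ⟨s, hs, rfl⟩
      exact (hmempre e s).1 hs
    · intro hv
      rcases Finset.mem_union.1 ((hE'H e he).2.1 hv) with h | h
      · obtain ⟨j, hj⟩ := hbsurj v (Finset.mem_filter.2 ⟨h, e, he, hv⟩)
        refine ⟨Sum.inr j, (hmempre e _).2 ?_, hj⟩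
        change b j ∈ e
        rw [hj]
        exact hv
      · obtain ⟨k, hk⟩ := hfsurj v h
        refine ⟨Sum.inl k, (hmempre e _).2 ?_, hk⟩
        change f k ∈ e
        rw [hk]
        exact hv
  have hpreinj : Set.InjOn pre (E' : Set (Finset V)) := by
    intro e1 h1 e2 h2 h12
    rw [← himg e1 h1, ← himg e2 h2, h12]
  let α : Code :=
    { n := n
      m := m
      E := E'.image pre
      npos := hn ▸ Finset.card_pos.2 hZ1ne
      hcard := by rw [Finset.card_image_of_injOn hpreinj, hE'card, hn]
      hmeet := by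
        intro e he
        obtain ⟨e0, he0, rfl⟩ := Finset.mem_image.1 he
        obtain ⟨v, hv, hvX⟩ := Finset.not_subset.1 (hE'H e0 he0).2.2
        have hv1 : v ∈ Z1 := by
          rcases Finset.mem_union.1 ((hE'H e0 he0).2.1 hv) with h | h
          · exact absurd h hvX
          · exact h
        obtain ⟨k, hk⟩ := hfsurj v hv1
        refine ⟨k, (hmempre e0 _).2 ?_⟩
        change f k ∈ e0
        rw [hk]
        exact hv
      hsize := by
        intro e he
        obtain ⟨e0, he0, rfl⟩ := Finset.mem_image.1 he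
        have h1 := hsz e0 (hE'H e0 he0).1 ((hE'H e0 he0).2.1.trans
          (Finset.union_subset_union_right hZ1Z))
        rw [← himg e0 he0, Finset.card_image_of_injective _ hinj] at h1
        exact h1
      hbase := by
        intro j
        obtain ⟨e0, he0, hj⟩ := (Finset.mem_filter.1 (hbmem j)).2
        exact ⟨pre e0, Finset.mem_image_of_mem _ he0, (hmempre e0 _).2 hj⟩
      hmin := by
        intro A hA hAne
        have hZ'1 : A.image f ⊆ Z1 := by
          intro v hv
          obtain ⟨k, _, rfl⟩ := Finset.mem_image.1 hv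
          exact hfmem k
        have hZ'2 : (A.image f).Nonempty := hA.image f
        have hZ'3 : A.image f ≠ Z1 := by
          intro h
          apply hAne
          have h1 : (A.image f).card = A.card := Finset.card_image_of_injective _ hfinj
          rw [h] at h1
          apply Finset.eq_univ_of_card
          rw [← h1, Fintype.card_fin, hn]
        have h1 := hprop _ hZ'1 hZ'2 hZ'3
        rw [Finset.card_image_of_injective _ hfinj] at h1
        refine lt_of_le_of_lt ?_ h1
        have h2 : (E'.image pre).filter (fun e => ∀ k, Sum.inl k ∈ e → k ∈ A) ⊆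
            (T1_newE H X (A.image f)).image pre := by
          intro e he
          rw [Finset.mem_filter] at he
          obtain ⟨he1, he2⟩ := he
          obtain ⟨e0, he0, rfl⟩ := Finset.mem_image.1 he1
          apply Finset.mem_image_of_mem
          rw [T1_mem_newE]
          refine ⟨(hE'H e0 he0).1, ?_, (hE'H e0 he0).2.2⟩
          intro v hv
          rcases Finset.mem_union.1 ((hE'H e0 he0).2.1 hv) with h | h
          · exact Finset.mem_union_left _ h
          · obtain ⟨k, rfl⟩ := hfsurj v h
            exact Finset.mem_union_right _ (Finset.mem_image_of_mem f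
              (he2 k ((hmempre e0 _).2 hv)))
        exact (Finset.card_le_card h2).trans Finset.card_image_le }
  have hran : ran f = Z1 := by
    ext v
    rw [mem_ran]
    constructor
    · rintro ⟨k, rfl⟩
      exact hfmem k
    · intro hv
      exact hfsurj v hv
  refine ⟨α, b, f, hbX, fun k => hZ1Z (hfmem k), ⟨hinj, ?_⟩, ?_, ?_⟩
  · intro e he
    obtain ⟨e0, he0, rfl⟩ := Finset.mem_image.1 he
    have := himg e0 he0
    rw [this]
    exact (hE'H e0 he0).1
  · change dl H (X ∪ ran f) ≤ dl H X
    rw [hran]
    exact hZ1dl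
  · intro heq
    change dl H (X ∪ ran f) = dl H X at heq
    rw [hran] at heq
    have h1 := T1_dl H hdis1
    have h2 : (T1_newE H X Z1).card = Z1.card := by
      zify
      linarith
    have h3 : E' = T1_newE H X Z1 :=
      Finset.eq_of_subset_of_card_le hE' (by rw [h2, hE'card])
    intro e he heM
    by_cases heX : e ⊆ X
    · left
      exact Finset.coe_subset.2 heX
    · right
      have he0 : e ∈ E' := by
        rw [h3, T1_mem_newE]
        refine ⟨he, ?_, heX⟩
        intro v hv
        rcases heM (Finset.mem_coe.2 hv) with h | ⟨k, hk⟩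
        · exact Finset.mem_union_left _ h
        · rw [← hk]
          exact Finset.mem_union_right _ (hfmem k)
      exact ⟨pre e, Finset.mem_image_of_mem _ he0, (himg e he0).symm⟩

theorem st_Decomp (h : St_Code) : St_Decomp := by
  intro V H X Y hXY hne hS hsz
  by_cases hcase : ∃ Z : Finset V, Z.Nonempty ∧ Z ⊆ Y \ X ∧ dl H (X ∪ Z) ≤ dl H X
  · right
    obtain ⟨Z, hZne, hZ, hdl⟩ := hcase
    have hdis : Disjoint X Z := by
      rw [Finset.disjoint_left]
      intro v hv hv2
      exact (Finset.mem_sdiff.1 (hZ hv2)).2 hv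
    have hZY : Z ⊆ Y := hZ.trans Finset.sdiff_subset
    obtain ⟨α, b, f, hb, hf, hc, hle, hex⟩ := h V H X Z hdis hZne hdl
      (fun e he heX => hsz e he (heX.trans (Finset.union_subset hXY hZY)))
    have hranY : X ∪ ran f ⊆ Y := by
      apply Finset.union_subset hXY
      intro v hv
      obtain ⟨k, rfl⟩ := mem_ran.1 hv
      exact hZY (hf k)
    have h1 : dl H X ≤ dl H (X ∪ ran f) :=
      hS.le_of_subset Finset.subset_union_left (Finset.coe_subset.2 hranY)
    have hst := strong_union_copy hS hc (fun j => Finset.mem_coe.2 (hb j))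
      (fun k => Finset.mem_coe.2 (hZY (hf k)))
    refine ⟨α, b, f, hb, fun k => hZY (hf k), fun k hk => ?_, hc, hex (le_antisymm hle h1), ?_⟩
    · exact Finset.disjoint_left.1 hdis hk (hf k)
    · rw [Finset.coe_union, coe_ran]
      exact hst
  · left
    push Not at hcase
    obtain ⟨c, hcY, hcX⟩ : ∃ c ∈ Y, c ∉ X := by
      by_contra hcon
      push Not at hcon
      exact hne (Finset.Subset.antisymm hXY hcon)
    have hstrict : ∀ Z : Finset V, Z.Nonempty → Z ⊆ Y \ X → dl H X + 1 ≤ dl H (X ∪ Z) := by
      intro Z h1 h2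
      have := hcase Z h1 h2
      linarith
    have hins : (insert c X : Finset V) ⊆ Y := by
      intro v hv
      rcases Finset.mem_insert.1 hv with rfl | hv
      · exact hcY
      · exact hXY hv
    refine ⟨c, hcY, hcX, ?_, ?_⟩
    · apply strong_of_le_union (Finset.coe_subset.2 hins)
      intro Z hZ
      have h1 := dl_insert_le H c X
      have h2 : insert c X ∪ Z = X ∪ ((insert c X ∪ Z) \ X) := by
        rw [Finset.union_sdiff_of_subset]
        exact (Finset.subset_insert _ _).trans Finset.subset_union_left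
      have h3 := hstrict ((insert c X ∪ Z) \ X)
        ⟨c, Finset.mem_sdiff.2 ⟨Finset.mem_union_left _ (Finset.mem_insert_self _ _), hcX⟩⟩
        (Finset.sdiff_subset_sdiff (Finset.union_subset hins (Finset.coe_subset.1 hZ)) subset_rfl)
      rw [← h2] at h3
      linarith
    · intro e he heX
      by_contra hcon
      have h1 := dl_le_of_edges (H := H) (X := X) (Z := insert c X) (Finset.subset_insert _ _)
        {e} (by
          intro e' he'
          rw [Finset.mem_singleton] at he'
          subst he'
          exact ⟨he, heX, hcon⟩)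
      have h2 := hstrict {c} (Finset.singleton_nonempty c)
        (by rw [Finset.singleton_subset_iff, Finset.mem_sdiff]; exact ⟨hcY, hcX⟩)
      have h3 : X ∪ {c} = insert c X := by
        rw [Finset.union_comm, Finset.insert_eq]
      rw [h3] at h2
      have h4 : ((insert c X) \ X).card ≤ 1 := by
        have : (insert c X) \ X ⊆ {c} := by
          intro v hv
          rw [Finset.mem_sdiff, Finset.mem_insert] at hv
          rw [Finset.mem_singleton]
          rcases hv with ⟨h5 | h5, h6⟩
          · exact h5
          · exact absurd h5 h6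
        exact (Finset.card_le_card this).trans (by simp)
      rw [Finset.card_singleton] at h1
      zify at h4
      push_cast at h1
      linarith

end H912SM
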