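import Mathlib

/-!
# Mixed hypergraphs, predimension, codes  (core definitions for MP_1b3a35_lc)

All structures are mixed hypergraphs `H : Set (Finset V)` (hyperedges of size 2 and 3).
-/

set_option autoImplicit false

open scoped Classical

namespace H912SM

/-- hyperedges of `H` inside the finite set `X` -/
noncomputable def edg {V : Type} (H : Set (Finset V)) (X : Finset V) : Finset (Finset V) :=
  X.powerset.filter (fun e => e ∈ H)

/-- the predimension: number of points minus number of hyperedges -/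
noncomputable def dl {V : Type} (H : Set (Finset V)) (X : Finset V) : ℤ :=
  (X.card : ℤ) - ((edg H X).card : ℤ)

/-- the image of a function from `Fin n` as a finite set -/
noncomputable def ran {V : Type} {n : ℕ} (f : Fin n → V) : Finset V := Finset.univ.image f

/-- A code: a minimal extension of predimension 0 by `n` new points over `m` base points,
`E` = the set of its hyperedges (each contains a new point). -/
structure Code where
  n : ℕ
  m : ℕ
  E : Finset (Finset (Fin n ⊕ Fin m))
  npos : 0 < n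
  hcard : E.card = n
  hmeet : ∀ e ∈ E, ∃ k, Sum.inl k ∈ e
  hsize : ∀ e ∈ E, e.card = 2 ∨ e.card = 3
  hbase : ∀ j : Fin m, ∃ e ∈ E, Sum.inr j ∈ e
  hmin : ∀ A : Finset (Fin n), A.Nonempty → A ≠ Finset.univ →
    (E.filter (fun e => ∀ k, Sum.inl k ∈ e → k ∈ A)).card < A.card

/-- the multiplicity bound of a code -/
def Code.mu (α : Code) : ℕ := if α.n = 1 then 1 else α.m

/-- `f` is a (weak) copy of the code `α` over the base map `b` -/
def Cop {V : Type} (H : Set (Finset V)) (α : Code) (b : Fin α.m → V) (f : Fin α.n → V) : Prop :=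
  Function.Injective (Sum.elim f b) ∧ ∀ e ∈ α.E, e.image (Sum.elim f b) ∈ H

/-- too many disjoint copies of `α` over one base, all inside `S` -/
def Viol {V : Type} (H : Set (Finset V)) (S : Set V) (α : Code) : Prop :=
  ∃ (b : Fin α.m → V) (F : Fin (α.mu + 1) → Fin α.n → V),
    (∀ j, b j ∈ S) ∧ (∀ i k, F i k ∈ S) ∧ (∀ i, Cop H α b (F i)) ∧
    (∀ i j, i ≠ j → ∀ k l, F i k ≠ F j l)

/-- the class of structures -/
structure InC {V : Type} (H : Set (Finset V)) (S : Set V) : Prop where
  k1 : ∀ e ∈ H, (e : Set V) ⊆ S → e.card = 2 ∨ e.card = 3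
  k4 : ∀ e ∈ H, ∀ f ∈ H, (f : Set V) ⊆ S → e ⊆ f → e = f
  k5 : ∀ X : Finset V, (X : Set V) ⊆ S → 0 ≤ dl H X
  k6 : ∀ α : Code, ¬ Viol H S α

/-- `M` is strong (self-sufficient) in `N` -/
def Strong {V : Type} (H : Set (Finset V)) (M N : Set V) : Prop :=
  M ⊆ N ∧ ∀ Z : Finset V, (Z : Set V) ⊆ N → dl H (Z.filter (fun v => v ∈ M)) ≤ dl H Z

/-- the hyperedges inside `M ∪ ran f` are those inside `M` and the images of the edges of `α` -/
def Exact {V : Type} (H : Set (Finset V)) (M : Set V) (α : Code) (b : Fin α.m → V)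
    (f : Fin α.n → V) : Prop :=
  ∀ e ∈ H, (e : Set V) ⊆ M ∪ Set.range f → (e : Set V) ⊆ M ∨
    ∃ e' ∈ α.E, e = e'.image (Sum.elim f b)

/-- the extension of a hypergraph `G` on `Fin p` by the code `α` over the base `c` -/
def extG {p : ℕ} (G : Set (Finset (Fin p))) (α : Code) (c : Fin α.m → Fin p) :
    Set (Finset (Fin α.n ⊕ Fin p)) :=
  {e | ∃ e' ∈ G, e = e'.image Sum.inr} ∪
  {e | ∃ e' ∈ α.E, e = e'.image (Sum.elim Sum.inl (fun j => Sum.inr (c j)))}

/-- local richness: for every finite extension problem (a code `α` over a finite structure `G`)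
with result in the class there is `K` such that every `K`-strong copy of `G` extends. -/
def LR {V : Type} (H : Set (Finset V)) : Prop :=
  ∀ (p : ℕ) (G : Set (Finset (Fin p))) (α : Code) (c : Fin α.m → Fin p), Function.Injective c →
    InC (extG G α c) Set.univ →
    ∃ K : ℕ, ∀ x : Fin p → V, Function.Injective x → (∀ e : Finset (Fin p), e ∈ G ↔ e.image x ∈ H) →
      (∀ z : Fin K → V, dl H (ran x) ≤ dl H (ran x ∪ ran z)) →
      ∃ f : Fin α.n → V, Cop H α (x ∘ c) f ∧ ∀ k i, f k ≠ x i

/-- `c` is a free point over `X` -/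
def FreePt {V : Type} (H : Set (Finset V)) (X : Finset V) (c : V) : Prop :=
  c ∉ X ∧ Strong H (insert c X : Finset V) Set.univ ∧ ∀ e ∈ H, e ⊆ insert c X → e ⊆ X

end H912SM
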