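import Pool.Agent.H912R2.SM.FO

/-!
# Elements outside of an elementary submodel are independent (task T9)
-/

set_option autoImplicit false
open scoped Classical
open FirstOrder FirstOrder.Language

namespace H912SM

/-- the property of having a further copy of the code over the base, avoiding the parameters -/
theorem El_FO (α : Code) (q : ℕ) :
    FO (p := α.m + q) (fun M _ v => ∃ f : Fin α.n → M,
      Cop (Hs M) α (fun i => v (Fin.castAdd q i)) f ∧ ∀ k i, f k ≠ v (Fin.natAdd α.m i)) := by
  let σ : Fin α.n ⊕ Fin α.m → Fin ((α.m + q) + α.n) :=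
    Sum.elim (fun k => Fin.natAdd (α.m + q) k) (fun i => Fin.castAdd α.n (Fin.castAdd q i))
  have h1 : FO (p := (α.m + q) + α.n) (fun M _ u =>
      ((∀ s t : Fin α.n ⊕ Fin α.m, u (σ s) = u (σ t) → s = t) ∧
        ∀ e : {e // e ∈ α.E}, ((e : Finset (Fin α.n ⊕ Fin α.m)).image σ).image u ∈ Hs M) ∧
      ∀ (k : Fin α.n) (i : Fin q), ¬ u (Fin.natAdd (α.m + q) k) =
        u (Fin.castAdd α.n (Fin.natAdd α.m i))) := by
    refine FO.and (FO.and ?_ ?_) ?_
    · exact FO.finAll fun s => FO.finAll fun t => FO.imp (FO.eq _ _) (FO.const _)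
    · exact FO.finAll fun e => FO.edge _
    · exact FO.finAll fun k => FO.finAll fun i => FO.not (FO.eq _ _)
  obtain ⟨φ, hφ⟩ := FO.exFin h1
  refine ⟨φ, fun M _ v => (hφ M v).trans ?_⟩
  have hs : ∀ (f : Fin α.n → M) (s : Fin α.n ⊕ Fin α.m),
      (Fin.append v f : Fin ((α.m + q) + α.n) → M) (σ s) =
        Sum.elim f (fun i => v (Fin.castAdd q i)) s := by
    intro f s
    rcases s with k | i
    · simp [σ]
    · simp [σ]
  refine exists_congr fun f => ?_
  have hs' : (fun s => (Fin.append v f : Fin ((α.m + q) + α.n) → M) (σ s)) =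
      Sum.elim f (fun i => v (Fin.castAdd q i)) := funext (hs f)
  unfold Cop
  refine and_congr (and_congr ?_ ?_) ?_
  · constructor
    · intro h s t hst
      exact h s t (by rw [hs, hs]; exact hst)
    · intro h s t hst
      rw [hs, hs] at hst
      exact h hst
  · constructor
    · intro h e he
      have := h ⟨e, he⟩
      rw [Finset.image_image] at this
      rw [← hs']
      exact this
    · intro h e
      have := h e.1 e.2
      rw [← hs'] at this
      rw [Finset.image_image]
      exact this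
  · refine forall_congr' fun k => forall_congr' fun i => ?_
    simp

/-- one more copy inside the elementary submodel, avoiding a finite set -/
theorem El_more {M N : Type} [LT.Structure M] [LT.Structure N] (j : M ↪ₑ[LT] N) (α : Code)
    (b : Fin α.m → M) (f : Fin α.n → N) (hC : Cop (Hs N) α (fun i => j (b i)) f)
    (hf : ∀ k, f k ∉ Set.range j) (W : Finset M) :
    ∃ f' : Fin α.n → M, Cop (Hs M) α b f' ∧ ∀ k, f' k ∉ W := by
  let w : Fin W.card → M := fun i => (W.equivFin.symm i : M)
  have hw : ∀ x ∈ W, ∃ i, w i = x := fun x hx => ⟨W.equivFin ⟨x, hx⟩, by simp [w]⟩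
  have h := (FO.transfer_emb j (El_FO α W.card) (Fin.append b w)).1 ⟨f, by
      have : (fun i => (j ∘ Fin.append b w) (Fin.castAdd W.card i)) = fun i => j (b i) := by
        funext i; simp
      rw [this]; exact hC, by
      intro k i h
      exact hf k ⟨w i, by rw [h]; simp⟩⟩
  obtain ⟨f', h1, h2⟩ := h
  refine ⟨f', ?_, ?_⟩
  · have : (fun i => (Fin.append b w) (Fin.castAdd W.card i)) = b := by
      funext i; simp
    rw [this] at h1; exact h1
  · intro k hk
    obtain ⟨i, hi⟩ := hw _ hk
    exact h2 k i (by simp [hi])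

/-- arbitrarily many disjoint copies -/
theorem El_many {M : Type} [LT.Structure M] (α : Code) (b : Fin α.m → M)
    (h : ∀ W : Finset M, ∃ f' : Fin α.n → M, Cop (Hs M) α b f' ∧ ∀ k, f' k ∉ W) (r : ℕ) :
    ∃ F : Fin r → Fin α.n → M, (∀ i, Cop (Hs M) α b (F i)) ∧
      (∀ i i', i ≠ i' → ∀ k l, F i k ≠ F i' l) := by
  induction r with
  | zero => exact ⟨fun i => i.elim0, fun i => i.elim0, fun i => i.elim0⟩
  | succ r ih =>
    obtain ⟨F, hF, hd⟩ := ih
    obtain ⟨f', h1, h2⟩ := h (Finset.univ.image (fun p : Fin r × Fin α.n => F p.1 p.2))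
    have h3 : ∀ i k l, f' k ≠ F i l := by
      intro i k l hkl
      exact h2 k (Finset.mem_image.2 ⟨(i, l), Finset.mem_univ _, hkl.symm⟩)
    refine ⟨Fin.cons f' F, ?_, ?_⟩
    · intro i
      refine Fin.cases ?_ (fun i => ?_) i
      · simpa using h1
      · simpa using hF i
    · intro i i'
      refine Fin.cases ?_ (fun i => ?_) i
      · refine Fin.cases ?_ (fun i' => ?_) i'
        · intro h; exact absurd rfl h
        · intro _ k l; simpa using h3 i' k l
      · refine Fin.cases ?_ (fun i' => ?_) i'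
        · intro _ k l; simpa using (h3 i l k).symm
        · intro hne k l
          have : i ≠ i' := fun h => hne (by rw [h])
          simpa using hd i i' this k l

theorem st_El (h : St_Code) : St_El := by
  intro M N _ _ j hM hN Z hZ
  by_contra hcon
  set Z0 : Finset N := Z.filter (fun v => v ∈ Set.range j) with hZ0
  set Z1 : Finset N := Z.filter (fun v => ¬ v ∈ Set.range j) with hZ1
  have hU : Z0 ∪ Z1 = Z := Finset.filter_union_filter_not_eq _ Z
  have hD : Disjoint Z0 Z1 := Finset.disjoint_filter_filter_not _ _ _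
  have hne : Z1.Nonempty := by
    rw [Set.not_subset] at hZ
    obtain ⟨x, hx, hx'⟩ := hZ
    exact ⟨x, Finset.mem_filter.2 ⟨hx, hx'⟩⟩
  obtain ⟨α, b, f, hb, hf, hC, -, -⟩ := h N (Hs N) Z0 Z1 hD hne (by rw [hU]; omega)
    (fun e he _ => hN.inC.k1 e he (Set.subset_univ _))
  have hb' : ∀ i, ∃ y, j y = b i := fun i => (Finset.mem_filter.1 (hb i)).2
  choose b' hb' using hb'
  have hf' : ∀ k, f k ∉ Set.range j := fun k => (Finset.mem_filter.1 (hf k)).2
  have hC' : Cop (Hs N) α (fun i => j (b' i)) f := by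
    have : (fun i => j (b' i)) = b := funext hb'
    rw [this]; exact hC
  obtain ⟨F, hF, hd⟩ := El_many α b' (El_more j α b' f hC' hf') (α.mu + 1)
  exact hM.inC.k6 α ⟨b', F, fun _ => Set.mem_univ _, fun _ _ => Set.mem_univ _, hF, hd⟩

end H912SM
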