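import Pool.Agent.H912R2.SM.Stm
import Pool.Agent.H912R2.SM.Basic2

/-!
# Extension of partial isomorphisms along strong extensions
-/

set_option autoImplicit false

open scoped Classical

namespace H912SM

/-- images of two subsets of `U` under a map injective on `U` -/
theorem eq_of_image_eq {W V : Type} {g : W → V} {U : Finset W} (hg : Set.InjOn g U)
    {e1 e2 : Finset W} (h1 : e1 ⊆ U) (h2 : e2 ⊆ U) (h : e1.image g = e2.image g) : e1 = e2 := by
  ext v
  constructor
  · intro hv
    have : g v ∈ e2.image g := by
      rw [← h]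
      exact Finset.mem_image_of_mem g hv
    obtain ⟨w, hw, hwv⟩ := Finset.mem_image.1 this
    rw [← hg (Finset.mem_coe.2 (h2 hw)) (Finset.mem_coe.2 (h1 hv)) hwv]
    exact hw
  · intro hv
    have : g v ∈ e1.image g := by
      rw [h]
      exact Finset.mem_image_of_mem g hv
    obtain ⟨w, hw, hwv⟩ := Finset.mem_image.1 this
    rw [← hg (Finset.mem_coe.2 (h1 hw)) (Finset.mem_coe.2 (h2 hv)) hwv]
    exact hw

/-- one step with a free point -/
theorem pIso_free {W V : Type} {H' : Set (Finset W)} {H : Set (Finset V)} {Y : Finset W}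
    {g : W → V} (hP : PIso H' H Y g) {c : W} {c' : V} (hcY : c ∉ Y)
    (hce : ∀ e ∈ H', e ⊆ insert c Y → e ⊆ Y) (hF : FreePt H (Y.image g) c') :
    PIso H' H (insert c Y) (Function.update g c c') := by
  obtain ⟨hc'X, hc'S, hc'e⟩ := hF
  have hg1 : ∀ y ∈ Y, Function.update g c c' y = g y := fun y hy =>
    Function.update_of_ne (by rintro rfl; exact hcY hy) _ _
  have hg1c : Function.update g c c' c = c' := Function.update_self _ _ _
  have him : ∀ e : Finset W, e ⊆ Y → e.image (Function.update g c c') = e.image g := fun e he =>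
    Finset.image_congr (fun y hy => hg1 y (he hy))
  have hcim : ∀ y ∈ Y, g y ≠ c' := by
    rintro y hy rfl
    exact hc'X (Finset.mem_image_of_mem g hy)
  have hIm : (insert c Y).image (Function.update g c c') = insert c' (Y.image g) := by
    rw [Finset.image_insert, hg1c, him Y subset_rfl]
  refine ⟨?_, ?_, ?_⟩
  · intro a ha a' ha' haa
    rw [Finset.mem_coe, Finset.mem_insert] at ha ha'
    rcases ha with rfl | ha
    · rcases ha' with rfl | ha'
      · rfl
      · rw [hg1c, hg1 a' ha'] at haa
        exact absurd haa.symm (hcim a' ha')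
    · rcases ha' with rfl | ha'
      · rw [hg1c, hg1 a ha] at haa
        exact absurd haa (hcim a ha)
      · rw [hg1 a ha, hg1 a' ha'] at haa
        exact hP.1 (Finset.mem_coe.2 ha) (Finset.mem_coe.2 ha') haa
  · intro e he
    constructor
    · intro heH
      have h1 := hce e heH he
      rw [him e h1]
      exact (hP.2.1 e h1).1 heH
    · intro heH
      have h1 : e.image (Function.update g c c') ⊆ insert c' (Y.image g) := by
        rw [← hIm]
        exact Finset.image_subset_image he
      have h2 := hc'e _ heH h1
      have h3 : e ⊆ Y := by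
        intro v hv
        rcases Finset.mem_insert.1 (he hv) with rfl | h
        · exfalso
          apply hc'X
          have := h2 (Finset.mem_image_of_mem _ hv)
          rwa [hg1c] at this
        · exact h
      rw [him e h3] at heH
      exact (hP.2.1 e h3).2 heH
  · rw [hIm]
    exact hc'S

/-- one step with a code -/
theorem pIso_code {W V : Type} {H' : Set (Finset W)} {H : Set (Finset V)} {Y : Finset W}
    {g : W → V} (hP : PIso H' H Y g) {α : Code} {b : Fin α.m → W} {f : Fin α.n → W}
    (hb : ∀ j, b j ∈ Y) (hfY : ∀ k, f k ∉ Y) (hcop : Cop H' α b f) (hex : Exact H' Y α b f)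
    {f2 : Fin α.n → V} (hcop2 : Cop H α (g ∘ b) f2) (hf2 : ∀ k, f2 k ∉ Y.image g) :
    ∃ g1 : W → V, (∀ y ∈ Y, g1 y = g y) ∧ (∀ k, g1 (f k) = f2 k) ∧
      PIso H' H (Y ∪ ran f) g1 := by
  obtain ⟨g1, hg1, hg1f⟩ : ∃ g1 : W → V, (∀ y ∈ Y, g1 y = g y) ∧ (∀ k, g1 (f k) = f2 k) := by
    refine ⟨fun w => if w ∈ Y then g w else Function.extend f f2 g w, ?_, ?_⟩
    · intro y hy
      simp only [hy, if_true]
    · intro k
      simp only [hfY k, if_false]
      exact hcop.inj_f.extend_apply f2 g k
  refine ⟨g1, hg1, hg1f, ?_⟩
  have him : ∀ e : Finset W, e ⊆ Y → e.image g1 = e.image g := fun e he =>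
    Finset.image_congr (fun y hy => hg1 y (he hy))
  have hranim : (ran f).image g1 = ran f2 := by
    ext v
    rw [Finset.mem_image, mem_ran]
    constructor
    · rintro ⟨w, hw, rfl⟩
      obtain ⟨k, rfl⟩ := mem_ran.1 hw
      exact ⟨k, (hg1f k).symm⟩
    · rintro ⟨k, rfl⟩
      exact ⟨f k, apply_mem_ran f k, hg1f k⟩
  have hIm : (Y ∪ ran f).image g1 = Y.image g ∪ ran f2 := by
    rw [Finset.image_union, him Y subset_rfl, hranim]
  have hne : ∀ y ∈ Y, ∀ k, g y ≠ f2 k := by
    intro y hy k h
    exact hf2 k (h ▸ Finset.mem_image_of_mem g hy)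
  have hinj : Set.InjOn g1 (Y ∪ ran f : Finset W) := by
    intro a ha a' ha' haa
    rw [Finset.mem_coe, Finset.mem_union, mem_ran] at ha ha'
    rcases ha with ha | ⟨k, rfl⟩
    · rcases ha' with ha' | ⟨k', rfl⟩
      · rw [hg1 a ha, hg1 a' ha'] at haa
        exact hP.1 (Finset.mem_coe.2 ha) (Finset.mem_coe.2 ha') haa
      · rw [hg1 a ha, hg1f] at haa
        exact absurd haa (hne a ha k')
    · rcases ha' with ha' | ⟨k', rfl⟩
      · rw [hg1 a' ha', hg1f] at haa
        exact absurd haa.symm (hne a' ha' k)
      · rw [hg1f, hg1f] at haa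
        rw [hcop2.inj_f haa]
  have hcomp : ∀ e' : Finset (Fin α.n ⊕ Fin α.m), (e'.image (Sum.elim f b)).image g1 =
      e'.image (Sum.elim f2 (g ∘ b)) := by
    intro e'
    rw [Finset.image_image]
    apply Finset.image_congr
    intro z _
    rcases z with k | j
    · exact hg1f k
    · exact hg1 (b j) (hb j)
  refine ⟨hinj, ?_, ?_⟩
  · intro e he
    constructor
    · intro heH
      have he' : (e : Set W) ⊆ (Y : Set W) ∪ Set.range f := by
        intro v hv
        rcases Finset.mem_union.1 (he (Finset.mem_coe.1 hv)) with h | h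
        · exact Or.inl (Finset.mem_coe.2 h)
        · exact Or.inr (mem_ran.1 h)
      rcases hex e heH he' with h | ⟨e', h1, rfl⟩
      · have h' : e ⊆ Y := Finset.coe_subset.1 h
        rw [him e h']
        exact (hP.2.1 e h').1 heH
      · rw [hcomp]
        exact hcop2.2 e' h1
    · intro heH
      have hex2 : Exact H (Y.image g : Finset V) α (g ∘ b) f2 :=
        exact_of_strong hP.2.2 hcop2
          (fun j => Finset.mem_coe.2 (Finset.mem_image_of_mem g (hb j)))
          (fun k => Set.mem_univ _) (fun k => fun h => hf2 k (Finset.mem_coe.1 h))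
      have he' : ((e.image g1 : Finset V) : Set V) ⊆ ((Y.image g : Finset V) : Set V) ∪
          Set.range f2 := by
        intro v hv
        have h1 : v ∈ Y.image g ∪ ran f2 := by
          rw [← hIm]
          exact Finset.image_subset_image he (Finset.mem_coe.1 hv)
        rcases Finset.mem_union.1 h1 with h | h
        · exact Or.inl (Finset.mem_coe.2 h)
        · exact Or.inr (mem_ran.1 h)
      rcases hex2 _ heH he' with h | ⟨e', h1, h2⟩
      · have h' : e.image g1 ⊆ Y.image g := Finset.coe_subset.1 h
        have h3 : e ⊆ Y := by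
          intro v hv
          rcases Finset.mem_union.1 (he hv) with h4 | h4
          · exact h4
          · obtain ⟨k, rfl⟩ := mem_ran.1 h4
            have h5 := h' (Finset.mem_image_of_mem g1 hv)
            rw [hg1f] at h5
            exact absurd h5 (hf2 k)
        rw [him e h3] at heH
        exact (hP.2.1 e h3).2 heH
      · rw [← hcomp] at h2
        have h3 : e = e'.image (Sum.elim f b) :=
          eq_of_image_eq hinj he (image_subset_union hb e') h2
        rw [h3]
        exact hcop.2 e' h1
  · rw [hIm, Finset.coe_union, coe_ran]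
    exact strong_union_copy hP.2.2 hcop2
      (fun j => Finset.mem_coe.2 (Finset.mem_image_of_mem g (hb j))) (fun k => Set.mem_univ _)

theorem st_Ext (hD : St_Decomp) : St_Ext := by
  intro W V H' H A q hC hLR hfree hcl Y Y' g hYY' hP hgA hS hC' hq
  induction hn : (Y' \ Y).card using Nat.strong_induction_on generalizing Y g with
  | _ n ih =>
  by_cases hEq : Y = Y'
  · subst hEq
    exact ⟨g, fun _ _ => rfl, hP, hgA⟩
  have hImA : ((Y.image g : Finset V) : Set V) ⊆ A := by
    intro v hv
    obtain ⟨w, hw, rfl⟩ := Finset.mem_image.1 (Finset.mem_coe.1 hv)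
    exact hgA w hw
  rcases hD W H' Y Y' hYY' hEq hS (fun e he heY => hC'.k1 e he (Finset.coe_subset.2 heY)) with
    ⟨c, hcY', hcY, hcS, hce⟩ | ⟨α, b, f, hb, hf, hfY, hcop, hex, hfS⟩
  · obtain ⟨c', hc'A, hF⟩ := hfree (Y.image g) hImA hP.2.2
    have hP1 := pIso_free hP hcY hce hF
    have hg1 : ∀ y ∈ Y, Function.update g c c' y = g y := fun y hy =>
      Function.update_of_ne (by rintro rfl; exact hcY hy) _ _
    have hlt : (Y' \ insert c Y).card < n := by
      rw [← hn]
      apply Finset.card_lt_card
      refine ⟨Finset.sdiff_subset_sdiff subset_rfl (Finset.subset_insert _ _), ?_⟩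
      intro h
      have h1 := h (Finset.mem_sdiff.2 ⟨hcY', hcY⟩)
      exact (Finset.mem_sdiff.1 h1).2 (Finset.mem_insert_self _ _)
    obtain ⟨g', h1, h2, h3⟩ := ih _ hlt (insert c Y) (Function.update g c c')
      (Finset.insert_subset hcY' hYY') hP1
      (by
        intro y hy
        rcases Finset.mem_insert.1 hy with rfl | hy
        · rw [Function.update_self]
          exact hc'A
        · rw [hg1 y hy]
          exact hgA y hy)
      hcS
      (fun e he heY hne => hq e he heY (fun h => hne (h.trans (Finset.subset_insert _ _)))) rfl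
    exact ⟨g', fun y hy => (h1 y (Finset.mem_insert_of_mem hy)).trans (hg1 y hy), h2, h3⟩
  · -- the code case
    set y : Fin Y.card → W := fun i => (Y.equivFin.symm i : W) with hy
    have hyinj : Function.Injective y := by
      intro i j hij
      exact Y.equivFin.symm.injective (Subtype.ext hij)
    have hyY : ∀ i, y i ∈ Y := fun i => (Y.equivFin.symm i).2
    have hysurj : ∀ w ∈ Y, ∃ i, y i = w := by
      intro w hw
      refine ⟨Y.equivFin ⟨w, hw⟩, ?_⟩
      simp [hy]
    set c : Fin α.m → Fin Y.card := fun j => Y.equivFin ⟨b j, hb j⟩ with hc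
    have hyc : ∀ j, y (c j) = b j := by
      intro j
      simp [hy, hc]
    have hcinj : Function.Injective c := by
      intro j j' hjj
      apply hcop.inj_b
      rw [← hyc, ← hyc, hjj]
    have hinC : InC (extG {e : Finset (Fin Y.card) | e.image y ∈ H'} α c) Set.univ := by
      apply InC.of_map (g := Sum.elim f y) (H := H')
      · intro z _ z' _ hzz
        rcases z with k | i
        · rcases z' with k' | i'
          · simp only [Sum.elim_inl] at hzz
            rw [hcop.inj_f hzz]
          · simp only [Sum.elim_inl, Sum.elim_inr] at hzz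
            exact absurd (hzz ▸ hyY i') (hfY k)
        · rcases z' with k' | i'
          · simp only [Sum.elim_inl, Sum.elim_inr] at hzz
            exact absurd (hzz ▸ hyY i) (hfY k')
          · simp only [Sum.elim_inr] at hzz
            rw [hyinj hzz]
      · intro e _ he
        rcases he with ⟨e', he', rfl⟩ | ⟨e', he', rfl⟩
        · rw [Finset.image_image]
          exact he'
        · rw [Finset.image_image]
          have h1 : e'.image (Sum.elim f y ∘ Sum.elim Sum.inl (fun j => Sum.inr (c j))) =
              e'.image (Sum.elim f b) := by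
            apply Finset.image_congr
            intro z _
            rcases z with k | j
            · rfl
            · exact hyc j
          rw [h1]
          exact hcop.2 e' he'
      · apply hC'.mono_set
        rintro v ⟨z, _, rfl⟩
        rcases z with k | i
        · exact Finset.mem_coe.2 (hf k)
        · exact Finset.mem_coe.2 (hYY' (hyY i))
    obtain ⟨K, hK⟩ := hLR Y.card {e : Finset (Fin Y.card) | e.image y ∈ H'} α c hcinj hinC
    have hranx : ran (g ∘ y) = Y.image g := by
      ext v
      rw [mem_ran, Finset.mem_image]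
      constructor
      · rintro ⟨i, rfl⟩
        exact ⟨y i, hyY i, rfl⟩
      · rintro ⟨w, hw, rfl⟩
        obtain ⟨i, rfl⟩ := hysurj w hw
        exact ⟨i, rfl⟩
    obtain ⟨f2, hcop2, hf2⟩ := hK (g ∘ y)
      (by
        intro i j hij
        exact hyinj (hP.1 (Finset.mem_coe.2 (hyY i)) (Finset.mem_coe.2 (hyY j)) hij))
      (by
        intro e
        rw [← Finset.image_image]
        apply hP.2.1
        intro v hv
        obtain ⟨i, _, rfl⟩ := Finset.mem_image.1 hv
        exact hyY i)
      (by
        intro z
        rw [hranx]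
        exact hP.2.2.le_of_subset Finset.subset_union_left (Set.subset_univ _))
    have hbase : (g ∘ y) ∘ c = g ∘ b := by
      funext j
      simp only [Function.comp]
      rw [hyc]
    rw [hbase] at hcop2
    have hf2' : ∀ k, f2 k ∉ Y.image g := by
      intro k hk
      rw [← hranx] at hk
      obtain ⟨i, hi⟩ := mem_ran.1 hk
      exact hf2 k i hi.symm
    have hf2A : ∀ k, f2 k ∈ A := by
      apply hcl α (g ∘ b) f2 _ (fun j => hgA _ (hb j)) hcop2
      intro e he
      have h1 : e.image (Sum.elim f b) ⊆ Y' := by
        intro v hv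
        rcases mem_image_elim.1 hv with ⟨k, _, rfl⟩ | ⟨j, _, rfl⟩
        · exact hf k
        · exact hYY' (hb j)
      have h2 := hq _ (hcop.2 e he) h1 (fun h3 => not_image_subset (Y := (Y : Set W)) (b := b)
        (fun k => fun h => hfY k (Finset.mem_coe.1 h)) he (Finset.coe_subset.2 h3))
      rwa [Finset.card_image_of_injective _ hcop.1] at h2
    obtain ⟨g1, hg1, hg1f, hP1⟩ := pIso_code hP hb hfY hcop hex hcop2 hf2'
    have hlt : (Y' \ (Y ∪ ran f)).card < n := by
      rw [← hn]
      apply Finset.card_lt_card
      refine ⟨Finset.sdiff_subset_sdiff subset_rfl Finset.subset_union_left, ?_⟩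
      intro h
      have h1 := h (Finset.mem_sdiff.2 ⟨hf ⟨0, α.npos⟩, hfY ⟨0, α.npos⟩⟩)
      exact (Finset.mem_sdiff.1 h1).2 (Finset.mem_union_right _ (apply_mem_ran f _))
    obtain ⟨g', h1, h2, h3⟩ := ih _ hlt (Y ∪ ran f) g1
      (by
        apply Finset.union_subset hYY'
        intro v hv
        obtain ⟨k, rfl⟩ := mem_ran.1 hv
        exact hf k)
      hP1
      (by
        intro w hw
        rcases Finset.mem_union.1 hw with hw | hw
        · rw [hg1 w hw]
          exact hgA w hw
        · obtain ⟨k, rfl⟩ := mem_ran.1 hw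
          rw [hg1f]
          exact hf2A k)
      (by
        rw [Finset.coe_union, coe_ran] at *
        exact hfS)
      (fun e he heY hne => hq e he heY (fun h => hne (h.trans Finset.subset_union_left))) rfl
    exact ⟨g', fun w hw => (h1 w (Finset.mem_union_left _ hw)).trans (hg1 w hw), h2, h3⟩

end H912SM
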