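import Pool.Agent.H912R2.SM.Stm

/-!
# First order toolkit for MP_1b3a35_lc (task T8)
-/

set_option autoImplicit false
set_option linter.unusedVariables false

open scoped Classical
open FirstOrder FirstOrder.Language

namespace H912SM

/-- uniformly first order definable predicates of tuples -/
def FO {p : ℕ} (Q : ∀ (M : Type) [LT.Structure M], (Fin p → M) → Prop) : Prop :=
  ∃ φ : LT.Formula (Fin p), ∀ (M : Type) [LT.Structure M] (v : Fin p → M), φ.Realize v ↔ Q M v

namespace FO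

theorem congr {p : ℕ} {Q R : ∀ (M : Type) [LT.Structure M], (Fin p → M) → Prop}
    (h : FO Q) (hQR : ∀ (M : Type) [LT.Structure M] (v : Fin p → M), Q M v ↔ R M v) : FO R := by
  obtain ⟨φ, hφ⟩ := h
  exact ⟨φ, fun M _ v => (hφ M v).trans (hQR M v)⟩

theorem not {p : ℕ} {Q : ∀ (M : Type) [LT.Structure M], (Fin p → M) → Prop}
    (h : FO Q) : FO (fun M _ v => ¬ Q M v) := by
  obtain ⟨φ, hφ⟩ := h
  refine ⟨φ.not, fun M _ v => ?_⟩
  rw [Formula.realize_not, hφ]

theorem and {p : ℕ} {Q R : ∀ (M : Type) [LT.Structure M], (Fin p → M) → Prop}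
    (h : FO Q) (h' : FO R) : FO (fun M _ v => Q M v ∧ R M v) := by
  obtain ⟨φ, hφ⟩ := h
  obtain ⟨ψ, hψ⟩ := h'
  refine ⟨φ ⊓ ψ, fun M _ v => ?_⟩
  rw [Formula.realize_inf, hφ, hψ]

theorem or {p : ℕ} {Q R : ∀ (M : Type) [LT.Structure M], (Fin p → M) → Prop}
    (h : FO Q) (h' : FO R) : FO (fun M _ v => Q M v ∨ R M v) := by
  obtain ⟨φ, hφ⟩ := h
  obtain ⟨ψ, hψ⟩ := h'
  refine ⟨φ ⊔ ψ, fun M _ v => ?_⟩
  rw [Formula.realize_sup, hφ, hψ]

theorem imp {p : ℕ} {Q R : ∀ (M : Type) [LT.Structure M], (Fin p → M) → Prop}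
    (h : FO Q) (h' : FO R) : FO (fun M _ v => Q M v → R M v) := by
  obtain ⟨φ, hφ⟩ := h
  obtain ⟨ψ, hψ⟩ := h'
  refine ⟨φ.imp ψ, fun M _ v => ?_⟩
  rw [Formula.realize_imp, hφ, hψ]

theorem iff {p : ℕ} {Q R : ∀ (M : Type) [LT.Structure M], (Fin p → M) → Prop}
    (h : FO Q) (h' : FO R) : FO (fun M _ v => Q M v ↔ R M v) := by
  obtain ⟨φ, hφ⟩ := h
  obtain ⟨ψ, hψ⟩ := h'
  refine ⟨φ.iff ψ, fun M _ v => ?_⟩
  rw [Formula.realize_iff, hφ, hψ]

theorem const {p : ℕ} (c : Prop) : FO (p := p) (fun _ _ _ => c) := by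
  by_cases hc : c
  · refine ⟨⊤, fun M _ v => ?_⟩
    rw [Formula.realize_top]
    simp [hc]
  · refine ⟨⊥, fun M _ v => ?_⟩
    rw [Formula.realize_bot]
    simp [hc]

theorem eq {p : ℕ} (i j : Fin p) : FO (p := p) (fun _ _ v => v i = v j) := by
  refine ⟨(Term.var i : LT.Term (Fin p)).equal (Term.var j), fun M _ v => ?_⟩
  rw [Formula.realize_equal]
  rfl

theorem tri {p : ℕ} (i j k : Fin p) : FO (p := p) (fun _ _ v => H912SM.tri (v i) (v j) (v k)) := by
  refine ⟨Relations.formula (L := LT) (n := 3) (show LT.Relations 3 from Rel.P)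
    ![(Term.var i : LT.Term (Fin p)), Term.var j, Term.var k], fun M _ v => ?_⟩
  refine Iff.trans (Formula.realize_rel (L := LT)) ?_
  unfold H912SM.tri
  have : (fun i_1 => Term.realize v (![(Term.var i : LT.Term (Fin p)), Term.var j, Term.var k] i_1))
      = ![v i, v j, v k] := by
    funext t
    fin_cases t <;> rfl
  rw [this]

theorem finAll {p : ℕ} {ι : Type} [Finite ι]
    {Q : ι → ∀ (M : Type) [LT.Structure M], (Fin p → M) → Prop}
    (h : ∀ i, FO (Q i)) : FO (fun M _ v => ∀ i, Q i M v) := by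
  choose φ hφ using h
  refine ⟨Formula.iInf φ, fun M _ v => ?_⟩
  rw [Formula.realize_iInf]
  exact forall_congr' fun i => hφ i M v

theorem finEx {p : ℕ} {ι : Type} [Finite ι]
    {Q : ι → ∀ (M : Type) [LT.Structure M], (Fin p → M) → Prop}
    (h : ∀ i, FO (Q i)) : FO (fun M _ v => ∃ i, Q i M v) := by
  choose φ hφ using h
  refine ⟨Formula.iSup φ, fun M _ v => ?_⟩
  rw [Formula.realize_iSup]
  exact exists_congr fun i => hφ i M v

theorem reindex {p q : ℕ} {Q : ∀ (M : Type) [LT.Structure M], (Fin p → M) → Prop}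
    (σ : Fin p → Fin q) (h : FO Q) : FO (fun M _ (v : Fin q → M) => Q M (v ∘ σ)) := by
  obtain ⟨φ, hφ⟩ := h
  refine ⟨φ.relabel σ, fun M _ v => ?_⟩
  rw [Formula.realize_relabel, hφ]

theorem allFin {p q : ℕ} {Q : ∀ (M : Type) [LT.Structure M], (Fin (p + q) → M) → Prop}
    (h : FO Q) : FO (fun M _ (v : Fin p → M) => ∀ w : Fin q → M, Q M (Fin.append v w)) := by
  obtain ⟨φ, hφ⟩ := h
  refine ⟨Formula.iAlls (Fin q) (φ.relabel (finSumFinEquiv.symm : Fin (p + q) → Fin p ⊕ Fin q)),
    fun M _ v => ?_⟩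
  rw [Formula.realize_iAlls]
  refine forall_congr' fun w => ?_
  rw [Formula.realize_relabel, hφ]
  have : (fun a => Sum.elim v w a) ∘ (finSumFinEquiv.symm : Fin (p + q) → Fin p ⊕ Fin q)
      = Fin.append v w := by
    funext t
    refine Fin.addCases (fun s => ?_) (fun s => ?_) t
    · simp
    · simp
  rw [this]

theorem exFin {p q : ℕ} {Q : ∀ (M : Type) [LT.Structure M], (Fin (p + q) → M) → Prop}
    (h : FO Q) : FO (fun M _ (v : Fin p → M) => ∃ w : Fin q → M, Q M (Fin.append v w)) := by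
  refine (not (allFin (not h))).congr fun M _ v => ?_
  simp only [not_forall, not_not]

theorem all {p : ℕ} {Q : ∀ (M : Type) [LT.Structure M], (Fin (p + 1) → M) → Prop}
    (h : FO Q) : FO (fun M _ (v : Fin p → M) => ∀ a : M, Q M (Fin.snoc v a)) := by
  refine (allFin (q := 1) h).congr fun M _ v => ?_
  constructor
  · intro hh a
    have := hh (fun _ => a)
    rwa [Fin.append_right_eq_snoc] at this
  · intro hh w
    rw [Fin.append_right_eq_snoc]
    exact hh _

theorem ex {p : ℕ} {Q : ∀ (M : Type) [LT.Structure M], (Fin (p + 1) → M) → Prop}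
    (h : FO Q) : FO (fun M _ (v : Fin p → M) => ∃ a : M, Q M (Fin.snoc v a)) := by
  refine (not (all (not h))).congr fun M _ v => ?_
  simp only [not_forall, not_not]

/-- finite quantification over a finset of indices -/
theorem memAll {p : ℕ} {ι : Type} (s : Finset ι)
    {Q : ι → ∀ (M : Type) [LT.Structure M], (Fin p → M) → Prop}
    (h : ∀ i, i ∈ s → FO (Q i)) : FO (fun M _ v => ∀ i ∈ s, Q i M v) := by
  refine (finAll (ι := s) (Q := fun i => Q i.1) (fun i => h i.1 i.2)).congr fun M _ v => ?_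
  constructor
  · intro hh i hi
    exact hh ⟨i, hi⟩
  · intro hh i
    exact hh i.1 i.2

theorem memEx {p : ℕ} {ι : Type} (s : Finset ι)
    {Q : ι → ∀ (M : Type) [LT.Structure M], (Fin p → M) → Prop}
    (h : ∀ i, i ∈ s → FO (Q i)) : FO (fun M _ v => ∃ i ∈ s, Q i M v) := by
  refine (finEx (ι := s) (Q := fun i => Q i.1) (fun i => h i.1 i.2)).congr fun M _ v => ?_
  constructor
  · rintro ⟨i, hi⟩
    exact ⟨i.1, i.2, hi⟩
  · rintro ⟨i, hi, hh⟩
    exact ⟨⟨i, hi⟩, hh⟩

/-- `∃ c, ¬ tri (v i) (v j) c` and its relatives -/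
theorem noTri {p : ℕ} (i j : Fin p) :
    FO (p := p) (fun M _ v => ∀ c : M, ¬ H912SM.tri (v i) (v j) c) := by
  refine (all (not (tri (p := p + 1) i.castSucc j.castSucc (Fin.last p)))).congr
    fun M _ v => ?_
  simp only [Fin.snoc_castSucc, Fin.snoc_last]

theorem edge_iff {p : ℕ} (e : Finset (Fin p)) (M : Type) [LT.Structure M] (v : Fin p → M) :
    e.image v ∈ Hs M ↔
    (∃ i ∈ e, ∃ j ∈ e, ∃ k ∈ e, (∀ l ∈ e, v l = v i ∨ v l = v j ∨ v l = v k) ∧
      v i ≠ v j ∧ v i ≠ v k ∧ v j ≠ v k ∧ H912SM.tri (v i) (v j) (v k)) ∨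
    (∃ i ∈ e, ∃ j ∈ e, (∀ l ∈ e, v l = v i ∨ v l = v j) ∧ v i ≠ v j ∧
      ∀ c, ¬ H912SM.tri (v i) (v j) c) := by
  constructor
  · rintro (⟨a, b, c, hab, hac, hbc, he, ht⟩ | ⟨a, b, hab, he, ht⟩)
    · left
      have ha : a ∈ e.image v := by rw [he]; simp
      have hb : b ∈ e.image v := by rw [he]; simp
      have hc : c ∈ e.image v := by rw [he]; simp
      obtain ⟨i, hi, rfl⟩ := Finset.mem_image.1 ha
      obtain ⟨j, hj, rfl⟩ := Finset.mem_image.1 hb
      obtain ⟨k, hk, rfl⟩ := Finset.mem_image.1 hc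
      refine ⟨i, hi, j, hj, k, hk, fun l hl => ?_, hab, hac, hbc, ht⟩
      have : v l ∈ e.image v := Finset.mem_image_of_mem _ hl
      rw [he] at this
      simpa using this
    · right
      have ha : a ∈ e.image v := by rw [he]; simp
      have hb : b ∈ e.image v := by rw [he]; simp
      obtain ⟨i, hi, rfl⟩ := Finset.mem_image.1 ha
      obtain ⟨j, hj, rfl⟩ := Finset.mem_image.1 hb
      refine ⟨i, hi, j, hj, fun l hl => ?_, hab, ht⟩
      have : v l ∈ e.image v := Finset.mem_image_of_mem _ hl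
      rw [he] at this
      simpa using this
  · rintro (⟨i, hi, j, hj, k, hk, hl, hij, hik, hjk, ht⟩ | ⟨i, hi, j, hj, hl, hij, ht⟩)
    · left
      refine ⟨v i, v j, v k, hij, hik, hjk, ?_, ht⟩
      ext x
      simp only [Finset.mem_image, Finset.mem_insert, Finset.mem_singleton]
      constructor
      · rintro ⟨l, hle, rfl⟩
        exact hl l hle
      · rintro (rfl | rfl | rfl)
        · exact ⟨i, hi, rfl⟩
        · exact ⟨j, hj, rfl⟩
        · exact ⟨k, hk, rfl⟩
    · right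
      refine ⟨v i, v j, hij, ?_, ht⟩
      ext x
      simp only [Finset.mem_image, Finset.mem_insert, Finset.mem_singleton]
      constructor
      · rintro ⟨l, hle, rfl⟩
        exact hl l hle
      · rintro (rfl | rfl)
        · exact ⟨i, hi, rfl⟩
        · exact ⟨j, hj, rfl⟩

theorem edge {p : ℕ} (e : Finset (Fin p)) : FO (p := p) (fun M _ v => e.image v ∈ Hs M) := by
  refine FO.congr ?_ (fun M _ v => (edge_iff e M v).symm)
  refine or ?_ ?_
  · refine memEx e fun i _ => memEx e fun j _ => memEx e fun k _ => ?_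
    refine and (memAll e fun l _ => or (eq l i) (or (eq l j) (eq l k))) ?_
    exact and (not (eq i j)) (and (not (eq i k)) (and (not (eq j k)) (tri i j k)))
  · refine memEx e fun i _ => memEx e fun j _ => ?_
    refine and (memAll e fun l _ => or (eq l i) (eq l j)) ?_
    exact and (not (eq i j)) (noTri i j)

/-- the diagram of a tuple -/
def diagOf {p : ℕ} (M : Type) [LT.Structure M] (v : Fin p → M) :
    (Fin p → Fin p → Prop) × (Finset (Fin p) → Prop) :=
  (fun i j => v i = v j, fun e => e.image v ∈ Hs M)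

theorem diag_eq {p : ℕ} (D : (Fin p → Fin p → Prop) × (Finset (Fin p) → Prop)) :
    FO (p := p) (fun M _ v => diagOf M v = D) := by
  refine FO.congr (Q := fun M _ v => (∀ i j, (v i = v j ↔ D.1 i j)) ∧
    ∀ e : Finset (Fin p), (e.image v ∈ Hs M ↔ D.2 e)) ?_ ?_
  · refine and (finAll fun i => finAll fun j => iff (eq i j) (const _)) ?_
    exact finAll fun e => iff (edge e) (const _)
  · intro M _ v
    constructor
    · rintro ⟨h1, h2⟩
      refine Prod.ext ?_ ?_
      · funext i j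
        exact propext (h1 i j)
      · funext e
        exact propext (h2 e)
    · rintro rfl
      exact ⟨fun i j => Iff.rfl, fun e => Iff.rfl⟩

/-- a predicate which only depends on the diagram is first order -/
theorem diag {p : ℕ} {Q : ∀ (M : Type) [LT.Structure M], (Fin p → M) → Prop}
    (h : ∀ (M : Type) [LT.Structure M] (v : Fin p → M) (M' : Type) [LT.Structure M']
      (v' : Fin p → M'), (∀ i j, v i = v j ↔ v' i = v' j) →
      (∀ e : Finset (Fin p), e.image v ∈ Hs M ↔ e.image v' ∈ Hs M') → (Q M v ↔ Q M' v')) :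
    FO Q := by
  refine FO.congr (Q := fun M _ v => ∃ D : (Fin p → Fin p → Prop) × (Finset (Fin p) → Prop),
    diagOf M v = D ∧ ∃ (M' : Type) (_ : LT.Structure M') (v' : Fin p → M'), diagOf M' v' = D ∧
      Q M' v') ?_ ?_
  · exact finEx fun D => and (diag_eq D) (const _)
  · intro M _ v
    constructor
    · rintro ⟨D, h1, M', hM', v', h2, h3⟩
      have h4 := h1.trans h2.symm
      refine (h M v M' v' (fun i j => ?_) (fun e => ?_)).2 h3
      · have := congrFun (congrFun (congrArg Prod.fst h4) i) j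
        exact Iff.of_eq this
      · have := congrFun (congrArg Prod.snd h4) e
        exact Iff.of_eq this
    · intro hQ
      exact ⟨diagOf M v, rfl, M, inferInstance, v, rfl, hQ⟩

/-- elementary equivalence -/
theorem transfer {M N : Type} [LT.Structure M] [LT.Structure N] (hMN : M ≅[LT] N)
    {Q : ∀ (M : Type) [LT.Structure M], (Fin 0 → M) → Prop} (h : FO Q)
    (v : Fin 0 → M) (w : Fin 0 → N) : Q M v ↔ Q N w := by
  obtain ⟨φ, hφ⟩ := h
  rw [← hφ M v, ← hφ N w]
  have := hMN.realize_sentence (Formula.relabel (Fin.elim0 : Fin 0 → Empty) φ)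
  rw [Sentence.Realize, Sentence.Realize, Formula.realize_relabel, Formula.realize_relabel] at this
  have e1 : v = (default : Empty → M) ∘ (Fin.elim0 : Fin 0 → Empty) := Subsingleton.elim _ _
  have e2 : w = (default : Empty → N) ∘ (Fin.elim0 : Fin 0 → Empty) := Subsingleton.elim _ _
  rw [e1, e2]
  exact this

/-- elementary embeddings -/
theorem transfer_emb {M N : Type} [LT.Structure M] [LT.Structure N] (j : M ↪ₑ[LT] N) {p : ℕ}
    {Q : ∀ (M : Type) [LT.Structure M], (Fin p → M) → Prop} (h : FO Q)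
    (v : Fin p → M) : Q N (j ∘ v) ↔ Q M v := by
  obtain ⟨φ, hφ⟩ := h
  rw [← hφ M v, ← hφ N (j ∘ v)]
  exact j.map_formula φ v

end FO

end H912SM
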