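import Pool.Agent.H912R2.SM.Stm

/-!
# The final assembly
-/

set_option autoImplicit false

open scoped Classical
open FirstOrder FirstOrder.Language

namespace H912SM

/-! ## formulas of the language `LT` -/

/-- terms of `LT` are variables -/
theorem term_varF {k : ℕ} (t : LT.Term (Empty ⊕ Fin k)) : ∃ i : Fin k, t = Term.var (Sum.inr i) := by
  cases t with
  | var x =>
    cases x with
    | inl e => exact e.elim
    | inr i => exact ⟨i, rfl⟩
  | func f _ => exact (show Empty from f).elim

theorem qf_iff {M N : Type} [LT.Structure M] [LT.Structure N] {k : ℕ} {v : Fin k → M}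
    {w : Fin k → N} (h1 : ∀ i j, v i = v j ↔ w i = w j)
    (h2 : ∀ i j l, tri (v i) (v j) (v l) ↔ tri (w i) (w j) (w l))
    {θ : LT.BoundedFormula Empty k} (hθ : θ.IsQF) :
    θ.Realize default v ↔ θ.Realize default w := by
  induction hθ with
  | falsum => exact Iff.rfl
  | of_isAtomic h =>
    cases h with
    | equal t₁ t₂ =>
      obtain ⟨i, rfl⟩ := term_varF t₁
      obtain ⟨j, rfl⟩ := term_varF t₂
      simp only [BoundedFormula.realize_bdEqual, Term.realize_var, Sum.elim_inr]
      exact h1 i j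
    | @rel l R ts =>
      rw [BoundedFormula.realize_rel, BoundedFormula.realize_rel]
      have R' : Rel l := R
      obtain ⟨⟩ := (show Rel l from R)
      obtain ⟨i, hi⟩ := term_varF (ts 0)
      obtain ⟨j, hj⟩ := term_varF (ts 1)
      obtain ⟨m, hm⟩ := term_varF (ts 2)
      have e1 : (fun i => (ts i).realize (Sum.elim default v)) = ![v i, v j, v m] := by
        funext a
        fin_cases a
        · simp [hi]
        · simp [hj]
        · simp [hm]
      have e2 : (fun i => (ts i).realize (Sum.elim default w)) = ![w i, w j, w m] := by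
        funext a
        fin_cases a
        · simp [hi]
        · simp [hj]
        · simp [hm]
      rw [e1, e2]
      exact h2 i j m
  | imp _ _ ih1 ih2 =>
    rw [BoundedFormula.realize_imp, BoundedFormula.realize_imp, ih1, ih2]

/-- the sentence: every element has a mate -/
noncomputable def mateS : LT.Sentence :=
  BoundedFormula.all (BoundedFormula.ex
    ((BoundedFormula.not (Term.bdEqual (Term.var (Sum.inr 1)) (Term.var (Sum.inr 0)))) ⊓
      BoundedFormula.all (BoundedFormula.not
        (Relations.boundedFormula (L := LT) (n := 3) (show LT.Relations 3 from Rel.P)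
          ![Term.var (Sum.inr 0), Term.var (Sum.inr 1), Term.var (Sum.inr 2)]))))

theorem mateS_iff (M : Type) [LT.Structure M] :
    M ⊨ mateS ↔ ∀ x : M, ∃ y, y ≠ x ∧ ∀ z, ¬ tri x y z := by
  unfold mateS Sentence.Realize Formula.Realize
  simp only [BoundedFormula.realize_all, BoundedFormula.realize_ex, BoundedFormula.realize_inf,
    BoundedFormula.realize_not, BoundedFormula.realize_bdEqual, Term.realize_var, Sum.elim_inr,
    BoundedFormula.realize_rel]
  refine forall_congr' fun x => exists_congr fun y => and_congr ?_ (forall_congr' fun z => ?_)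
  · rfl
  · refine not_congr ?_
    unfold tri
    have e : (fun i => Term.realize (Sum.elim (default : Empty → M)
        (Fin.snoc (Fin.snoc (Fin.snoc default x) y) z : Fin 3 → M))
        ((![Term.var (Sum.inr 0), Term.var (Sum.inr 1), Term.var (Sum.inr 2)] :
          Fin 3 → LT.Term (Empty ⊕ Fin 3)) i)) = ![x, y, z] := by
      funext a
      fin_cases a <;> rfl
    exact Iff.of_eq (congrArg _ e)

/-! ## the structure given by a hypergraph -/

/-- the structure of a mixed hypergraph -/
def strOf {V : Type} (H : Set (Finset V)) : LT.Structure V where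
  funMap := fun f _ => (show Empty from f).elim
  RelMap := fun {n} R v => match n, (show Rel n from R), v with
    | _, Rel.P, v => v 0 ≠ v 1 ∧ v 0 ≠ v 2 ∧ v 1 ≠ v 2 ∧ ({v 0, v 1, v 2} : Finset V) ∈ H

theorem good_strOf {V : Type} (H : Set (Finset V)) (hne : Nonempty V) (hC : InC H Set.univ)
    (hL : LR H)
    (hcl : ∀ x y : V, x ≠ y → ({x, y} : Finset V) ∈ H ∨
      ∃ z, z ≠ x ∧ z ≠ y ∧ ({x, y, z} : Finset V) ∈ H)
    (hm : ∀ x : V, ∃ y, y ≠ x ∧ ({x, y} : Finset V) ∈ H) :
    @Good V (strOf H) := by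
  let _ : LT.Structure V := strOf H
  have htri : ∀ a b c : V, tri a b c ↔ a ≠ b ∧ a ≠ c ∧ b ≠ c ∧ ({a, b, c} : Finset V) ∈ H :=
    fun a b c => Iff.rfl
  have hpair : ∀ a b c : V, a ≠ b → ({a, b} : Finset V) ∈ H → ¬ tri a b c := by
    intro a b c hab h1 h2
    obtain ⟨_, h3, h4, h5⟩ := (htri a b c).1 h2
    have h6 := hC.k4 _ h1 _ h5 (by simp) (by
      intro x hx
      simp only [Finset.mem_insert, Finset.mem_singleton] at hx ⊢
      tauto)
    have h7 : c ∈ ({a, b} : Finset V) := by rw [h6]; simp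
    simp only [Finset.mem_insert, Finset.mem_singleton] at h7
    rcases h7 with rfl | rfl
    · exact h3 rfl
    · exact h4 rfl
  have hHs : Hs V = H := by
    ext e
    constructor
    · rintro (⟨a, b, c, _, _, _, rfl, h⟩ | ⟨a, b, hab, rfl, h⟩)
      · exact ((htri a b c).1 h).2.2.2
      · rcases hcl a b hab with h1 | ⟨z, h1, h2, h3⟩
        · exact h1
        · exact absurd ((htri a b z).2 ⟨hab, h1.symm, h2.symm, h3⟩) (h z)
    · intro he
      rcases hC.k1 e he (by simp) with h2 | h3
      · obtain ⟨a, b, hab, rfl⟩ := Finset.card_eq_two.1 h2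
        exact Or.inr ⟨a, b, hab, rfl, fun c => hpair a b c hab he⟩
      · obtain ⟨a, b, c, hab, hac, hbc, rfl⟩ := Finset.card_eq_three.1 h3
        exact Or.inl ⟨a, b, c, hab, hac, hbc, rfl, (htri a b c).2 ⟨hab, hac, hbc, he⟩⟩
  refine ⟨hne, ?_, ?_, ?_, ?_, ?_⟩
  · intro a b c h
    have := (htri a b c).1 h
    exact ⟨this.1, this.2.1, this.2.2.1⟩
  · intro a b c h
    obtain ⟨h1, h2, h3, h4⟩ := (htri a b c).1 h
    refine ⟨(htri b a c).2 ⟨h1.symm, h3, h2, ?_⟩, (htri a c b).2 ⟨h2, h1, h3.symm, ?_⟩⟩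
    · rwa [Finset.insert_comm]
    · rwa [show ({a, c, b} : Finset V) = {a, b, c} by rw [Finset.pair_comm] ]
  · rw [hHs]; exact hC
  · rw [hHs]; exact hL
  · intro x
    obtain ⟨y, hy, h⟩ := hm x
    exact ⟨y, hy, fun z => hpair x y z hy.symm h⟩

/-! ## the induced structure on a subset -/

/-- the induced structure -/
def indS {N : Type} [LT.Structure N] (A : Set N) : LT.Structure A where
  funMap := fun f _ => (show Empty from f).elim
  RelMap := fun R v => Structure.RelMap R (fun i => (v i : N))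

theorem tri_ind {N : Type} [LT.Structure N] (A : Set N) (a b c : A) :
    @tri A (indS A) a b c ↔ tri (a : N) (b : N) (c : N) := by
  unfold tri
  change Structure.RelMap _ (fun i => ((![a, b, c] : Fin 3 → A) i : N)) ↔ _
  have e : (fun i => ((![a, b, c] : Fin 3 → A) i : N)) = ![(a : N), (b : N), (c : N)] := by
    funext i
    fin_cases i <;> rfl
  rw [e]

/-- `∃∀∃`-sentences, as in the frozen statement -/
def IsEAE (σ : LT.BoundedFormula Empty 0) : Prop :=
  ∀ R : (n : ℕ) → LT.BoundedFormula Empty n → Prop,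
    (∀ (n : ℕ) (ψ : LT.BoundedFormula Empty n),
      (∀ Q : (m : ℕ) → LT.BoundedFormula Empty m → Prop,
        (∀ (m : ℕ) (χ : LT.BoundedFormula Empty m),
          (∀ P : (k : ℕ) → LT.BoundedFormula Empty k → Prop,
            (∀ (k : ℕ) (θ : LT.BoundedFormula Empty k), θ.IsQF → P k θ) →
            (∀ (k : ℕ) (θ : LT.BoundedFormula Empty (k + 1)), P (k + 1) θ → P k θ.ex) →
            P m χ) → Q m χ) →
        (∀ (m : ℕ) (χ : LT.BoundedFormula Empty (m + 1)), Q (m + 1) χ → Q m χ.all) →
        Q n ψ) → R n ψ) →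
    (∀ (n : ℕ) (ψ : LT.BoundedFormula Empty (n + 1)), R (n + 1) ψ → R n ψ.ex) →
    R 0 σ

theorem eae_transfer {V N : Type} [LT.Structure V] [LT.Structure N] (j : V ↪ₑ[LT] N) (A : Set N)
    (hjA : Set.range j ⊆ A)
    (hec : ∀ X Z : Finset N, (X : Set N) ⊆ A → ∃ h : N → N, Set.InjOn h (X ∪ Z : Finset N) ∧
        (∀ x ∈ X, h x = x) ∧ (∀ z ∈ X ∪ Z, h z ∈ A) ∧
        ∀ a ∈ X ∪ Z, ∀ b ∈ X ∪ Z, ∀ c ∈ X ∪ Z, (tri a b c ↔ tri (h a) (h b) (h c)))
    (σ : LT.BoundedFormula Empty 0) (hσ : IsEAE σ)
    (hV : σ.Realize (M := V) default default) :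
    @BoundedFormula.Realize LT A (indS A) Empty 0 σ default default := by
  let _ : LT.Structure A := indS A
  let jA : V → A := fun x => ⟨j x, hjA ⟨x, rfl⟩⟩
  have hjA' : ∀ (n : ℕ) (v : Fin n → V), (fun i => ((jA ∘ v) i : N)) = j ∘ v := fun n v => rfl
  -- existential formulas go up to the witnesses
  let P : (k : ℕ) → LT.BoundedFormula Empty k → Prop := fun k θ =>
    ∀ v : Fin k → N, θ.Realize default v → ∃ Z : Finset N, ∀ (h : N → N)
      (hA : ∀ z ∈ Finset.univ.image v ∪ Z, h z ∈ A),
      Set.InjOn h (Finset.univ.image v ∪ Z : Finset N) →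
      (∀ a ∈ Finset.univ.image v ∪ Z, ∀ b ∈ Finset.univ.image v ∪ Z,
        ∀ c ∈ Finset.univ.image v ∪ Z, (tri a b c ↔ tri (h a) (h b) (h c))) →
      θ.Realize (M := A) default
        (fun i => ⟨h (v i), hA _ (Finset.mem_union_left _
          (Finset.mem_image_of_mem v (Finset.mem_univ i)))⟩)
  have hP0 : ∀ (k : ℕ) (θ : LT.BoundedFormula Empty k), θ.IsQF → P k θ := by
    intro k θ hθ v hv
    refine ⟨∅, fun h hA hinj ht => ?_⟩
    have hmem : ∀ i, v i ∈ Finset.univ.image v ∪ (∅ : Finset N) := fun i =>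
      Finset.mem_union_left _ (Finset.mem_image_of_mem v (Finset.mem_univ i))
    refine (qf_iff (v := v) ?_ ?_ hθ).1 hv
    · intro i l
      rw [Subtype.mk.injEq]
      exact ⟨fun e => congrArg h e, fun e => hinj (hmem i) (hmem l) e⟩
    · intro i l m
      rw [tri_ind]
      exact ht _ (hmem i) _ (hmem l) _ (hmem m)
  have hP1 : ∀ (k : ℕ) (θ : LT.BoundedFormula Empty (k + 1)), P (k + 1) θ → P k θ.ex := by
    intro k θ hθ v hv
    rw [BoundedFormula.realize_ex] at hv
    obtain ⟨x, hx⟩ := hv
    obtain ⟨Z, hZ⟩ := hθ _ hx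
    refine ⟨insert x Z, fun h hA hinj ht => ?_⟩
    have hsub : Finset.univ.image (Fin.snoc v x : Fin (k + 1) → N) ∪ Z ⊆
        Finset.univ.image v ∪ insert x Z := by
      intro z hz
      rcases Finset.mem_union.1 hz with hz | hz
      · obtain ⟨i, _, rfl⟩ := Finset.mem_image.1 hz
        refine Fin.lastCases ?_ (fun i => ?_) i
        · rw [Fin.snoc_last]
          exact Finset.mem_union_right _ (Finset.mem_insert_self _ _)
        · rw [Fin.snoc_castSucc]
          exact Finset.mem_union_left _ (Finset.mem_image_of_mem v (Finset.mem_univ i))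
      · exact Finset.mem_union_right _ (Finset.mem_insert_of_mem hz)
    have h1 := hZ h (fun z hz => hA z (hsub hz)) (hinj.mono (by exact_mod_cast hsub))
      (fun a ha b hb c hc => ht a (hsub ha) b (hsub hb) c (hsub hc))
    rw [BoundedFormula.realize_ex]
    refine ⟨⟨h x, hA x (Finset.mem_union_right _ (Finset.mem_insert_self _ _))⟩, ?_⟩
    convert h1 using 1
    funext i
    refine Fin.lastCases ?_ (fun i => ?_) i
    · rw [Fin.snoc_last]
      apply Subtype.ext
      simp
    · rw [Fin.snoc_castSucc]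
      apply Subtype.ext
      simp
  let Q : (m : ℕ) → LT.BoundedFormula Empty m → Prop := fun m χ =>
    ∀ v : Fin m → A, χ.Realize (M := N) default (fun i => (v i : N)) → χ.Realize default v
  have hQ0 : ∀ (m : ℕ) (χ : LT.BoundedFormula Empty m),
      (∀ P : (k : ℕ) → LT.BoundedFormula Empty k → Prop,
        (∀ (k : ℕ) (θ : LT.BoundedFormula Empty k), θ.IsQF → P k θ) →
        (∀ (k : ℕ) (θ : LT.BoundedFormula Empty (k + 1)), P (k + 1) θ → P k θ.ex) →
        P m χ) → Q m χ := by
    intro m χ hχ v hv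
    obtain ⟨Z, hZ⟩ := hχ P hP0 hP1 _ hv
    obtain ⟨h, hinj, hfix, hA, ht⟩ := hec (Finset.univ.image (fun i => (v i : N))) Z (by
      intro x hx
      simp only [Finset.coe_image, Finset.coe_univ, Set.image_univ, Set.mem_range] at hx
      obtain ⟨i, rfl⟩ := hx
      exact (v i).2)
    have h1 := hZ h hA hinj ht
    convert h1 using 1
    funext i
    apply Subtype.ext
    exact (hfix _ (Finset.mem_image_of_mem _ (Finset.mem_univ i))).symm
  have hQ1 : ∀ (m : ℕ) (χ : LT.BoundedFormula Empty (m + 1)), Q (m + 1) χ → Q m χ.all := by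
    intro m χ hχ v hv
    rw [BoundedFormula.realize_all] at hv ⊢
    intro a
    apply hχ
    convert hv (a : N) using 1
    funext i
    refine Fin.lastCases ?_ (fun i => ?_) i
    · simp
    · simp
  have hR := hσ (fun n ψ => ∀ v : Fin n → V, ψ.Realize default v →
      ψ.Realize (M := A) default (jA ∘ v)) (by
    intro n ψ hψ v hv
    apply hψ Q hQ0 hQ1
    have h1 := (ElementaryEmbedding.map_boundedFormula j ψ default v).2 hv
    have e : (default : Empty → N) = j ∘ (default : Empty → V) := funext fun x => x.elim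
    rw [e]
    exact h1) (by
    intro n ψ hψ v hv
    rw [BoundedFormula.realize_ex] at hv ⊢
    obtain ⟨x, hx⟩ := hv
    refine ⟨jA x, ?_⟩
    convert hψ _ hx using 1
    funext i
    refine Fin.lastCases ?_ (fun i => ?_) i
    · simp
    · simp)
  have h1 := hR default hV
  convert h1 using 1

theorem final (h1 : St_N0) (h2 : St_Min) (h3 : St_Sand) (h4 : St_Trans) :
    ¬ (∀ (L : FirstOrder.Language.{0, 0}) (T : L.Theory),
      T.IsComplete →
      (∀ (M : Type) [L.Structure M], M ⊨ T →
        Infinite M ∧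
          ∀ s : Set (Fin 1 → M), Set.Definable (Set.univ : Set M) L s → s.Finite ∨ sᶜ.Finite) →
      ∃ T' : L.Theory,
        (∀ σ ∈ T',
          ∀ R : (n : ℕ) → L.BoundedFormula Empty n → Prop,
            (∀ (n : ℕ) (ψ : L.BoundedFormula Empty n),
              (∀ Q : (m : ℕ) → L.BoundedFormula Empty m → Prop,
                (∀ (m : ℕ) (χ : L.BoundedFormula Empty m),
                  (∀ P : (k : ℕ) → L.BoundedFormula Empty k → Prop,
                    (∀ (k : ℕ) (θ : L.BoundedFormula Empty k), θ.IsQF → P k θ) →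
                    (∀ (k : ℕ) (θ : L.BoundedFormula Empty (k + 1)), P (k + 1) θ → P k θ.ex) →
                    P m χ) → Q m χ) →
                (∀ (m : ℕ) (χ : L.BoundedFormula Empty (m + 1)), Q (m + 1) χ → Q m χ.all) →
                Q n ψ) → R n ψ) →
            (∀ (n : ℕ) (ψ : L.BoundedFormula Empty (n + 1)), R (n + 1) ψ → R n ψ.ex) →
            R 0 σ) ∧
        (∀ σ ∈ T', Theory.ModelsBoundedFormula T σ) ∧
        (∀ σ ∈ T, Theory.ModelsBoundedFormula T' σ)) := by
  intro hall
  obtain ⟨V, H, hunc, hC, hL, hcl, hm⟩ := h1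
  have hinf : Infinite V := by
    by_contra hfin
    rw [not_infinite_iff_finite] at hfin
    exact hunc (Set.toFinite _).countable
  have hne : Nonempty V := inferInstance
  let _ : LT.Structure V := strOf H
  have hgV : Good V := good_strOf H hne hC hL hcl hm
  obtain ⟨T', hT1, hT2, hT3⟩ := hall LT (LT.completeTheory V) (completeTheory.isComplete LT V) (by
    intro M _ hM
    have hMV : V ≅[LT] M := by
      rw [elementarilyEquivalent_iff]
      intro φ
      exact (realize_iff_of_model_completeTheory V M φ).symm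
    have hMne : Nonempty M := hMV.nonempty
    have hMinf : Infinite M := hMV.infinite
    exact ⟨hMinf, h2 M (h4 V M hMV hMne hgV) hMinf⟩)
  obtain ⟨N, sN, j, A, hjA, ⟨a, haA, ha⟩, hec⟩ := h3 V hgV hunc
  let _ : LT.Structure A := indS A
  have hAne : Nonempty A := ⟨⟨a, haA⟩⟩
  have hAT' : A ⊨ T' := by
    refine ⟨fun σ hσ => ?_⟩
    have hVσ : V ⊨ (show LT.Sentence from σ) :=
      Theory.ModelsBoundedFormula.realize_sentence (hT2 σ hσ) V
    exact eae_transfer j A hjA hec σ (hT1 σ hσ) hVσ
  have hmate : mateS ∈ LT.completeTheory V := (mateS_iff V).2 hgV.mate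
  have hAm : A ⊨ mateS := (hT3 mateS hmate).realize_sentence A
  obtain ⟨y, hy, hz⟩ := (mateS_iff A).1 hAm ⟨a, haA⟩
  obtain ⟨z, hzA, hzt⟩ := ha y y.2 (fun e => hy (Subtype.ext e))
  exact hz ⟨z, hzA⟩ ((tri_ind A _ _ _).2 hzt)

end H912SM
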