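import Pool.Agent.H912R2.SM.Stm
import Pool.Agent.H912R2.SM.Basic2

/-!
# Free points exist in every uncountable set (helper501)
-/

set_option autoImplicit false

open scoped Classical

namespace H912SM

variable {V : Type}

instance free_countable_code : Countable Code := by
  let F : Code → (Σ n : ℕ, Σ m : ℕ, Finset (Finset (Fin n ⊕ Fin m))) := fun α => ⟨α.n, α.m, α.E⟩
  have hF : Function.Injective F := by
    intro α β h
    cases α with
    | mk n m E _ _ _ _ _ _ =>
      cases β with
      | mk n' m' E' _ _ _ _ _ _ =>
        simp only [F, Sigma.mk.injEq] at h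
        obtain ⟨rfl, h⟩ := h
        have h := eq_of_heq h
        simp only [Sigma.mk.injEq] at h
        obtain ⟨rfl, h⟩ := h
        have h := eq_of_heq h
        subst h
        rfl
  exact hF.countable

/-- finitely many copies over a base in a strong set -/
theorem free_fin_ran {H : Set (Finset V)} (hC : InC H Set.univ) {Y : Finset V}
    (hY : Strong H (Y : Set V) Set.univ) (α : Code) (b : Fin α.m → V) (hb : ∀ j, b j ∈ Y) :
    {R : Finset V | ∃ f : Fin α.n → V, Cop H α b f ∧ (∀ k, f k ∉ Y) ∧ R = ran f}.Finite := by
  by_contra hinf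
  have hinf : {R : Finset V | ∃ f : Fin α.n → V, Cop H α b f ∧ (∀ k, f k ∉ Y) ∧
    R = ran f}.Infinite := hinf
  set e := hinf.natEmbedding with he
  have hex : ∀ i : ℕ, ∃ f : Fin α.n → V, Cop H α b f ∧ (∀ k, f k ∉ Y) ∧ ((e i : Finset V)) = ran f :=
    fun i => (e i).2
  choose F hF1 hF2 hF3 using hex
  refine hC.k6 α ⟨b, fun i => F i, fun j => Set.mem_univ _, fun i k => Set.mem_univ _,
    fun i => hF1 i, ?_⟩
  intro i j hij k l hkl
  have hs := strong_union_copy hY (hF1 i) (fun j => hb j) (fun k => Set.mem_univ _)
  rcases strong_copy hs (hF1 j) (fun j => Or.inl (hb j)) (fun k => Set.mem_univ _) with h | h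
  · have h1 : ran (F j) ⊆ ran (F i) := by
      intro v hv
      obtain ⟨k, rfl⟩ := mem_ran.1 hv
      rcases h k with h2 | h2
      · exact absurd h2 (hF2 j k)
      · exact mem_ran.2 h2
    have h2 : ran (F j) = ran (F i) := Finset.eq_of_subset_of_card_le h1 (by
      rw [card_ran (hF1 i).inj_f, card_ran (hF1 j).inj_f])
    rw [← hF3, ← hF3] at h2
    have h3 := e.injective (Subtype.ext h2)
    exact hij (Fin.ext h3.symm)
  · exact h l (Or.inr ⟨k, hkl⟩)

/-- one step extensions by copies -/
def FreeNx (H : Set (Finset V)) (Y : Finset V) : Set (Finset V) :=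
  {Y' | ∃ (α : Code) (b : Fin α.m → V) (f : Fin α.n → V), (∀ j, b j ∈ Y) ∧ Cop H α b f ∧
    (∀ k, f k ∉ Y) ∧ Y' = Y ∪ ran f}

theorem free_nx_countable {H : Set (Finset V)} (hC : InC H Set.univ) {Y : Finset V}
    (hY : Strong H (Y : Set V) Set.univ) : (FreeNx H Y).Countable := by
  have h1 : FreeNx H Y ⊆ ⋃ α : Code, ⋃ b : Fin α.m → Y, (fun R => Y ∪ R) ''
      {R : Finset V | ∃ f : Fin α.n → V, Cop H α (fun j => (b j : V)) f ∧ (∀ k, f k ∉ Y) ∧
        R = ran f} := by
    rintro Y' ⟨α, b, f, hb, hf, hfY, rfl⟩
    simp only [Set.mem_iUnion]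
    exact ⟨α, fun j => ⟨b j, hb j⟩, ran f, ⟨f, hf, hfY, rfl⟩, rfl⟩
  refine Set.Countable.mono h1 ?_
  refine Set.countable_iUnion fun α => Set.countable_iUnion fun b => ?_
  exact ((free_fin_ran hC hY α _ (fun j => (b j).2)).image _).countable

/-- the iterated extensions -/
def FreeCC (H : Set (Finset V)) (X : Finset V) : ℕ → Set (Finset V)
  | 0 => {X}
  | i + 1 => ⋃ Y ∈ FreeCC H X i, FreeNx H Y

theorem free_cc_strong {H : Set (Finset V)} {X : Finset V}
    (hX : Strong H (X : Set V) Set.univ) (i : ℕ) : ∀ Y ∈ FreeCC H X i,
      Strong H (Y : Set V) Set.univ := by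
  induction i with
  | zero =>
    intro Y hY
    have hY : Y = X := hY
    rw [hY]
    exact hX
  | succ i ih =>
    intro Y' hY'
    simp only [FreeCC, Set.mem_iUnion] at hY'
    obtain ⟨Y, hY, α, b, f, hb, hf, hfY, rfl⟩ := hY'
    have := strong_union_copy (ih Y hY) hf (fun j => hb j) (fun k => Set.mem_univ _)
    rw [Finset.coe_union, coe_ran]
    exact this

theorem free_cc_countable {H : Set (Finset V)} (hC : InC H Set.univ) {X : Finset V}
    (hX : Strong H (X : Set V) Set.univ) (i : ℕ) : (FreeCC H X i).Countable := by
  induction i with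
  | zero => exact Set.countable_singleton X
  | succ i ih =>
    refine ih.biUnion fun Y hY => free_nx_countable hC (free_cc_strong hX i Y hY)

theorem st_Free (h : St_Decomp) : St_Free := by
  intro V H D hC hD X hX
  have hCL : (⋃ i : ℕ, ⋃ Y ∈ FreeCC H X i, (Y : Set V)).Countable := by
    refine Set.countable_iUnion fun i => (free_cc_countable hC hX i).biUnion fun Y _ => ?_
    exact Y.countable_toSet
  obtain ⟨c, hcD, hcC⟩ : ∃ c ∈ D, c ∉ ⋃ i : ℕ, ⋃ Y ∈ FreeCC H X i, (Y : Set V) := by
    by_contra hcon
    push Not at hcon
    exact hD (hCL.mono hcon)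
  have hcC' : ∀ i, ∀ Y ∈ FreeCC H X i, c ∉ Y := by
    intro i Y hY hc
    apply hcC
    simp only [Set.mem_iUnion]
    exact ⟨i, Y, hY, hc⟩
  have hcX : c ∉ X := hcC' 0 X rfl
  -- key inequality
  have key : ∀ W : Finset V, insert c X ⊆ W → dl H X + 1 ≤ dl H W := by
    intro W hW
    by_contra hcon
    push Not at hcon
    have hXW : X ⊆ W := (Finset.subset_insert _ _).trans hW
    have h1 : dl H X ≤ dl H W := hX.le_of_subset hXW (Set.subset_univ _)
    have h2 : dl H W = dl H X := by linarith
    have claim : ∀ n : ℕ, ∀ i : ℕ, ∀ Y ∈ FreeCC H X i, X ⊆ Y → Y ⊆ W → (W \ Y).card ≤ n →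
        ∃ i, W ∈ FreeCC H X i := by
      intro n
      induction n with
      | zero =>
        intro i Y hY hXY hYW hn
        have h3 : W \ Y = ∅ := by
          rw [← Finset.card_eq_zero]
          omega
        have h4 : W = Y := Finset.Subset.antisymm (Finset.sdiff_eq_empty_iff_subset.1 h3) hYW
        exact ⟨i, by rw [h4]; exact hY⟩
      | succ n ih =>
        intro i Y hY hXY hYW hn
        by_cases hYW' : Y = W
        · exact ⟨i, by rw [← hYW']; exact hY⟩
        have hYs := free_cc_strong hX i Y hY
        have hYs' : Strong H (Y : Set V) (W : Set V) :=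
          hYs.mono (Finset.coe_subset.2 hYW) (Set.subset_univ _)
        rcases h V H Y W hYW hYW' hYs' (fun e he _ => hC.k1 e he (Set.subset_univ _)) with
          ⟨c', hc'W, hc'Y, hs, hne⟩ | ⟨α, b, f, hb, hfW, hfY, hcop, _, hs⟩
        · exfalso
          have h3 : dl H (insert c' Y) = dl H Y + 1 := by
            have h4 := dl_eq_of_edges (H := H) (X := Y) (Z := insert c' Y)
              (Finset.subset_insert _ _) ∅ (by
                intro e
                constructor
                · intro he
                  simp at he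
                · rintro ⟨he1, he2, he3⟩
                  exact absurd (hne e he1 he2) he3)
            rw [h4]
            have h5 : (insert c' Y) \ Y = {c'} := by
              ext v
              simp only [Finset.mem_sdiff, Finset.mem_insert, Finset.mem_singleton]
              constructor
              · rintro ⟨h6 | h6, h7⟩
                · exact h6
                · exact absurd h6 h7
              · rintro rfl
                exact ⟨Or.inl rfl, hc'Y⟩
            rw [h5]
            simp
          have h6 : dl H (insert c' Y) ≤ dl H W :=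
            hs.le_of_subset (Finset.insert_subset hc'W hYW) subset_rfl
          have h7 : dl H X ≤ dl H Y := hX.le_of_subset hXY (Set.subset_univ _)
          linarith
        · have hmem : Y ∪ ran f ∈ FreeCC H X (i + 1) := by
            simp only [FreeCC, Set.mem_iUnion]
            exact ⟨Y, hY, α, b, f, hb, hcop, hfY, rfl⟩
          have hsub : Y ∪ ran f ⊆ W := by
            apply Finset.union_subset hYW
            intro v hv
            obtain ⟨k, rfl⟩ := mem_ran.1 hv
            exact hfW k
          refine ih (i + 1) _ hmem (hXY.trans Finset.subset_union_left) hsub ?_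
          have hlt : (W \ (Y ∪ ran f)).card < (W \ Y).card := by
            apply Finset.card_lt_card
            rw [Finset.ssubset_iff_subset_ne]
            refine ⟨Finset.sdiff_subset_sdiff subset_rfl Finset.subset_union_left, ?_⟩
            intro h8
            have h9 : f ⟨0, α.npos⟩ ∈ W \ Y := Finset.mem_sdiff.2 ⟨hfW _, hfY _⟩
            rw [← h8, Finset.mem_sdiff] at h9
            exact h9.2 (Finset.mem_union_right _ (apply_mem_ran f _))
          omega
    obtain ⟨i, hi⟩ := claim _ 0 X rfl subset_rfl hXW le_rfl
    exact hcC' i W hi (hW (Finset.mem_insert_self _ _))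
  refine ⟨c, hcD, hcX, ?_, ?_⟩
  · apply strong_of_le_union (Set.subset_univ _)
    intro Z _
    have h1 := dl_insert_le H c X
    have h2 := key (insert c X ∪ Z) Finset.subset_union_left
    linarith
  · intro e he hes
    by_contra hcon
    have h1 := dl_le_of_edges (H := H) (X := X) (Z := insert c X) (Finset.subset_insert _ _) {e} (by
      intro e' he'
      rw [Finset.mem_singleton] at he'
      subst he'
      exact ⟨he, hes, hcon⟩)
    have h2 := key (insert c X) subset_rfl
    have h3 : ((insert c X) \ X).card ≤ 1 := by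
      have h4 : (insert c X) \ X ⊆ {c} := by
        intro v hv
        simp only [Finset.mem_sdiff, Finset.mem_insert] at hv
        rcases hv with ⟨h6 | h6, h7⟩
        · exact Finset.mem_singleton.2 h6
        · exact absurd h6 h7
      exact (Finset.card_le_card h4).trans (by simp)
    rw [Finset.card_singleton] at h1
    zify at h3
    push_cast at h1
    linarith

end H912SM
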