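import Pool.Agent.H912R2.SM.Basic2
import Pool.Agent.H912R2.SM.Stm

/-!
# Maximal structures (Zorn): `st_Max : St_Max`
-/

set_option autoImplicit false

open scoped Classical

namespace H912SM

/-- the universe of formal points: free points and points of formal copies of codes -/
inductive Om : Type
  | pt : ℝ → Om
  | blk : (α : Code) → (Fin α.m → Om) → ℕ → Fin α.n → Om

/-- a block: a code, a base and an index -/
abbrev Blk : Type := Σ α : Code, (Fin α.m → Om) × ℕ

/-- the points of a block -/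
def pts (t : Blk) : Fin t.1.n → Om := fun k => Om.blk t.1 t.2.1 t.2.2 k

/-- the base of a block -/
def bas (t : Blk) : Fin t.1.m → Om := t.2.1

/-- the enumeration of the points of a block together with its base -/
def elm (t : Blk) : Fin t.1.n ⊕ Fin t.1.m → Om := Sum.elim (pts t) (bas t)

/-- the block of a point -/
def Om.key : Om → Option Blk
  | Om.pt _ => none
  | Om.blk α b j _ => some ⟨α, b, j⟩

/-- the block of a point and its number in the block -/
def Om.key' : Om → Option (Σ t : Blk, Fin t.1.n)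
  | Om.pt _ => none
  | Om.blk α b j k => some ⟨⟨α, b, j⟩, k⟩

theorem key_pts (t : Blk) (k : Fin t.1.n) : (pts t k).key = some t := rfl

theorem key'_pts (t : Blk) (k : Fin t.1.n) : (pts t k).key' = some ⟨t, k⟩ := rfl

theorem pts_eq {t t' : Blk} {k : Fin t.1.n} {k' : Fin t'.1.n} (h : pts t k = pts t' k') :
    t = t' := by
  have := congrArg Om.key h
  rw [key_pts, key_pts] at this
  exact Option.some.inj this

theorem pts_inj (t : Blk) : Function.Injective (pts t) := by
  intro k k' h
  have := congrArg Om.key' h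
  rw [key'_pts, key'_pts] at this
  have h2 := Option.some.inj this
  simpa using h2

theorem pts_ne_pt (t : Blk) (k : Fin t.1.n) (r : ℝ) : pts t k ≠ Om.pt r := by
  intro h
  have := congrArg Om.key h
  rw [key_pts] at this
  exact absurd this (by simp [Om.key])

theorem noncyc (x : Om) : ∀ (t : Blk) (k : Fin t.1.n) (i : Fin t.1.m), x = pts t k →
    bas t i ≠ x := by
  induction x with
  | pt r =>
    intro t k i h
    exact absurd h.symm (pts_ne_pt t k r)
  | blk α b j k ih =>
    intro t k' i h hi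
    have h1 : (⟨α, b, j⟩ : Blk) = t := pts_eq (t := ⟨α, b, j⟩) (k := k) (k' := k') h
    subst h1
    exact ih i ⟨α, b, j⟩ k' i (hi.trans h) rfl

theorem elm_inj {t : Blk} (h : Function.Injective (bas t)) : Function.Injective (elm t) := by
  intro x y hxy
  rcases x with k | i <;> rcases y with k' | i'
  · exact congrArg Sum.inl (pts_inj t hxy)
  · exact absurd (show bas t i' = pts t k from hxy.symm) (noncyc _ t k i' rfl)
  · exact absurd (show bas t i = pts t k' from hxy) (noncyc _ t k' i rfl)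
  · exact congrArg Sum.inr (h hxy)

/-- the carrier of a set of blocks -/
def car (J : Set Blk) : Set Om := Set.range Om.pt ∪ {x | ∃ t ∈ J, ∃ k, x = pts t k}

/-- the edges of a set of blocks -/
def HJ (J : Set Blk) : Set (Finset Om) := {e | ∃ t ∈ J, ∃ e' ∈ t.1.E, e = e'.image (elm t)}

/-- admissible sets of blocks -/
def Adm (J : Set Blk) : Prop :=
  (∀ t ∈ J, Function.Injective (bas t) ∧ ∀ i, bas t i ∈ car J) ∧ InC (HJ J) (car J)

theorem car_mono {J J' : Set Blk} (h : J ⊆ J') : car J ⊆ car J' := by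
  rintro x (hx | ⟨t, ht, k, rfl⟩)
  · exact Or.inl hx
  · exact Or.inr ⟨t, h ht, k, rfl⟩

theorem HJ_mono {J J' : Set Blk} (h : J ⊆ J') : HJ J ⊆ HJ J' := by
  rintro e ⟨t, ht, e', he', rfl⟩
  exact ⟨t, h ht, e', he', rfl⟩

theorem pts_mem_car {J : Set Blk} {t : Blk} {k : Fin t.1.n} : pts t k ∈ car J ↔ t ∈ J := by
  constructor
  · rintro (⟨r, hr⟩ | ⟨t', ht', k', h⟩)
    · exact absurd hr.symm (pts_ne_pt t k r)
    · rw [pts_eq h]
      exact ht'
  · intro h
    exact Or.inr ⟨t, h, k, rfl⟩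

theorem elm_mem_car {J : Set Blk} {t : Blk} (ht : t ∈ J) (hb : ∀ i, bas t i ∈ car J)
    (x : Fin t.1.n ⊕ Fin t.1.m) : elm t x ∈ car J := by
  rcases x with k | i
  · exact pts_mem_car.2 ht
  · exact hb i

theorem Adm.edge_sub {J : Set Blk} (h : Adm J) {e : Finset Om} (he : e ∈ HJ J) :
    (e : Set Om) ⊆ car J := by
  obtain ⟨t, ht, e', he', rfl⟩ := he
  intro x hx
  obtain ⟨y, _, rfl⟩ := Finset.mem_image.1 (Finset.mem_coe.1 hx)
  exact elm_mem_car ht (h.1 t ht).2 y

theorem Code.E_nonempty (α : Code) : α.E.Nonempty := by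
  rw [← Finset.card_pos, α.hcard]
  exact α.npos

/-- the class is local -/
theorem InC.of_local {V : Type} {H : Set (Finset V)} {S : Set V}
    (h : ∀ (P : Finset V) (E : Finset (Finset V)), (P : Set V) ⊆ S → (E : Set (Finset V)) ⊆ H →
      ∃ (H0 : Set (Finset V)) (S0 : Set V), H0 ⊆ H ∧ (P : Set V) ⊆ S0 ∧
        (E : Set (Finset V)) ⊆ H0 ∧ InC H0 S0) : InC H S where
  k1 := by
    intro e he heS
    obtain ⟨H0, S0, h1, h2, h3, h4⟩ := h e {e} heS (by
      intro x hx
      rw [Finset.coe_singleton, Set.mem_singleton_iff] at hx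
      rw [hx]; exact he)
    exact h4.k1 e (h3 (by simp)) h2
  k4 := by
    intro e he f hf hfS hef
    obtain ⟨H0, S0, h1, h2, h3, h4⟩ := h f {e, f} hfS (by
      intro x hx
      rw [Finset.coe_insert, Finset.coe_singleton, Set.mem_insert_iff,
        Set.mem_singleton_iff] at hx
      rcases hx with rfl | rfl
      · exact he
      · exact hf)
    exact h4.k4 e (h3 (by simp)) f (h3 (by simp)) h2 hef
  k5 := by
    intro X hX
    obtain ⟨H0, S0, h1, h2, h3, h4⟩ := h X (edg H X) hX (by
      intro e he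
      exact (mem_edg.1 (Finset.mem_coe.1 he)).2)
    have h5 := h4.k5 X h2
    rwa [dl_congr (H := H) (H' := H0) (X := X) (fun e he => ⟨fun h6 => h1 h6,
      fun h6 => h3 (Finset.mem_coe.2 (mem_edg.2 ⟨he, h6⟩))⟩)] at h5
  k6 := by
    rintro α ⟨b, F, hb, hF, hC, hd⟩
    obtain ⟨H0, S0, h1, h2, h3, h4⟩ := h (ran b ∪ Finset.univ.biUnion (fun i => ran (F i)))
      (Finset.univ.biUnion (fun i => imE α b (F i))) (by
        intro v hv
        rcases Finset.mem_union.1 (Finset.mem_coe.1 hv) with hv | hv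
        · obtain ⟨j, rfl⟩ := mem_ran.1 hv
          exact hb j
        · obtain ⟨i, _, hv⟩ := Finset.mem_biUnion.1 hv
          obtain ⟨k, rfl⟩ := mem_ran.1 hv
          exact hF i k) (by
        intro e he
        obtain ⟨i, _, he⟩ := Finset.mem_biUnion.1 (Finset.mem_coe.1 he)
        obtain ⟨e', he', rfl⟩ := mem_imE.1 he
        exact (hC i).2 e' he')
    refine h4.k6 α ⟨b, F, ?_, ?_, ?_, hd⟩
    · intro j
      exact h2 (Finset.mem_coe.2 (Finset.mem_union_left _ (apply_mem_ran b j)))
    · intro i k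
      exact h2 (Finset.mem_coe.2 (Finset.mem_union_right _
        (Finset.mem_biUnion.2 ⟨i, Finset.mem_univ _, apply_mem_ran (F i) k⟩)))
    · intro i
      refine ⟨(hC i).1, fun e he => h3 (Finset.mem_coe.2 (Finset.mem_biUnion.2
        ⟨i, Finset.mem_univ _, mem_imE.2 ⟨e, he, rfl⟩⟩))⟩

theorem InC.of_empty {V : Type} (S : Set V) : InC (∅ : Set (Finset V)) S where
  k1 := fun e he => absurd he (Set.notMem_empty e)
  k4 := fun e he => absurd he (Set.notMem_empty e)
  k5 := by
    intro X _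
    have : edg (∅ : Set (Finset V)) X = ∅ := by
      ext e
      simp [mem_edg]
    unfold dl
    rw [this]
    simp
  k6 := by
    rintro α ⟨b, F, hb, hF, hC, hd⟩
    obtain ⟨e, he⟩ := α.E_nonempty
    exact absurd ((hC 0).2 e he) (Set.notMem_empty _)

theorem adm_empty : Adm ∅ := by
  refine ⟨fun t ht => absurd ht (Set.notMem_empty t), ?_⟩
  have : HJ ∅ = ∅ := by
    ext e
    simp [HJ]
  rw [this]
  exact InC.of_empty _

theorem adm_sUnion {c : Set (Set Blk)} (hc : IsChain (· ⊆ ·) c) (hn : c.Nonempty)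
    (hA : ∀ J ∈ c, Adm J) : Adm (⋃₀ c) := by
  have hsub : ∀ J ∈ c, J ⊆ ⋃₀ c := fun J hJ => Set.subset_sUnion_of_mem hJ
  refine ⟨?_, ?_⟩
  · rintro t ⟨J, hJ, ht⟩
    exact ⟨((hA J hJ).1 t ht).1, fun i => car_mono (hsub J hJ) (((hA J hJ).1 t ht).2 i)⟩
  · apply InC.of_local
    intro P E hP hE
    have hd1 : DirectedOn (fun i j => car i ⊆ car j) c := by
      intro a ha b hb
      rcases hc.total ha hb with h | h
      · exact ⟨b, hb, car_mono h, subset_rfl⟩
      · exact ⟨a, ha, subset_rfl, car_mono h⟩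
    have hd2 : DirectedOn (fun i j => HJ i ⊆ HJ j) c := by
      intro a ha b hb
      rcases hc.total ha hb with h | h
      · exact ⟨b, hb, HJ_mono h, subset_rfl⟩
      · exact ⟨a, ha, subset_rfl, HJ_mono h⟩
    obtain ⟨J1, hJ1, hP1⟩ := DirectedOn.exists_mem_subset_of_finset_subset_biUnion hn hd1
      (s := P) (by
        intro x hx
        obtain ⟨J0, hJ0⟩ := hn
        rcases hP hx with h | ⟨t, ⟨J, hJ, ht⟩, k, rfl⟩
        · exact Set.mem_biUnion hJ0 (Or.inl h)
        · exact Set.mem_biUnion hJ (Or.inr ⟨t, ht, k, rfl⟩))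
    obtain ⟨J2, hJ2, hE2⟩ := DirectedOn.exists_mem_subset_of_finset_subset_biUnion hn hd2
      (s := E) (by
        intro x hx
        obtain ⟨t, ⟨J, hJ, ht⟩, e', he', rfl⟩ := hE hx
        exact Set.mem_biUnion hJ ⟨t, ht, e', he', rfl⟩)
    rcases hc.total hJ1 hJ2 with h | h
    · exact ⟨HJ J2, car J2, HJ_mono (hsub J2 hJ2), hP1.trans (car_mono h), hE2, (hA J2 hJ2).2⟩
    · exact ⟨HJ J1, car J1, HJ_mono (hsub J1 hJ1), hP1, hE2.trans (HJ_mono h), (hA J1 hJ1).2⟩

theorem car_insert (J : Set Blk) (t : Blk) : car (insert t J) = car J ∪ Set.range (pts t) := by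
  ext x
  constructor
  · rintro (h | ⟨t', ht', k, rfl⟩)
    · exact Or.inl (Or.inl h)
    · rcases ht' with rfl | ht'
      · exact Or.inr ⟨k, rfl⟩
      · exact Or.inl (Or.inr ⟨t', ht', k, rfl⟩)
  · rintro (h | ⟨k, rfl⟩)
    · exact car_mono (Set.subset_insert t J) h
    · exact Or.inr ⟨t, Set.mem_insert _ _, k, rfl⟩

/-- maximal structures exist -/
theorem st_Max : St_Max := by
  obtain ⟨J, hJ⟩ := zorn_subset {J : Set Blk | Adm J} (by
    intro c hcS hc
    rcases c.eq_empty_or_nonempty with rfl | hn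
    · exact ⟨∅, adm_empty, fun s hs => absurd hs (Set.notMem_empty s)⟩
    · exact ⟨⋃₀ c, adm_sUnion hc hn hcS, fun s hs => Set.subset_sUnion_of_mem hs⟩)
  have hA : Adm J := hJ.1
  refine ⟨Om, HJ J, car J, fun e he => hA.edge_sub he, ?_, hA.2, ?_⟩
  · intro hcount
    have h1 : (Om.pt '' Set.univ).Countable := by
      rw [Set.image_univ]
      exact hcount.mono Set.subset_union_left
    have h2 : (Set.univ : Set ℝ).Countable :=
      Set.countable_of_injective_of_countable_image (fun x _ y _ h => by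
        simpa using h) h1
    exact Cardinal.not_countable_real h2
  · intro α b hb hbS
    obtain ⟨j, hj⟩ : ∃ j : ℕ, (⟨α, b, j⟩ : Blk) ∉ J := by
      by_contra hcon
      push Not at hcon
      refine hA.2.k6 α ⟨b, fun i => pts ⟨α, b, (i : ℕ)⟩, hbS, ?_, ?_, ?_⟩
      · intro i k
        exact pts_mem_car.2 (hcon i)
      · intro i
        refine ⟨elm_inj (t := ⟨α, b, (i : ℕ)⟩) hb, fun e he => ?_⟩
        exact ⟨⟨α, b, (i : ℕ)⟩, hcon i, e, he, rfl⟩
      · intro i i' hii k l h
        have h1 := pts_eq (t := ⟨α, b, (i : ℕ)⟩) (t' := ⟨α, b, (i' : ℕ)⟩) h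
        apply hii
        apply Fin.ext
        simpa using h1
    set t : Blk := ⟨α, b, j⟩ with ht
    refine ⟨HJ (insert t J), pts t, HJ_mono (Set.subset_insert t J), ?_, ?_, ?_, ?_, ?_⟩
    · rintro e ⟨t', ht', e', he', rfl⟩ heS
      rcases ht' with rfl | ht'
      · exfalso
        obtain ⟨k, hk⟩ := α.hmeet e' he'
        have h1 : pts t k ∈ car J := heS (Finset.mem_coe.2 (Finset.mem_image.2 ⟨Sum.inl k, hk, rfl⟩))
        exact hj (pts_mem_car.1 h1)
      · exact ⟨t', ht', e', he', rfl⟩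
    · intro k hk
      exact hj (pts_mem_car.1 hk)
    · exact ⟨elm_inj (t := t) hb, fun e he => ⟨t, Set.mem_insert _ _, e, he, rfl⟩⟩
    · rintro e ⟨t', ht', e', he', rfl⟩ _
      rcases ht' with rfl | ht'
      · exact Or.inr ⟨e', he', rfl⟩
      · exact Or.inl (hA.edge_sub ⟨t', ht', e', he', rfl⟩)
    · intro hC
      have hC' : InC (HJ (insert t J)) (car (insert t J)) := by
        rw [car_insert]
        exact hC
      have hA' : Adm (insert t J) := by
        refine ⟨?_, hC'⟩
        rintro t' ht'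
        rcases ht' with rfl | ht'
        · exact ⟨hb, fun i => car_mono (Set.subset_insert _ _) (hbS i)⟩
        · exact ⟨(hA.1 t' ht').1, fun i => car_mono (Set.subset_insert _ _) ((hA.1 t' ht').2 i)⟩
      exact hj (hJ.2 hA' (Set.subset_insert t J) (Set.mem_insert _ _))

end H912SM
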