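import Pool.Agent.H912R2.SM.Stm
import Pool.Agent.H912R2.SM.Basic2

/-!
# Strong minimality (module T10 of the disproof for MP_1b3a35_lc)
-/

set_option autoImplicit false

open scoped Classical
open FirstOrder FirstOrder.Language

namespace H912SM

/-- the ultrapower over `ℕ` -/
abbrev UP (M : Type) : Type :=
  ((Filter.hyperfilter ℕ : Ultrafilter ℕ) : Filter ℕ).Product (fun _ => M)

/-- the class of a sequence -/
noncomputable def upMk {M : Type} (a : ℕ → M) : UP M := (a : UP M)

theorem upMk_eq {M : Type} {a b : ℕ → M} :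
    upMk a = upMk b ↔ ∀ᶠ n in ((Filter.hyperfilter ℕ : Ultrafilter ℕ) : Filter ℕ), a n = b n :=
  Quotient.eq''

/-- the diagonal elementary embedding -/
noncomputable def diagEmb (M : Type) [LT.Structure M] [Nonempty M] : M ↪ₑ[LT] UP M where
  toFun m := upMk (fun _ => m)
  map_formula' := by
    intro n φ x
    have h := Ultraproduct.realize_formula_cast (L := LT) (M := fun _ : ℕ => M)
      (u := Filter.hyperfilter ℕ) φ (fun i _ => x i)
    refine Iff.trans h ?_
    simp

theorem diagEmb_apply (M : Type) [LT.Structure M] [Nonempty M] (m : M) :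
    diagEmb M m = upMk (fun _ => m) := rfl

/-- an uncountable elementary extension realising a formula and its negation outside of `M` -/
theorem exists_ext (M : Type) [LT.Structure M] [Infinite M] (s : Set (Fin 1 → M))
    (φ : LT.Formula ((Set.univ : Set M) ⊕ Fin 1))
    (hs : s = {v | φ.Realize (Sum.elim (↑) v)}) (h1 : s.Infinite) (h2 : sᶜ.Infinite) :
    ∃ (N : Type) (_ : LT.Structure N) (j : M ↪ₑ[LT] N) (c c' : N),
      ¬ (Set.univ : Set N).Countable ∧ c ∉ Set.range j ∧ c' ∉ Set.range j ∧
      φ.Realize (Sum.elim (fun m : (Set.univ : Set M) => j m) (fun _ => c)) ∧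
      ¬ φ.Realize (Sum.elim (fun m : (Set.univ : Set M) => j m) (fun _ => c')) := by
  -- the two points in the ultrapower
  have key : ∀ (t : Set (Fin 1 → M)), t.Infinite → ∃ a : ℕ → M,
      (∀ n, (fun _ => a n : Fin 1 → M) ∈ t) ∧ upMk a ∉ Set.range (diagEmb M) := by
    intro t ht
    obtain ⟨f⟩ : Nonempty (ℕ ↪ t) := ⟨Set.Infinite.natEmbedding t ht⟩
    refine ⟨fun n => (f n : Fin 1 → M) 0, fun n => ?_, ?_⟩
    · have : (fun _ => (f n : Fin 1 → M) 0 : Fin 1 → M) = (f n : Fin 1 → M) := by
        funext i
        rw [Subsingleton.elim i 0]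
      rw [this]
      exact (f n).2
    · rintro ⟨m, hm⟩
      rw [diagEmb_apply, upMk_eq] at hm
      have hfin : {n : ℕ | m = (f n : Fin 1 → M) 0}.Finite := by
        apply Set.Subsingleton.finite
        intro n hn n' hn'
        apply f.injective
        apply Subtype.ext
        funext i
        rw [Subsingleton.elim i 0]
        exact hn.symm.trans hn'
      have h3 := hfin.notMem_hyperfilter
      exact h3 hm
  obtain ⟨a, ha1, ha2⟩ := key s h1
  obtain ⟨a', ha1', ha2'⟩ := key sᶜ h2
  -- realisation in the ultrapower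
  have hr : ∀ b : ℕ → M, φ.Realize (Sum.elim (fun m : (Set.univ : Set M) => diagEmb M m)
      (fun _ => upMk b)) ↔ ∀ᶠ n in ((Filter.hyperfilter ℕ : Ultrafilter ℕ) : Filter ℕ),
        (fun _ => b n : Fin 1 → M) ∈ s := by
    intro b
    have h := Ultraproduct.realize_formula_cast (L := LT) (M := fun _ : ℕ => M)
      (u := Filter.hyperfilter ℕ) φ
      (Sum.elim (fun m : (Set.univ : Set M) => fun _ : ℕ => (m : M)) (fun _ => b))
    have e1 : (fun i : (Set.univ : Set M) ⊕ Fin 1 => upMk ((Sum.elim
        (fun m : (Set.univ : Set M) => fun _ : ℕ => (m : M)) (fun _ => b)) i)) =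
        (Sum.elim (fun m : (Set.univ : Set M) => diagEmb M m) (fun _ => upMk b)) := by
      funext i
      rcases i with i | i <;> rfl
    rw [← e1]
    refine Iff.trans h ?_
    apply Filter.eventually_congr
    refine Filter.Eventually.of_forall fun n => ?_
    rw [hs, Set.mem_ofPred_eq]
    have e2 : (fun i : (Set.univ : Set M) ⊕ Fin 1 => (Sum.elim
        (fun m : (Set.univ : Set M) => fun _ : ℕ => (m : M)) (fun _ => b)) i n) =
        Sum.elim (fun m : (Set.univ : Set M) => (m : M)) (fun _ => b n) := by
      funext i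
      rcases i with i | i <;> rfl
    rw [e2]
  -- an uncountable extension
  have : Infinite (UP M) := Infinite.of_injective _ (diagEmb M).injective
  obtain ⟨N, ⟨j2⟩, hN⟩ := exists_elementaryEmbedding_card_eq_of_ge LT (UP M)
    (max LT.card (2 ^ Cardinal.mk (UP M))) (by simp) (by
      rw [Cardinal.lift_id, Cardinal.lift_id]
      exact (Cardinal.cantor _).le.trans (le_max_right _ _))
  have hr2 : ∀ b : ℕ → M, φ.Realize (Sum.elim (fun m : (Set.univ : Set M) => j2 (diagEmb M m))
      (fun _ => j2 (upMk b))) ↔ φ.Realize (Sum.elim (fun m : (Set.univ : Set M) => diagEmb M m)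
      (fun _ => upMk b)) := by
    intro b
    rw [← j2.map_formula φ]
    have : (j2 ∘ (Sum.elim (fun m : (Set.univ : Set M) => diagEmb M m)
      (fun _ : Fin 1 => upMk b))) = (Sum.elim (fun m : (Set.univ : Set M) => j2 (diagEmb M m))
      (fun _ : Fin 1 => j2 (upMk b))) := by
      funext i
      rcases i with i | i <;> rfl
    rw [this]
  refine ⟨N, inferInstance, j2.comp (diagEmb M), j2 (upMk a), j2 (upMk a'), ?_, ?_, ?_, ?_, ?_⟩
  · intro hc
    have h3 : Cardinal.mk N ≤ Cardinal.aleph0 := by
      rw [Cardinal.mk_le_aleph0_iff]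
      exact Set.countable_univ_iff.1 hc
    rw [hN] at h3
    have h4 := (le_max_right LT.card (2 ^ Cardinal.mk (UP M))).trans h3
    have h5 := (Cardinal.cantor (Cardinal.mk (UP M))).trans_le h4
    exact absurd (Cardinal.aleph0_le_mk (UP M)) (not_le.2 h5)
  · rintro ⟨m, hm⟩
    exact ha2 ⟨m, j2.injective hm⟩
  · rintro ⟨m, hm⟩
    exact ha2' ⟨m, j2.injective hm⟩
  · exact (hr2 a).2 ((hr a).2 (Filter.Eventually.of_forall ha1))
  · intro h
    have h3 := (hr a').1 ((hr2 a').1 h)
    have h4 := h3.exists
    obtain ⟨n, hn⟩ := h4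
    exact ha1' n hn

/-- points outside of an elementary submodel are free over strong finite subsets of it -/
theorem free_over {N : Type} {H : Set (Finset N)} {R : Set N}
    (hR : ∀ Z : Finset N, ¬ ((Z : Set N) ⊆ R) → dl H (Z.filter (fun v => v ∈ R)) + 1 ≤ dl H Z)
    {X : Finset N} (hXR : (X : Set N) ⊆ R) (hX : Strong H (X : Set N) Set.univ) {c : N}
    (hc : c ∉ R) :
    Strong H (insert c X : Finset N) Set.univ ∧ ∀ e ∈ H, e ⊆ insert c X → e ⊆ X := by
  have h1 : ∀ W : Finset N, insert c X ⊆ W → dl H X + 1 ≤ dl H W := by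
    intro W hW
    have h2 := hR W (fun h => hc (h (Finset.mem_coe.2 (hW (Finset.mem_insert_self c X)))))
    have h3 : dl H X ≤ dl H (W.filter (fun v => v ∈ R)) := by
      apply hX.le_of_subset _ (Set.subset_univ _)
      intro v hv
      exact Finset.mem_filter.2 ⟨hW (Finset.mem_insert_of_mem hv), hXR (Finset.mem_coe.2 hv)⟩
    linarith
  have h2 := dl_insert_le H c X
  refine ⟨strong_of_le_union (Set.subset_univ _) fun Z _ => ?_, fun e he hec => ?_⟩
  · have := h1 (insert c X ∪ Z) Finset.subset_union_left
    linarith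
  · by_contra hcon
    have h3 := dl_le_of_edges (H := H) (X := X) (Z := insert c X) (Finset.subset_insert _ _) {e}
      (by
        intro e' he'
        rw [Finset.mem_singleton] at he'
        subst he'
        exact ⟨he, hec, hcon⟩)
    have h4 : ((insert c X \ X).card : ℤ) ≤ 1 := by
      have : (insert c X \ X).card ≤ ({c} : Finset N).card := by
        apply Finset.card_le_card
        intro v hv
        rw [Finset.mem_sdiff, Finset.mem_insert] at hv
        rw [Finset.mem_singleton]
        exact hv.1.resolve_right hv.2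
      rw [Finset.card_singleton] at this
      exact_mod_cast this
    have h5 := h1 (insert c X) subset_rfl
    rw [Finset.card_singleton] at h3
    push_cast at h3
    linarith

theorem st_Min (h1 : St_Trans) (h2 : St_El) (h3 : St_Bnf) (h4 : St_Free) : St_Min := by
  intro M _ hM hinf s hs
  by_contra hcon
  push Not at hcon
  obtain ⟨hs1, hs2⟩ := hcon
  obtain ⟨φ, hφ⟩ := Set.definable_iff_exists_formula_sum.1 hs
  obtain ⟨N, _, j, c, c', hunc, hc, hc', hr, hr'⟩ := exists_ext M s φ hφ hs1 hs2
  have hN : Good N := h1 M N j.elementarilyEquivalent ⟨c⟩ hM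
  have hel := h2 M N j hM hN
  -- range j is strong
  have hst : Strong (Hs N) (Set.range j) Set.univ := by
    refine ⟨Set.subset_univ _, fun Z _ => ?_⟩
    by_cases hZ : (Z : Set N) ⊆ Set.range j
    · rw [filter_mem_of_subset hZ]
    · have := hel Z hZ
      convert (by linarith : dl (Hs N) (Z.filter (fun v => v ∈ Set.range j)) ≤ dl (Hs N) Z)
  -- the finite set of parameters
  set P : Finset N := φ.freeVarFinset.biUnion (fun a => match a with
    | Sum.inl m => {j m}
    | Sum.inr _ => ∅) with hP
  have hPR : (P : Set N) ⊆ Set.range j := by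
    intro v hv
    rw [hP, Finset.mem_coe, Finset.mem_biUnion] at hv
    obtain ⟨a, _, ha⟩ := hv
    rcases a with m | i
    · rw [Finset.mem_singleton] at ha
      exact ⟨m, ha.symm⟩
    · simp at ha
  obtain ⟨X, hPX, hXR, hX⟩ := exists_closure hst (fun Y _ => hN.inC.k5 Y (Set.subset_univ _)) P hPR
  -- enumeration
  set q := X.card with hq
  let en : Fin q → N := fun i => (X.equivFin.symm i : N)
  have en_inj : Function.Injective en := fun a b hab =>
    X.equivFin.symm.injective (Subtype.ext hab)
  have en_mem : ∀ i, en i ∈ X := fun i => (X.equivFin.symm i).2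
  have en_surj : ∀ v ∈ X, ∃ i, en i = v := fun v hv =>
    ⟨X.equivFin ⟨v, hv⟩, by simp [en]⟩
  have facts : ∀ d : N, d ∉ Set.range j →
      Function.Injective (Fin.snoc en d : Fin (q + 1) → N) ∧
      ran (Fin.snoc en d : Fin (q + 1) → N) = insert d X ∧
      (∀ e : Finset (Fin (q + 1)), Fin.last q ∈ e → e.image (Fin.snoc en d : Fin (q + 1) → N) ∉ Hs N) ∧
      Strong (Hs N) (ran (Fin.snoc en d : Fin (q + 1) → N) : Finset N) Set.univ := by
    intro d hd
    have hdX : d ∉ X := fun h => hd (hXR (Finset.mem_coe.2 h))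
    obtain ⟨hf1, hf2⟩ := free_over (H := Hs N) (R := Set.range j) (fun Z hZ => by
      convert hel Z hZ) hXR hX hd
    have hran : ran (Fin.snoc en d : Fin (q + 1) → N) = insert d X := by
      ext v
      rw [mem_ran, Finset.mem_insert]
      constructor
      · rintro ⟨k, rfl⟩
        induction k using Fin.lastCases with
        | last => left; simp
        | cast i => right; simpa using en_mem i
      · rintro (rfl | hv)
        · exact ⟨Fin.last q, by simp⟩
        · obtain ⟨i, rfl⟩ := en_surj v hv
          exact ⟨Fin.castSucc i, by simp⟩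
    refine ⟨?_, hran, ?_, ?_⟩
    · intro a b hab
      induction a using Fin.lastCases with
      | last =>
        induction b using Fin.lastCases with
        | last => rfl
        | cast i =>
          exfalso
          apply hdX
          rw [Fin.snoc_last, Fin.snoc_castSucc] at hab
          rw [hab]
          exact en_mem i
      | cast i' =>
        induction b using Fin.lastCases with
        | last =>
          exfalso
          apply hdX
          rw [Fin.snoc_last, Fin.snoc_castSucc] at hab
          rw [← hab]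
          exact en_mem i'
        | cast i =>
          rw [Fin.snoc_castSucc, Fin.snoc_castSucc] at hab
          rw [en_inj hab]
    · intro e he hcon
      have h5 : e.image (Fin.snoc en d : Fin (q + 1) → N) ⊆ insert d X := by
        rw [← hran]
        exact Finset.image_subset_image (Finset.subset_univ _)
      have h6 := hf2 _ hcon h5
      apply hdX
      apply h6
      exact Finset.mem_image.2 ⟨Fin.last q, he, by simp⟩
    · rw [hran]
      exact hf1
  obtain ⟨i1, r1, n1, s1⟩ := facts c hc
  obtain ⟨i2, r2, n2, s2⟩ := facts c' hc'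
  have hfree : ∀ Y : Finset N, Strong (Hs N) Y Set.univ → ∃ c, FreePt (Hs N) Y c := by
    intro Y hY
    obtain ⟨c, _, hc⟩ := h4 N (Hs N) Set.univ hN.inC hunc Y hY
    exact ⟨c, hc⟩
  have hedge : ∀ e : Finset (Fin (q + 1)), e.image (Fin.snoc en c : Fin (q + 1) → N) ∈ Hs N ↔
      e.image (Fin.snoc en c' : Fin (q + 1) → N) ∈ Hs N := by
    intro e
    by_cases he : Fin.last q ∈ e
    · exact iff_of_false (n1 e he) (n2 e he)
    · have : e.image (Fin.snoc en c : Fin (q + 1) → N) = e.image (Fin.snoc en c' : Fin (q + 1) → N) := by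
        apply Finset.image_congr
        intro k hk
        induction k using Fin.lastCases with
        | last => exact absurd (Finset.mem_coe.1 hk) he
        | cast i => simp
      rw [this]
  have hb := h3 N N hN hN hfree hfree (q + 1) _ _ i1 i2 s1 s2 hedge
  -- the formula
  have hpar : ∀ m : (Set.univ : Set M), Sum.inl m ∈ φ.freeVarFinset → j m ∈ X := by
    intro m hm
    apply hPX
    rw [hP, Finset.mem_biUnion]
    exact ⟨Sum.inl m, hm, by simp⟩
  let f : φ.freeVarFinset → Fin (q + 1) := fun a => match a with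
    | ⟨Sum.inl m, hm⟩ => Fin.castSucc (X.equivFin ⟨j m, hpar m hm⟩)
    | ⟨Sum.inr _, _⟩ => Fin.last q
  have hf : ∀ (d : N) (a : φ.freeVarFinset), (Fin.snoc en d : Fin (q + 1) → N) (f a) =
      Sum.elim (fun m : (Set.univ : Set M) => j m) (fun _ => d) a.1 := by
    intro d a
    rcases a with ⟨m | i, hm⟩
    · simp [f, en]
    · simp [f]
  have hψ := hb (BoundedFormula.restrictFreeVar φ f)
  rw [Formula.Realize, Formula.Realize, BoundedFormula.realize_restrictFreeVar _ (hf c),
    BoundedFormula.realize_restrictFreeVar _ (hf c')] at hψ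
  exact hr' (hψ.1 hr)

end H912SM
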