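import Pool.Agent.H912R2.SM.Stm
import Pool.Agent.H912R2.SM.Basic2

/-!
# The structure `N0`: from a maximal structure to a locally rich one
-/

set_option autoImplicit false

open scoped Classical

namespace H912SM

/-- an exact copy over a set is a strong extension of this set -/
theorem n0_strong_of_exact {V : Type} {H' : Set (Finset V)} {S : Set V} {α : Code}
    {b : Fin α.m → V} {f : Fin α.n → V} (hf : ∀ k, f k ∉ S)
    (hc : Cop H' α b f) (hex : Exact H' S α b f) : Strong H' S (S ∪ Set.range f) := by
  refine ⟨Set.subset_union_left, fun Z hZ => ?_⟩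
  set X : Finset V := Z.filter (fun v => v ∈ S) with hX
  have hXS : ∀ v ∈ X, v ∈ S := fun v hv => (Finset.mem_filter.1 hv).2
  have h1 := dl_eq_of_edges (H := H') (X := X) (Z := Z) (Finset.filter_subset _ _)
    ((imE α b f).filter (fun e => e ⊆ Z)) (by
      intro e
      rw [Finset.mem_filter, mem_imE]
      constructor
      · rintro ⟨⟨e', he', rfl⟩, h2⟩
        refine ⟨hc.2 _ he', h2, fun h3 => ?_⟩
        exact not_image_subset (Y := S) hf he' (fun v hv => hXS v (h3 (Finset.mem_coe.1 hv)))
      · rintro ⟨h2, h3, h4⟩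
        refine ⟨?_, h3⟩
        rcases hex e h2 ((Finset.coe_subset.2 h3).trans hZ) with h5 | h5
        · exact absurd (fun v hv => Finset.mem_filter.2 ⟨h3 hv, h5 (Finset.mem_coe.2 hv)⟩) h4
        · exact h5)
  have h2 : Z \ X = Z ∩ ran f := by
    ext v
    simp only [Finset.mem_sdiff, hX, Finset.mem_filter, not_and, Finset.mem_inter, mem_ran]
    constructor
    · rintro ⟨h3, h4⟩
      refine ⟨h3, ?_⟩
      rcases hZ (Finset.mem_coe.2 h3) with h5 | h5
      · exact absurd h5 (h4 h3)
      · exact h5
    · rintro ⟨h3, k, rfl⟩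
      exact ⟨h3, fun _ => hf k⟩
  have h3 : ((imE α b f).filter (fun e => e ⊆ Z)).card ≤ (Z ∩ ran f).card := by
    by_cases h4 : ∃ k, f k ∈ Z
    · by_cases h5 : ∃ k, f k ∉ Z
      · have h6 : Z ∩ ran f = (Z ∪ ran b) ∩ ran f := by
          ext v
          simp only [Finset.mem_inter, Finset.mem_union, mem_ran]
          constructor
          · rintro ⟨h7, h8⟩
            exact ⟨Or.inl h7, h8⟩
          · rintro ⟨h7 | ⟨j, rfl⟩, k, h8⟩
            · exact ⟨h7, k, h8⟩
            · exact absurd h8 (hc.ne k j)
        have h7 : ∃ k, f k ∈ Z ∪ ran b := by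
          obtain ⟨k, hk⟩ := h4
          exact ⟨k, Finset.mem_union_left _ hk⟩
        have h8 : ∃ k, f k ∉ Z ∪ ran b := by
          obtain ⟨k, hk⟩ := h5
          refine ⟨k, fun h => ?_⟩
          rcases Finset.mem_union.1 h with h | h
          · exact hk h
          · obtain ⟨j, hj⟩ := mem_ran.1 h
            exact hc.ne k j hj.symm
        have h9 := card_imE_filter hc (Y := Z ∪ ran b)
          (fun j => Finset.mem_union_right _ (apply_mem_ran b j)) h7 h8
        rw [h6]
        refine le_trans (Finset.card_le_card ?_) h9.le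
        intro e he
        rw [Finset.mem_filter] at he ⊢
        exact ⟨he.1, he.2.trans Finset.subset_union_left⟩
      · push Not at h5
        have h6 : Z ∩ ran f = ran f := by
          apply Finset.inter_eq_right.2
          intro v hv
          obtain ⟨k, rfl⟩ := mem_ran.1 hv
          exact h5 k
        rw [h6, card_ran hc.inj_f, ← card_imE hc.1]
        exact Finset.card_filter_le _ _
    · push Not at h4
      have : (imE α b f).filter (fun e => e ⊆ Z) = ∅ := by
        apply Finset.filter_eq_empty_iff.2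
        intro e he h5
        obtain ⟨e', he', rfl⟩ := mem_imE.1 he
        exact not_image_subset (Y := (Z : Set V)) h4 he' (Finset.coe_subset.2 h5)
      rw [this]
      simp
  rw [h2] at h1
  have h4 : dl H' X ≤ dl H' Z := by
    zify at h3
    linarith
  exact h4

/-- if the one-step extension is not in the class then condition `k6` fails, provided that no edge
is properly contained in an edge of the copy -/
theorem n0_viol {V : Type} {H H' : Set (Finset V)} {S : Set V} {α : Code}
    {b : Fin α.m → V} {f : Fin α.n → V} (hC : InC H S) (hHH : H ⊆ H')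
    (hHS : ∀ e ∈ H', (e : Set V) ⊆ S → e ∈ H) (hf : ∀ k, f k ∉ S)
    (hc : Cop H' α b f) (hex : Exact H' S α b f) (hn : ¬ InC H' (S ∪ Set.range f))
    (hk4 : ∀ e ∈ H', ∀ e1 ∈ α.E, e ⊆ e1.image (Sum.elim f b) → e = e1.image (Sum.elim f b)) :
    ∃ β, Viol H' (S ∪ Set.range f) β := by
  by_contra hcon
  push Not at hcon
  apply hn
  constructor
  · intro e he heS
    rcases hex e he heS with h | ⟨e', he', rfl⟩
    · exact hC.k1 e (hHS e he h) h
    · rw [Finset.card_image_of_injective _ hc.1]
      exact α.hsize e' he'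
  · intro e he e1 he1 he1S hee
    rcases hex e1 he1 he1S with h | ⟨e', he', rfl⟩
    · have h2 : (e : Set V) ⊆ S := (Finset.coe_subset.2 hee).trans h
      exact hC.k4 e (hHS e he h2) e1 (hHS e1 he1 h) h hee
    · exact hk4 e he e' he' hee
  · intro X hX
    have h1 := (n0_strong_of_exact hf hc hex).2 X hX
    have h2 : ((X.filter (fun v => v ∈ S) : Finset V) : Set V) ⊆ S := by
      intro v hv
      exact (Finset.mem_filter.1 (Finset.mem_coe.1 hv)).2
    have h3 := hC.k5 _ h2
    have h4 : dl H' (X.filter (fun v => v ∈ S)) = dl H (X.filter (fun v => v ∈ S)) := by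
      apply dl_congr
      intro e he
      constructor
      · intro h5
        exact hHS e h5 ((Finset.coe_subset.2 he).trans h2)
      · intro h5
        exact hHH h5
    linarith
  · exact hcon

/-- nonempty finite sets of size at most `K` are ranges of functions on `Fin K` -/
theorem n0_enum {V : Type} {K : ℕ} (T : Finset V) (hT : T.Nonempty) (hK : T.card ≤ K) :
    ∃ z : Fin K → V, ran z = T := by
  obtain ⟨t0, ht0⟩ := hT
  refine ⟨fun i => if h : (i : ℕ) < T.card then (T.equivFin.symm ⟨i, h⟩ : V) else t0, ?_⟩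
  ext v
  rw [mem_ran]
  constructor
  · rintro ⟨i, rfl⟩
    by_cases h : (i : ℕ) < T.card
    · simp only [h, dif_pos]
      exact (T.equivFin.symm ⟨i, h⟩).2
    · simp only [h, dif_neg, not_false_iff]
      exact ht0
  · intro hv
    set j := T.equivFin ⟨v, hv⟩ with hj
    refine ⟨⟨j, lt_of_lt_of_le j.2 hK⟩, ?_⟩
    have h : (j : ℕ) < T.card := j.2
    simp only [h, dif_pos]
    have : (⟨(j : ℕ), h⟩ : Fin T.card) = j := rfl
    rw [this, hj, Equiv.symm_apply_apply]

/-- the code of a triple -/
noncomputable def n0_code3 : Code where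
  n := 1
  m := 2
  E := {Finset.univ}
  npos := one_pos
  hcard := by simp
  hmeet := by
    intro e he
    rw [Finset.mem_singleton] at he
    subst he
    exact ⟨0, Finset.mem_univ _⟩
  hsize := by
    intro e he
    rw [Finset.mem_singleton] at he
    subst he
    right
    simp
  hbase := by
    intro j
    exact ⟨Finset.univ, Finset.mem_singleton_self _, Finset.mem_univ _⟩
  hmin := by
    intro A h1 h2
    exfalso
    apply h2
    obtain ⟨a, ha⟩ := h1
    ext x
    have : x = a := Subsingleton.elim _ _
    subst this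
    constructor
    · intro _; exact Finset.mem_univ _
    · intro _; exact ha

/-- the code of a pair -/
noncomputable def n0_code2 : Code where
  n := 1
  m := 1
  E := {Finset.univ}
  npos := one_pos
  hcard := by simp
  hmeet := by
    intro e he
    rw [Finset.mem_singleton] at he
    subst he
    exact ⟨0, Finset.mem_univ _⟩
  hsize := by
    intro e he
    rw [Finset.mem_singleton] at he
    subst he
    left
    simp
  hbase := by
    intro j
    exact ⟨Finset.univ, Finset.mem_singleton_self _, Finset.mem_univ _⟩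
  hmin := by
    intro A h1 h2
    exfalso
    apply h2
    obtain ⟨a, ha⟩ := h1
    ext x
    have : x = a := Subsingleton.elim _ _
    subst this
    constructor
    · intro _; exact Finset.mem_univ _
    · intro _; exact ha

section core

variable {Om : Type} {H : Set (Finset Om)} {S : Set Om} (hC : InC H S)
  (hmax : ∀ (α : Code) (b : Fin α.m → Om), Function.Injective b → (∀ j, b j ∈ S) →
      ∃ (H' : Set (Finset Om)) (f : Fin α.n → Om), H ⊆ H' ∧
        (∀ e ∈ H', (e : Set Om) ⊆ S → e ∈ H) ∧ (∀ k, f k ∉ S) ∧ Cop H' α b f ∧ Exact H' S α b f ∧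
        ¬ InC H' (S ∪ Set.range f))

include hC hmax

/-- every pair which is not an edge is in a triple edge -/
theorem n0_triple (h4 : St_Viol1) (x y : Om) (hx : x ∈ S) (hy : y ∈ S) (hxy : x ≠ y)
    (hn : ({x, y} : Finset Om) ∉ H) :
    ∃ z ∈ S, z ≠ x ∧ z ≠ y ∧ ({x, y, z} : Finset Om) ∈ H := by
  have hbS : ∀ j : Fin n0_code3.m, (![x, y] : Fin 2 → Om) j ∈ S := by
    intro (j : Fin 2)
    fin_cases j
    · exact hx
    · exact hy
  have hbi : Function.Injective (![x, y] : Fin 2 → Om) := by
    intro i j hij
    fin_cases i <;> fin_cases j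
    · rfl
    · exact absurd hij hxy
    · exact absurd hij.symm hxy
    · rfl
  obtain ⟨H', f, k1, k2, k3, k4, k5, k6⟩ := hmax n0_code3 ![x, y] hbi hbS
  have himg : ∀ g : Fin 1 → Om, ((Finset.univ : Finset (Fin 1 ⊕ Fin 2)).image
      (Sum.elim g ![x, y])) = {x, y, g 0} := by
    intro g
    ext v
    simp only [Finset.mem_image, Finset.mem_univ, true_and, Finset.mem_insert,
      Finset.mem_singleton]
    constructor
    · rintro ⟨a | a, rfl⟩
      · have : a = 0 := Subsingleton.elim _ _
        subst this
        simp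
      · fin_cases a
        · simp
        · simp
    · rintro (rfl | rfl | rfl)
      · exact ⟨Sum.inr 0, rfl⟩
      · exact ⟨Sum.inr 1, rfl⟩
      · exact ⟨Sum.inl 0, rfl⟩
  have hk4 : ∀ e ∈ H', ∀ e1 ∈ n0_code3.E, e ⊆ e1.image (Sum.elim f ![x, y]) →
      e = e1.image (Sum.elim f ![x, y]) := by
    intro e he e1 he1 hee
    have he1' : e1 = Finset.univ := Finset.mem_singleton.1 he1
    subst he1'
    have h5 : (e : Set Om) ⊆ S ∪ Set.range f := by
      intro v hv
      have h6 := hee (Finset.mem_coe.1 hv)
      have h7 : v ∈ ({x, y, f (0 : Fin 1)} : Finset Om) := by rw [← himg f]; exact h6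
      rw [Finset.mem_insert, Finset.mem_insert, Finset.mem_singleton] at h7
      rcases h7 with rfl | rfl | rfl
      · exact Or.inl hx
      · exact Or.inl hy
      · exact Or.inr ⟨(0 : Fin 1), rfl⟩
    rcases k5 e he h5 with h6 | ⟨e', he', h6⟩
    · exfalso
      have h7 : e ⊆ {x, y} := by
        intro v hv
        have h8 := hee hv
        have h9 : v ∈ ({x, y, f (0 : Fin 1)} : Finset Om) := by rw [← himg f]; exact h8
        rw [Finset.mem_insert, Finset.mem_insert, Finset.mem_singleton] at h9
        rcases h9 with rfl | rfl | rfl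
        · simp
        · simp
        · exact absurd (h6 (Finset.mem_coe.2 hv)) (k3 (0 : Fin 1))
      have h8 : ({x, y} : Finset Om).card = 2 := Finset.card_pair hxy
      have h9 : e = {x, y} := by
        apply Finset.eq_of_subset_of_card_le h7
        rw [h8]
        rcases hC.k1 e (k2 e he h6) h6 with h10 | h10 <;> omega
      apply hn
      rw [← h9]
      exact k2 e he h6
    · have he'' : e' = Finset.univ := Finset.mem_singleton.1 he'
      subst he''
      exact h6
  obtain ⟨β, hβ⟩ := n0_viol hC k1 k2 k3 k4 k5 k6 hk4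
  have hC' : InC H' S := hC.congr fun e he he' => k2 e he' he
  obtain ⟨f', h5, h6⟩ := h4 Om H' S n0_code3 ![x, y] f rfl hbS k3 k4 k5 hC' β hβ
  have h7 := h5.2 Finset.univ (Finset.mem_singleton_self _)
  have h8 : ({x, y, f' (0 : Fin 1)} : Finset Om) ∈ H' := by
    rw [← himg f']
    exact h7
  have h9 : f' (0 : Fin 1) ≠ x := h5.ne (0 : Fin 1) (0 : Fin 2)
  have h10 : f' (0 : Fin 1) ≠ y := h5.ne (0 : Fin 1) (1 : Fin 2)
  refine ⟨f' (0 : Fin 1), h6 (0 : Fin 1), h9, h10, k2 _ h8 ?_⟩
  intro v hv
  rw [Finset.mem_coe, Finset.mem_insert, Finset.mem_insert, Finset.mem_singleton] at hv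
  rcases hv with rfl | rfl | rfl
  · exact hx
  · exact hy
  · exact h6 (0 : Fin 1)

/-- every point has a mate -/
theorem n0_mate (h4 : St_Viol1) (x : Om) (hx : x ∈ S) :
    ∃ y ∈ S, y ≠ x ∧ ({x, y} : Finset Om) ∈ H := by
  have hbS : ∀ j : Fin n0_code2.m, (![x] : Fin 1 → Om) j ∈ S := by
    intro (j : Fin 1)
    fin_cases j
    exact hx
  have hbi : Function.Injective (![x] : Fin 1 → Om) := by
    intro i j _
    exact Subsingleton.elim _ _
  obtain ⟨H', f, k1, k2, k3, k4, k5, k6⟩ := hmax n0_code2 ![x] hbi hbS
  have himg : ∀ g : Fin 1 → Om, ((Finset.univ : Finset (Fin 1 ⊕ Fin 1)).image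
      (Sum.elim g ![x])) = {x, g 0} := by
    intro g
    ext v
    simp only [Finset.mem_image, Finset.mem_univ, true_and, Finset.mem_insert,
      Finset.mem_singleton]
    constructor
    · rintro ⟨a | a, rfl⟩
      · have : a = 0 := Subsingleton.elim _ _
        subst this
        simp
      · have : a = 0 := Subsingleton.elim _ _
        subst this
        simp
    · rintro (rfl | rfl)
      · exact ⟨Sum.inr 0, rfl⟩
      · exact ⟨Sum.inl 0, rfl⟩
  have hk4 : ∀ e ∈ H', ∀ e1 ∈ n0_code2.E, e ⊆ e1.image (Sum.elim f ![x]) →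
      e = e1.image (Sum.elim f ![x]) := by
    intro e he e1 he1 hee
    have he1' : e1 = Finset.univ := Finset.mem_singleton.1 he1
    subst he1'
    have h5 : (e : Set Om) ⊆ S ∪ Set.range f := by
      intro v hv
      have h6 := hee (Finset.mem_coe.1 hv)
      have h7 : v ∈ ({x, f (0 : Fin 1)} : Finset Om) := by rw [← himg f]; exact h6
      rw [Finset.mem_insert, Finset.mem_singleton] at h7
      rcases h7 with rfl | rfl
      · exact Or.inl hx
      · exact Or.inr ⟨(0 : Fin 1), rfl⟩
    rcases k5 e he h5 with h6 | ⟨e', he', h6⟩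
    · exfalso
      have h7 : e ⊆ {x} := by
        intro v hv
        have h8 := hee hv
        have h9 : v ∈ ({x, f (0 : Fin 1)} : Finset Om) := by rw [← himg f]; exact h8
        rw [Finset.mem_insert, Finset.mem_singleton] at h9
        rcases h9 with rfl | rfl
        · simp
        · exact absurd (h6 (Finset.mem_coe.2 hv)) (k3 (0 : Fin 1))
      have h8 := Finset.card_le_card h7
      rw [Finset.card_singleton] at h8
      rcases hC.k1 e (k2 e he h6) h6 with h10 | h10 <;> omega
    · have he'' : e' = Finset.univ := Finset.mem_singleton.1 he'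
      subst he''
      exact h6
  obtain ⟨β, hβ⟩ := n0_viol hC k1 k2 k3 k4 k5 k6 hk4
  have hC' : InC H' S := hC.congr fun e he he' => k2 e he' he
  obtain ⟨f', h5, h6⟩ := h4 Om H' S n0_code2 ![x] f rfl hbS k3 k4 k5 hC' β hβ
  have h7 := h5.2 Finset.univ (Finset.mem_singleton_self _)
  have h8 : ({x, f' (0 : Fin 1)} : Finset Om) ∈ H' := by
    rw [← himg f']
    exact h7
  have h9 : f' (0 : Fin 1) ≠ x := h5.ne (0 : Fin 1) (0 : Fin 1)
  refine ⟨f' (0 : Fin 1), h6 (0 : Fin 1), h9, k2 _ h8 ?_⟩
  intro v hv
  rw [Finset.mem_coe, Finset.mem_insert, Finset.mem_singleton] at hv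
  rcases hv with rfl | rfl
  · exact hx
  · exact h6 (0 : Fin 1)

/-- local richness -/
theorem n0_LR (h2 : St_Amalg) (h3 : St_Viol) {V : Type} (v : V → Om) (hv : Function.Injective v)
    (hr : Set.range v = S) : LR {e : Finset V | e.image v ∈ H} := by
  intro p G α c hc hG
  have hvS : ∀ w, v w ∈ S := fun w => hr ▸ Set.mem_range_self w
  refine ⟨(α.n + α.m) + (α.n + α.m + 1) * α.n, fun x hx hGx hK => ?_⟩
  by_contra hno
  set b : Fin α.m → Om := fun j => v (x (c j)) with hbdef
  have hbi : Function.Injective b := fun i j hij => hc (hx (hv hij))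
  have hbS : ∀ j, b j ∈ S := fun j => hvS _
  obtain ⟨H', f, k1, k2, k3, k4, k5, k6⟩ := hmax α b hbi hbS
  set X : Finset Om := (ran x).image v with hX
  have hXS : (X : Set Om) ⊆ S := by
    intro w hw
    obtain ⟨a, _, rfl⟩ := Finset.mem_image.1 (Finset.mem_coe.1 hw)
    exact hvS a
  have hbX : ∀ j, b j ∈ X := fun j => Finset.mem_image_of_mem v (apply_mem_ran x (c j))
  -- (1) the class contains the small extension
  have s1 : InC H' ((X : Set Om) ∪ Set.range f) := by
    set F : Fin α.n ⊕ Fin p → Om := Sum.elim f (v ∘ x) with hF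
    have hFi : Function.Injective F := by
      intro a a' haa
      rcases a with a | a <;> rcases a' with a' | a'
      · exact congrArg _ (k4.inj_f haa)
      · exfalso
        apply k3 a
        have : f a = v (x a') := haa
        rw [this]
        exact hvS _
      · exfalso
        apply k3 a'
        have : v (x a) = f a' := haa
        rw [← this]
        exact hvS _
      · exact congrArg _ (hx (hv haa))
    have : Nonempty (Fin α.n ⊕ Fin p) := ⟨Sum.inl ⟨0, α.npos⟩⟩
    set g : Om → Fin α.n ⊕ Fin p := Function.invFun F with hg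
    have hgF : ∀ a, g (F a) = a := Function.leftInverse_invFun hFi
    have hFr : (X : Set Om) ∪ Set.range f ⊆ Set.range F := by
      rintro w (hw | ⟨k, rfl⟩)
      · obtain ⟨a, ha, rfl⟩ := Finset.mem_image.1 (Finset.mem_coe.1 hw)
        obtain ⟨i, rfl⟩ := mem_ran.1 ha
        exact ⟨Sum.inr i, rfl⟩
      · exact ⟨Sum.inl k, rfl⟩
    have hgi : Set.InjOn g ((X : Set Om) ∪ Set.range f) := by
      intro w hw w' hw' hww
      obtain ⟨a, rfl⟩ := hFr hw
      obtain ⟨a', rfl⟩ := hFr hw'
      rw [hgF, hgF] at hww
      rw [hww]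
    apply InC.of_map hgi (H := extG G α c)
    · intro e heS he
      have heS' : (e : Set Om) ⊆ S ∪ Set.range f := heS.trans (Set.union_subset_union_left _ hXS)
      rcases k5 e he heS' with h | ⟨e', he', rfl⟩
      · left
        have heH : e ∈ H := k2 e he h
        refine ⟨Finset.univ.filter (fun i => v (x i) ∈ e), ?_, ?_⟩
        · rw [hGx]
          have : ((Finset.univ.filter (fun i => v (x i) ∈ e)).image x).image v = e := by
            ext w
            simp only [Finset.mem_image, Finset.mem_filter, Finset.mem_univ, true_and]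
            constructor
            · rintro ⟨_, ⟨i, hi, rfl⟩, rfl⟩
              exact hi
            · intro hw
              rcases heS (Finset.mem_coe.2 hw) with hw' | ⟨k, rfl⟩
              · obtain ⟨a, ha, rfl⟩ := Finset.mem_image.1 (Finset.mem_coe.1 hw')
                obtain ⟨i, rfl⟩ := mem_ran.1 ha
                exact ⟨_, ⟨i, hw, rfl⟩, rfl⟩
              · exact absurd (h (Finset.mem_coe.2 hw)) (k3 k)
          change ((Finset.univ.filter (fun i => v (x i) ∈ e)).image x).image v ∈ H
          rw [this]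
          exact heH
        · ext a
          simp only [Finset.mem_image, Finset.mem_filter, Finset.mem_univ, true_and]
          constructor
          · rintro ⟨w, hw, rfl⟩
            rcases heS (Finset.mem_coe.2 hw) with hw' | ⟨k, rfl⟩
            · obtain ⟨a, ha, rfl⟩ := Finset.mem_image.1 (Finset.mem_coe.1 hw')
              obtain ⟨i, rfl⟩ := mem_ran.1 ha
              exact ⟨i, hw, (hgF (Sum.inr i)).symm⟩
            · exact absurd (h (Finset.mem_coe.2 hw)) (k3 k)
          · rintro ⟨i, hi, rfl⟩
            exact ⟨_, hi, hgF (Sum.inr i)⟩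
      · right
        refine ⟨e', he', ?_⟩
        ext a
        simp only [Finset.mem_image]
        constructor
        · rintro ⟨w, ⟨u, hu, rfl⟩, rfl⟩
          refine ⟨u, hu, ?_⟩
          rcases u with k | j
          · exact (hgF (Sum.inl k)).symm
          · exact (hgF (Sum.inr (c j))).symm
        · rintro ⟨u, hu, rfl⟩
          refine ⟨_, ⟨u, hu, rfl⟩, ?_⟩
          rcases u with k | j
          · exact hgF (Sum.inl k)
          · exact hgF (Sum.inr (c j))
    · exact hG.mono_set (Set.subset_univ _)
  -- (2)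
  have hk4 : ∀ e ∈ H', ∀ e1 ∈ α.E, e ⊆ e1.image (Sum.elim f b) →
      e = e1.image (Sum.elim f b) := by
    intro e he e1 he1 hee
    refine s1.k4 e he _ (k4.2 e1 he1) ?_ hee
    intro w hw
    rcases mem_image_elim.1 (Finset.mem_coe.1 hw) with ⟨k, _, rfl⟩ | ⟨j, _, rfl⟩
    · exact Or.inr ⟨k, rfl⟩
    · exact Or.inl (Finset.mem_coe.2 (hbX j))
  -- (3)
  obtain ⟨β, hβ⟩ := n0_viol hC k1 k2 k3 k4 k5 k6 hk4
  have hC' : InC H' S := hC.congr fun e he he' => k2 e he' he
  obtain ⟨hn, hm⟩ := h3 Om H' S α b f hbS k3 k4 k5 hC' β hβ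
  obtain ⟨b', F', q1, q2, q3, q4⟩ := hβ
  set D : Finset Om := ran b' ∪ Finset.univ.biUnion (fun i => ran (F' i)) with hD
  have hDc : D.card ≤ (α.n + α.m) + (α.n + α.m + 1) * α.n := by
    have e1 : (ran b').card ≤ β.m := by
      unfold ran
      exact Finset.card_image_le.trans (by simp)
    have e2 : (Finset.univ.biUnion (fun i => ran (F' i))).card ≤ (β.mu + 1) * β.n := by
      refine Finset.card_biUnion_le.trans ?_
      refine (Finset.sum_le_card_nsmul _ _ β.n ?_).trans (by simp)
      intro i _
      unfold ran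
      exact Finset.card_image_le.trans (by simp)
    have e3 : β.mu ≤ α.n + α.m := by
      unfold Code.mu
      split_ifs
      · have := α.npos
        omega
      · exact hm
    have e4 : (β.mu + 1) * β.n ≤ (α.n + α.m + 1) * α.n :=
      Nat.mul_le_mul (by omega) hn
    have e5 := Finset.card_union_le (ran b') (Finset.univ.biUnion (fun i => ran (F' i)))
    rw [← hD] at e5
    omega
  set Y : Finset Om := X ∪ D.filter (fun w => w ∈ S) with hY
  have hYS : (Y : Set Om) ⊆ S := by
    intro w hw
    rcases Finset.mem_union.1 (Finset.mem_coe.1 hw) with h | h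
    · exact hXS (Finset.mem_coe.2 h)
    · exact (Finset.mem_filter.1 h).2
  have hst : Strong H' (X : Set Om) (Y : Set Om) := by
    apply strong_of_le_union
    · exact Finset.coe_subset.2 Finset.subset_union_left
    intro Z hZ
    rcases Finset.eq_empty_or_nonempty (Z \ X) with h | h
    · have : X ∪ Z = X := Finset.union_eq_left.2 (Finset.sdiff_eq_empty_iff_subset.1 h)
      rw [this]
    · -- pull back to V
      have hZS : ∀ w ∈ Z \ X, w ∈ S := fun w hw => hYS (hZ (Finset.mem_sdiff.1 hw).1)
      have hpre : ∃ T : Finset V, T.image v = Z \ X := by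
        have h5 : ((Z \ X : Finset Om) : Set Om) ⊆ v '' Set.univ := by
          intro w hw
          rw [Set.image_univ, hr]
          exact hZS w (Finset.mem_coe.1 hw)
        obtain ⟨T, _, hT⟩ := Finset.subset_set_image_iff.1 h5
        exact ⟨T, hT⟩
      obtain ⟨T, hT⟩ := hpre
      have hTn : T.Nonempty := by
        rw [← hT] at h
        exact Finset.image_nonempty.1 h
      have hTc : T.card ≤ (α.n + α.m) + (α.n + α.m + 1) * α.n := by
        have e1 : (T.image v).card = T.card := Finset.card_image_of_injective _ hv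
        rw [← e1, hT]
        refine le_trans (Finset.card_le_card ?_) hDc
        intro w hw
        obtain ⟨hw1, hw2⟩ := Finset.mem_sdiff.1 hw
        rcases Finset.mem_union.1 (Finset.mem_coe.1 (hZ (Finset.mem_coe.2 hw1))) with h5 | h5
        · exact absurd h5 hw2
        · exact (Finset.mem_filter.1 h5).1
      obtain ⟨z, hz⟩ := n0_enum T hTn hTc
      have h6 := hK z
      rw [hz] at h6
      have hdl : ∀ U : Finset V, dl H' (U.image v) = dl {e : Finset V | e.image v ∈ H} U := by
        intro U
        apply dl_map (hv.injOn)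
        intro e _
        constructor
        · intro h7
          exact k1 h7
        · intro h7
          apply k2 _ h7
          intro w hw
          obtain ⟨a, _, rfl⟩ := Finset.mem_image.1 (Finset.mem_coe.1 hw)
          exact hvS a
      rw [← hdl, ← hdl, Finset.image_union, hT] at h6
      have h7 : X ∪ Z = (ran x).image v ∪ Z \ X := by
        rw [← hX]
        exact Finset.union_sdiff_self_eq_union.symm
      rw [h7]
      exact h6
  have hexY : Exact H' (Y : Set Om) α b f := by
    intro e he heY
    rcases k5 e he (heY.trans (Set.union_subset_union_left _ hYS)) with h | h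
    · left
      intro w hw
      rcases heY hw with h5 | ⟨k, rfl⟩
      · exact h5
      · exact absurd (h hw) (k3 k)
    · exact Or.inr h
  have hfY : ∀ k, f k ∉ (Y : Set Om) := fun k hk => k3 k (hYS hk)
  rcases h2 Om H' X Y α b f hst (fun j => Finset.mem_coe.2 (hbX j)) hfY k4 hexY
    (hC'.mono_set hYS) s1 with h | ⟨f', h5, h6⟩
  · refine h.k6 β ⟨b', F', ?_, ?_, q3, q4⟩
    · intro j
      rcases q1 j with h5 | h5
      · left
        exact Finset.mem_coe.2 (Finset.mem_union_right _ (Finset.mem_filter.2
          ⟨Finset.mem_union_left _ (apply_mem_ran b' j), h5⟩))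
      · exact Or.inr h5
    · intro i k
      rcases q2 i k with h5 | h5
      · left
        exact Finset.mem_coe.2 (Finset.mem_union_right _ (Finset.mem_filter.2
          ⟨Finset.mem_union_right _ (Finset.mem_biUnion.2
            ⟨i, Finset.mem_univ _, apply_mem_ran (F' i) k⟩), h5⟩))
      · exact Or.inr h5
  · apply hno
    have hf'S : ∀ k, f' k ∈ Set.range v := fun k => by rw [hr]; exact hYS (h6 k).1
    choose f2 hf2 using hf'S
    have hcomp : Sum.elim f' b = v ∘ Sum.elim f2 (x ∘ c) := by
      funext a
      rcases a with k | j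
      · exact (hf2 k).symm
      · rfl
    refine ⟨f2, ⟨?_, ?_⟩, ?_⟩
    · have := h5.1
      rw [hcomp] at this
      exact this.of_comp
    · intro e he
      have h7 := h5.2 e he
      rw [hcomp, ← Finset.image_image] at h7
      change (e.image (Sum.elim f2 (x ∘ c))).image v ∈ H
      apply k2 _ h7
      intro w hw
      obtain ⟨a, _, rfl⟩ := Finset.mem_image.1 (Finset.mem_coe.1 hw)
      exact hvS a
    · intro k i hki
      apply (h6 k).2
      rw [← hf2 k, hki]
      exact Finset.mem_coe.2 (Finset.mem_image_of_mem v (apply_mem_ran x i))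

end core

/-- the data on the type `V` -/
theorem n0_core {Om : Type} {H : Set (Finset Om)} {S : Set Om} (hC : InC H S)
    (hmax : ∀ (α : Code) (b : Fin α.m → Om), Function.Injective b → (∀ j, b j ∈ S) →
      ∃ (H' : Set (Finset Om)) (f : Fin α.n → Om), H ⊆ H' ∧
        (∀ e ∈ H', (e : Set Om) ⊆ S → e ∈ H) ∧ (∀ k, f k ∉ S) ∧ Cop H' α b f ∧ Exact H' S α b f ∧
        ¬ InC H' (S ∪ Set.range f))
    (h2 : St_Amalg) (h3 : St_Viol) (h4 : St_Viol1) (V : Type) (v : V → Om)
    (hv : Function.Injective v) (hr : Set.range v = S) :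
    ∃ H0 : Set (Finset V), InC H0 Set.univ ∧ LR H0 ∧
    (∀ x y : V, x ≠ y → ({x, y} : Finset V) ∈ H0 ∨
      ∃ z, z ≠ x ∧ z ≠ y ∧ ({x, y, z} : Finset V) ∈ H0) ∧
    (∀ x : V, ∃ y, y ≠ x ∧ ({x, y} : Finset V) ∈ H0) := by
  have hvS : ∀ w, v w ∈ S := fun w => hr ▸ Set.mem_range_self w
  refine ⟨{e : Finset V | e.image v ∈ H}, ?_, n0_LR hC hmax h2 h3 v hv hr, ?_, ?_⟩
  · apply InC.of_map (H := H) (g := v) (S := Set.univ) hv.injOn
    · intro e _ he
      exact he
    · rw [Set.image_univ, hr]
      exact hC
  · intro x y hxy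
    by_cases hn : ({v x, v y} : Finset Om) ∈ H
    · left
      change ({x, y} : Finset V).image v ∈ H
      rw [Finset.image_insert, Finset.image_singleton]
      exact hn
    · right
      obtain ⟨z, hz, h5, h6, h7⟩ := n0_triple hC hmax h4 (v x) (v y) (hvS x) (hvS y)
        (fun h => hxy (hv h)) hn
      rw [← hr] at hz
      obtain ⟨w, rfl⟩ := hz
      refine ⟨w, fun h => h5 (by rw [h]), fun h => h6 (by rw [h]), ?_⟩
      change ({x, y, w} : Finset V).image v ∈ H
      rw [Finset.image_insert, Finset.image_insert, Finset.image_singleton]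
      exact h7
  · intro x
    obtain ⟨z, hz, h5, h6⟩ := n0_mate hC hmax h4 (v x) (hvS x)
    rw [← hr] at hz
    obtain ⟨w, rfl⟩ := hz
    refine ⟨w, fun h => h5 (by rw [h]), ?_⟩
    change ({x, w} : Finset V).image v ∈ H
    rw [Finset.image_insert, Finset.image_singleton]
    exact h6

theorem st_N0 (h1 : St_Max) (h2 : St_Amalg) (h3 : St_Viol) (h4 : St_Viol1) : St_N0 := by
  obtain ⟨Om, H, S, _, hS, hC, hmax⟩ := h1
  obtain ⟨H0, k1, k2, k3, k4⟩ := n0_core hC hmax h2 h3 h4 S Subtype.val
    Subtype.val_injective Subtype.range_coe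
  refine ⟨S, H0, ?_, k1, k2, k3, k4⟩
  intro h
  apply hS
  rw [← Set.countable_coe_iff]
  exact Set.countable_univ_iff.1 h

end H912SM
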