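import Pool.Agent.H912R2.SM.Stm
import Pool.Agent.H912R2.SM.Basic2

/-!
# T11: the sandwich
-/

set_option autoImplicit false

open scoped Classical
open FirstOrder FirstOrder.Language

namespace H912SM

namespace Sand

variable {V : Type}

/-- the edges of `K` not inside `Ma` -/
def KN (K : Set (Finset V)) (Ma : Set V) : Set (Finset V) := {e | e ∈ K ∧ ¬ (e : Set V) ⊆ Ma}

/-- the triples of `H` -/
def H3 (H : Set (Finset V)) : Set (Finset V) := {e | e ∈ H ∧ e.card = 3}

theorem dl_KN (K : Set (Finset V)) (Ma : Set V) (Y : Finset V) :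
    dl (KN K Ma) Y - ((Y.filter (fun v => v ∈ Ma)).card : ℤ)
      = dl K Y - dl K (Y.filter (fun v => v ∈ Ma)) := by
  have h1 : edg K Y = edg (KN K Ma) Y ∪ edg K (Y.filter (fun v => v ∈ Ma)) := by
    ext e
    rw [Finset.mem_union, mem_edg, mem_edg, mem_edg]
    constructor
    · rintro ⟨h1, h2⟩
      by_cases h : (e : Set V) ⊆ Ma
      · refine Or.inr ⟨fun v hv => Finset.mem_filter.2 ⟨h1 hv, h (Finset.mem_coe.2 hv)⟩, h2⟩
      · exact Or.inl ⟨h1, h2, h⟩
    · rintro (⟨h1, h2, _⟩ | ⟨h1, h2⟩)
      · exact ⟨h1, h2⟩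
      · exact ⟨h1.trans (Finset.filter_subset _ _), h2⟩
  have h2 : Disjoint (edg (KN K Ma) Y) (edg K (Y.filter (fun v => v ∈ Ma))) := by
    rw [Finset.disjoint_left]
    intro e he he'
    apply (mem_edg.1 he).2.2
    intro v hv
    exact (Finset.mem_filter.1 ((mem_edg.1 he').1 (Finset.mem_coe.1 hv))).2
  unfold dl
  rw [h1, Finset.card_union_of_disjoint h2]
  push_cast
  ring

/-- relative predimension of the triples over `Ma` -/
noncomputable def gg (H : Set (Finset V)) (Ma : Set V) (Y : Finset V) : ℤ :=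
  dl (H3 H) Y - dl (H3 H) (Y.filter (fun v => v ∈ Ma))

theorem gg_eq (H : Set (Finset V)) (Ma : Set V) (Y : Finset V) :
    gg H Ma Y = dl (KN (H3 H) Ma) Y - ((Y.filter (fun v => v ∈ Ma)).card : ℤ) := by
  rw [gg, dl_KN]

theorem KN_sub (H : Set (Finset V)) (Ma : Set V) : KN (H3 H) Ma ⊆ KN H Ma :=
  fun _ he => ⟨he.1.1, he.2⟩

theorem gg_ge {H : Set (Finset V)} {Ma : Set V} (Y : Finset V) :
    dl H Y - dl H (Y.filter (fun v => v ∈ Ma)) ≤ gg H Ma Y := by
  rw [gg_eq, ← dl_KN]
  have := dl_anti (KN_sub H Ma) Y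
  linarith

theorem gg_nonneg {H : Set (Finset V)} {Ma : Set V} (hMa : Strong H Ma Set.univ) (Y : Finset V) :
    0 ≤ gg H Ma Y := by
  have h1 := gg_ge (H := H) (Ma := Ma) Y
  have h2 := hMa.2 Y (Set.subset_univ _)
  linarith

theorem gg_of_subset {H : Set (Finset V)} {Ma : Set V} {Y : Finset V} (h : (Y : Set V) ⊆ Ma) :
    gg H Ma Y = 0 := by
  rw [gg, filter_mem_of_subset h, sub_self]

theorem gg_submod (H : Set (Finset V)) (Ma : Set V) (X Y : Finset V) :
    gg H Ma (X ∪ Y) + gg H Ma (X ∩ Y) ≤ gg H Ma X + gg H Ma Y := by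
  rw [gg_eq, gg_eq, gg_eq, gg_eq]
  have h1 := dl_submod (KN (H3 H) Ma) X Y
  have h2 := Finset.card_union_add_card_inter (X.filter (fun v => v ∈ Ma))
    (Y.filter (fun v => v ∈ Ma))
  rw [← Finset.filter_union, ← Finset.filter_inter_distrib] at h2
  zify at h2
  linarith

/-- the set of finite sets algebraic over `Ma` -/
def YY (H : Set (Finset V)) (Ma : Set V) (Y : Finset V) : Prop := gg H Ma Y = 0

theorem YY_union {H : Set (Finset V)} {Ma : Set V} (hMa : Strong H Ma Set.univ) {X Y : Finset V}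
    (hX : YY H Ma X) (hY : YY H Ma Y) : YY H Ma (X ∪ Y) := by
  unfold YY at *
  have h1 := gg_submod H Ma X Y
  have h2 := gg_nonneg hMa (X ∪ Y)
  have h3 := gg_nonneg hMa (X ∩ Y)
  linarith

/-- the closure -/
def AA (H : Set (Finset V)) (Ma : Set V) : Set V := {x | ∃ Y : Finset V, x ∈ Y ∧ YY H Ma Y}

theorem sub_AA {H : Set (Finset V)} {Ma : Set V} {Y : Finset V} (hY : YY H Ma Y) :
    (Y : Set V) ⊆ AA H Ma := fun _ hx => ⟨Y, Finset.mem_coe.1 hx, hY⟩

theorem Ma_sub_AA {H : Set (Finset V)} {Ma : Set V} : Ma ⊆ AA H Ma := by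
  intro x hx
  refine ⟨{x}, Finset.mem_singleton_self x, gg_of_subset ?_⟩
  intro y hy
  rw [Finset.mem_coe, Finset.mem_singleton] at hy
  rw [hy]
  exact hx

theorem exists_YY {H : Set (Finset V)} {Ma : Set V} (hMa : Strong H Ma Set.univ) (X : Finset V) :
    (X : Set V) ⊆ AA H Ma → ∃ Y : Finset V, X ⊆ Y ∧ YY H Ma Y := by
  induction X using Finset.induction_on with
  | empty => exact fun _ => ⟨∅, subset_rfl, gg_of_subset (by simp)⟩
  | insert x X hx ih =>
    intro h
    obtain ⟨Y, h1, h2⟩ := ih (fun v hv => h (Finset.mem_coe.2 (Finset.mem_insert_of_mem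
      (Finset.mem_coe.1 hv))))
    obtain ⟨Y', h3, h4⟩ := h (Finset.mem_coe.2 (Finset.mem_insert_self x X))
    refine ⟨Y' ∪ Y, ?_, YY_union hMa h4 h2⟩
    intro v hv
    rcases Finset.mem_insert.1 hv with rfl | hv
    · exact Finset.mem_union_left _ h3
    · exact Finset.mem_union_right _ (h1 hv)

/-- in a member of `YY` the new edges are triples -/
theorem YY_triple {H : Set (Finset V)} {Ma : Set V} (hMa : Strong H Ma Set.univ) {Y : Finset V}
    (hY : YY H Ma Y) {e : Finset V} (he : e ∈ H) (heY : e ⊆ Y) (heM : ¬ (e : Set V) ⊆ Ma) :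
    e.card = 3 := by
  have h1 := dl_KN H Ma Y
  have h2 := hMa.2 Y (Set.subset_univ _)
  have h3 : gg H Ma Y = 0 := hY
  rw [gg_eq] at h3
  have h4 : dl (KN (H3 H) Ma) Y ≤ dl (KN H Ma) Y := by linarith
  have h5 : (edg (KN H Ma) Y).card ≤ (edg (KN (H3 H) Ma) Y).card := by
    unfold dl at h4
    have : ((edg (KN H Ma) Y).card : ℤ) ≤ ((edg (KN (H3 H) Ma) Y).card : ℤ) := by linarith
    exact_mod_cast this
  have h6 : edg (KN (H3 H) Ma) Y ⊆ edg (KN H Ma) Y := by
    intro e he
    rw [mem_edg] at he ⊢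
    exact ⟨he.1, KN_sub H Ma he.2⟩
  have h7 := Finset.eq_of_subset_of_card_le h6 h5
  have h8 : e ∈ edg (KN H Ma) Y := mem_edg.2 ⟨heY, he, heM⟩
  rw [← h7, mem_edg] at h8
  exact h8.2.1.2

theorem YY_dl {H : Set (Finset V)} {Ma : Set V} (hMa : Strong H Ma Set.univ) {Y : Finset V}
    (hY : YY H Ma Y) : dl H Y = dl H (Y.filter (fun v => v ∈ Ma)) := by
  have h1 := gg_ge (H := H) (Ma := Ma) Y
  have h2 := hMa.2 Y (Set.subset_univ _)
  have h3 : gg H Ma Y = 0 := hY
  linarith

/-- (iv) the closure is strong -/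
theorem strong_AA {H : Set (Finset V)} {Ma : Set V} (hMa : Strong H Ma Set.univ) :
    Strong H (AA H Ma) Set.univ := by
  refine ⟨Set.subset_univ _, fun Z _ => ?_⟩
  obtain ⟨Y, h1, h2⟩ := exists_YY hMa (Z.filter (fun v => v ∈ AA H Ma)) (by
    intro v hv
    exact (Finset.mem_filter.1 (Finset.mem_coe.1 hv)).2)
  have h3 : Z ∩ Y = Z.filter (fun v => v ∈ AA H Ma) := by
    ext v
    rw [Finset.mem_inter, Finset.mem_filter]
    constructor
    · rintro ⟨h4, h5⟩
      exact ⟨h4, sub_AA h2 (Finset.mem_coe.2 h5)⟩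
    · rintro ⟨h4, h5⟩
      exact ⟨h4, h1 (Finset.mem_filter.2 ⟨h4, h5⟩)⟩
  have h4 := dl_submod H Z Y
  rw [h3] at h4
  have h5 : dl H (Y.filter (fun v => v ∈ Ma)) ≤ dl H (Z ∪ Y) := by
    apply hMa.le (Set.subset_univ _)
    intro v
    rw [Finset.mem_filter, Finset.mem_union]
    constructor
    · rintro ⟨h6, h7⟩
      exact ⟨Or.inr h6, h7⟩
    · rintro ⟨h6 | h6, h7⟩
      · exact ⟨h1 (Finset.mem_filter.2 ⟨h6, Ma_sub_AA h7⟩), h7⟩
      · exact ⟨h6, h7⟩
  rw [← YY_dl hMa h2] at h5
  linarith

/-- (v) closure under codes with triples only -/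
theorem cop_AA {H : Set (Finset V)} {Ma : Set V} (hMa : Strong H Ma Set.univ) {α : Code}
    {b : Fin α.m → V} {f : Fin α.n → V} (h3 : ∀ e ∈ α.E, e.card = 3) (hb : ∀ j, b j ∈ AA H Ma)
    (hc : Cop H α b f) : ∀ k, f k ∈ AA H Ma := by
  obtain ⟨Y, h1, h2⟩ := exists_YY hMa (ran b) (by
    intro v hv
    obtain ⟨j, rfl⟩ := mem_ran.1 (Finset.mem_coe.1 hv)
    exact hb j)
  set W := Y ∪ (ran f).filter (fun v => v ∈ Ma) with hW
  have hWY : YY H Ma W := by
    apply YY_union hMa h2
    apply gg_of_subset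
    intro v hv
    exact (Finset.mem_filter.1 (Finset.mem_coe.1 hv)).2
  have hc3 : Cop (H3 H) α b f := by
    refine ⟨hc.1, fun e he => ⟨hc.2 e he, ?_⟩⟩
    rw [Finset.card_image_of_injective _ hc.1]
    exact h3 e he
  have h4 := cop_dl_le hc3 (Y := W) (fun j => Finset.mem_union_left _ (h1 (apply_mem_ran b j)))
  have h5 : (W ∪ ran f).filter (fun v => v ∈ Ma) = W.filter (fun v => v ∈ Ma) := by
    ext v
    rw [Finset.mem_filter, Finset.mem_filter, Finset.mem_union]
    constructor
    · rintro ⟨h6 | h6, h7⟩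
      · exact ⟨h6, h7⟩
      · exact ⟨Finset.mem_union_right _ (Finset.mem_filter.2 ⟨h6, h7⟩), h7⟩
    · rintro ⟨h6, h7⟩
      exact ⟨Or.inl h6, h7⟩
  have h6 : YY H Ma (W ∪ ran f) := by
    have h7 : gg H Ma W = 0 := hWY
    have h8 := gg_nonneg hMa (W ∪ ran f)
    unfold YY
    unfold gg at h7 h8 ⊢
    rw [h5] at h8 ⊢
    linarith
  intro k
  exact sub_AA h6 (Finset.mem_coe.2 (Finset.mem_union_right _ (apply_mem_ran f k)))

/-- (vi) -/
theorem dl_AA {H : Set (Finset V)} {Ma : Set V} (hMa : Strong H Ma Set.univ) {X Z : Finset V}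
    (hX : (X : Set V) ⊆ AA H Ma) (hZ : ∀ z ∈ Z, z ∉ AA H Ma) (hne : Z.Nonempty) :
    dl (H3 H) X + 1 ≤ dl (H3 H) (X ∪ Z) := by
  obtain ⟨Y, h1, h2⟩ := exists_YY hMa X hX
  have h3 : Y ∩ (X ∪ Z) = X := by
    ext v
    rw [Finset.mem_inter, Finset.mem_union]
    constructor
    · rintro ⟨h4, h5 | h5⟩
      · exact h5
      · exact absurd (sub_AA h2 (Finset.mem_coe.2 h4)) (hZ v h5)
    · intro h4
      exact ⟨h1 h4, Or.inl h4⟩
  have h4 : Y ∪ (X ∪ Z) = Y ∪ Z := by
    rw [← Finset.union_assoc, Finset.union_eq_left.2 h1]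
  have h5 := dl_submod (H3 H) Y (X ∪ Z)
  rw [h3, h4] at h5
  have h6 : (Y ∪ Z).filter (fun v => v ∈ Ma) = Y.filter (fun v => v ∈ Ma) := by
    ext v
    rw [Finset.mem_filter, Finset.mem_filter, Finset.mem_union]
    constructor
    · rintro ⟨h6 | h6, h7⟩
      · exact ⟨h6, h7⟩
      · exact absurd (Ma_sub_AA h7) (hZ v h6)
    · rintro ⟨h6, h7⟩
      exact ⟨Or.inl h6, h7⟩
  have h7 : gg H Ma Y = 0 := h2
  have h8 : gg H Ma (Y ∪ Z) ≠ 0 := by
    intro h9
    obtain ⟨z, hz⟩ := hne
    exact hZ z hz (sub_AA (show YY H Ma (Y ∪ Z) from h9)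
      (Finset.mem_coe.2 (Finset.mem_union_right _ hz)))
  have h9 := gg_nonneg hMa (Y ∪ Z)
  have h10 : 1 ≤ gg H Ma (Y ∪ Z) := by omega
  unfold gg at h7 h10
  rw [h6] at h10
  linarith

/-- the hypergraph for the extension problem -/
def Hst (H : Set (Finset V)) (X : Finset V) : Set (Finset V) := {e | e ∈ H ∧ (e ⊆ X ∨ e.card = 3)}

theorem strong_Hst {H : Set (Finset V)} {Ma : Set V} (hMa : Strong H Ma Set.univ) {X Z : Finset V}
    (hX : (X : Set V) ⊆ AA H Ma) (hZ : ∀ z ∈ Z, z ∉ AA H Ma) :
    Strong (Hst H X) (X : Set V) ((X ∪ Z : Finset V) : Set V) := by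
  apply strong_of_le_union (by rw [Finset.coe_subset]; exact Finset.subset_union_left)
  intro Z' hZ'
  have h1 : X ∪ Z' = X ∪ (Z' \ X) := by rw [Finset.union_sdiff_self_eq_union]
  rw [h1]
  have h2 : ∀ z ∈ Z' \ X, z ∉ AA H Ma := by
    intro z hz
    rw [Finset.mem_sdiff] at hz
    have h3 := hZ' (Finset.mem_coe.2 hz.1)
    rw [Finset.mem_coe, Finset.mem_union] at h3
    exact hZ z (h3.resolve_left hz.2)
  rcases (Z' \ X).eq_empty_or_nonempty with h3 | h3
  · rw [h3, Finset.union_empty]
  · have h4 := dl_AA hMa hX h2 h3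
    have h5 := dl_eq_of_edges (H := H3 H) (X := X) (Z := X ∪ (Z' \ X)) Finset.subset_union_left
      ((edg (H3 H) (X ∪ (Z' \ X))).filter (fun e => ¬ e ⊆ X)) (by
        intro e
        rw [Finset.mem_filter, mem_edg]
        tauto)
    have h6 := dl_eq_of_edges (H := Hst H X) (X := X) (Z := X ∪ (Z' \ X)) Finset.subset_union_left
      ((edg (H3 H) (X ∪ (Z' \ X))).filter (fun e => ¬ e ⊆ X)) (by
        intro e
        rw [Finset.mem_filter, mem_edg]
        constructor
        · rintro ⟨⟨h7, h8, h9⟩, h10⟩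
          exact ⟨⟨h8, Or.inr h9⟩, h7, h10⟩
        · rintro ⟨⟨h7, h8⟩, h9, h10⟩
          exact ⟨⟨h9, h7, h8.resolve_left h10⟩, h10⟩)
    linarith

/-- (i) adding one point to a set -/
theorem strong_insert {H : Set (Finset V)} {R Ma : Set V} {a : V}
    (hm : ∀ v, v ∈ Ma ↔ v = a ∨ v ∈ R)
    (hstr : ∀ Z : Finset V, ¬ (Z : Set V) ⊆ R → dl H (Z.filter (fun v => v ∈ R)) + 1 ≤ dl H Z) :
    Strong H Ma Set.univ := by
  have hRM : R ⊆ Ma := fun v hv => (hm v).2 (Or.inr hv)
  refine ⟨Set.subset_univ _, fun Z _ => ?_⟩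
  by_cases hZ : (Z : Set V) ⊆ R
  · rw [filter_mem_of_subset (hZ.trans hRM)]
  · have h5 := hstr Z hZ
    by_cases haZ : a ∈ Z
    · have h7 : Z.filter (fun v => v ∈ Ma) = insert a (Z.filter (fun v => v ∈ R)) := by
        ext v
        rw [Finset.mem_filter, Finset.mem_insert, Finset.mem_filter, hm]
        constructor
        · rintro ⟨h, h' | h'⟩
          · exact Or.inl h'
          · exact Or.inr ⟨h, h'⟩
        · rintro (h | ⟨h, h'⟩)
          · rw [h]
            exact ⟨haZ, Or.inl rfl⟩
          · exact ⟨h, Or.inr h'⟩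
      rw [h7]
      have h8 := dl_insert_le H a (Z.filter (fun v => v ∈ R))
      linarith
    · have h7 : Z.filter (fun v => v ∈ Ma) = Z.filter (fun v => v ∈ R) := by
        ext v
        rw [Finset.mem_filter, Finset.mem_filter, hm]
        constructor
        · rintro ⟨h, h' | h'⟩
          · rw [h'] at h
            exact absurd h haZ
          · exact ⟨h, h'⟩
        · rintro ⟨h, h'⟩
          exact ⟨h, Or.inr h'⟩
      rw [h7]
      linarith

/-- closure under triples -/
theorem triple_AA {H : Set (Finset V)} {Ma : Set V} (hMa : Strong H Ma Set.univ) {Y : Finset V}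
    (hYY : YY H Ma Y) {a y z : V} (ha : a ∈ Y) (hy : y ∈ Y) (he : ({a, y, z} : Finset V) ∈ H)
    (hc : ({a, y, z} : Finset V).card = 3) : z ∈ AA H Ma := by
  by_cases hzM : z ∈ Ma
  · exact Ma_sub_AA hzM
  by_cases hzY : z ∈ Y
  · exact sub_AA hYY (Finset.mem_coe.2 hzY)
  have h5 := dl_le_of_edges (H := H3 H) (X := Y) (Z := insert z Y) (Finset.subset_insert _ _)
    {({a, y, z} : Finset V)} (by
      intro e he'
      rw [Finset.mem_singleton] at he'
      subst he'
      refine ⟨⟨he, hc⟩, ?_, ?_⟩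
      · intro v hv
        simp only [Finset.mem_insert, Finset.mem_singleton] at hv
        rcases hv with rfl | rfl | rfl
        · exact Finset.mem_insert_of_mem ha
        · exact Finset.mem_insert_of_mem hy
        · exact Finset.mem_insert_self _ _
      · intro h
        exact hzY (h (by simp)))
  have h6 : (insert z Y \ Y).card = 1 := by
    rw [Finset.insert_sdiff_of_notMem _ hzY, Finset.sdiff_self]
    simp
  rw [h6, Finset.card_singleton] at h5
  have h7 : (insert z Y).filter (fun v => v ∈ Ma) = Y.filter (fun v => v ∈ Ma) := by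
    rw [Finset.filter_insert, if_neg hzM]
  have h8 : YY H Ma (insert z Y) := by
    have h9 : gg H Ma Y = 0 := hYY
    have h10 := gg_nonneg hMa (insert z Y)
    unfold YY
    unfold gg at h9 h10 ⊢
    rw [h7] at h10 ⊢
    push_cast at h5
    linarith
  exact sub_AA h8 (Finset.mem_coe.2 (Finset.mem_insert_self _ _))

/-! ### triples -/

variable {N : Type} [LT.Structure N]

theorem tri_perm (hN : Good N) {a b c x y z : N} (hab : a ≠ b) (hac : a ≠ c) (hbc : b ≠ c)
    (h : tri x y z) (he : ({a, b, c} : Finset N) = {x, y, z}) : tri a b c := by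
  have s1 : ∀ {p q r : N}, tri p q r → tri q p r := fun h => (hN.sym _ _ _ h).1
  have s2 : ∀ {p q r : N}, tri p q r → tri p r q := fun h => (hN.sym _ _ _ h).2
  have ha : a = x ∨ a = y ∨ a = z := by
    have : a ∈ ({x, y, z} : Finset N) := by rw [← he]; simp
    simpa using this
  have hb : b = x ∨ b = y ∨ b = z := by
    have : b ∈ ({x, y, z} : Finset N) := by rw [← he]; simp
    simpa using this
  have hc : c = x ∨ c = y ∨ c = z := by
    have : c ∈ ({x, y, z} : Finset N) := by rw [← he]; simp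
    simpa using this
  rcases ha with rfl | rfl | rfl <;> rcases hb with rfl | rfl | rfl <;>
    rcases hc with rfl | rfl | rfl <;> first
      | exact absurd rfl hab
      | exact absurd rfl hac
      | exact absurd rfl hbc
      | exact h
      | exact s1 h
      | exact s2 h
      | exact s1 (s2 h)
      | exact s2 (s1 h)
      | exact s1 (s2 (s1 h))

theorem tri_iff (hN : Good N) {a b c : N} (hab : a ≠ b) (hac : a ≠ c) (hbc : b ≠ c) :
    tri a b c ↔ ({a, b, c} : Finset N) ∈ Hs N := by
  constructor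
  · intro h
    exact Or.inl ⟨a, b, c, hab, hac, hbc, rfl, h⟩
  · rintro (⟨x, y, z, _, _, _, h4, h5⟩ | ⟨x, y, h1, h2, _⟩)
    · exact tri_perm hN hab hac hbc h5 h4
    · exfalso
      have h3 : ({a, b, c} : Finset N).card = 3 := Finset.card_eq_three.2 ⟨a, b, c, hab, hac, hbc, rfl⟩
      rw [h2, Finset.card_pair h1] at h3
      omega

end Sand

open Sand

theorem st_Sand (h1 : St_Trans) (h2 : St_El) (h3 : St_Free) (h4 : St_Ext) : St_Sand := by
  intro M _ hM hMc
  have : Infinite M := by
    by_contra hinf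
    rw [not_infinite_iff_finite] at hinf
    exact hMc (Set.to_countable _)
  have hL : LT.card ≤ Cardinal.aleph0 := by
    rw [Language.card, Cardinal.mk_le_aleph0_iff]
    have : ∀ n, Countable (LT.Functions n) := fun n => (inferInstance : Countable Empty)
    have : ∀ n, Countable (LT.Relations n) := by
      intro n
      have : Countable (Rel n) := by
        refine ⟨⟨fun _ => 0, ?_⟩⟩
        intro x y _
        cases x
        cases y
        rfl
      exact this
    infer_instance
  obtain ⟨N, ⟨j⟩, hNc⟩ := LT.exists_elementaryEmbedding_card_eq_of_ge M (2 ^ Cardinal.mk M)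
    (by
      simp only [Cardinal.lift_id]
      exact hL.trans ((Cardinal.aleph0_le_mk M).trans (Cardinal.cantor _).le))
    (by
      simp only [Cardinal.lift_id]
      exact (Cardinal.cantor _).le)
  have hNg : Good N := h1 M N j.elementarilyEquivalent (hM.ne.map j) hM
  have hstr := h2 M N j hM hNg
  -- a new point
  have hns : ¬ Function.Surjective j := by
    intro hs
    have h5 := Cardinal.mk_le_of_surjective hs
    rw [hNc] at h5
    exact absurd h5 (not_le.2 (Cardinal.cantor _))
  obtain ⟨a, ha⟩ : ∃ a : N, a ∉ Set.range j := by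
    by_contra hcon
    push Not at hcon
    exact hns hcon
  set H := Hs N with hH
  set Ma : Set N := insert a (Set.range j) with hMadef
  -- (i)
  have hMa : Strong H Ma Set.univ := by
    apply strong_insert (fun v => Set.mem_insert_iff)
    intro Z hZ
    convert hstr Z hZ
  have hjA : Set.range j ⊆ AA H Ma := (Set.subset_insert _ _).trans Ma_sub_AA
  have haA : a ∈ AA H Ma := Ma_sub_AA (Set.mem_insert _ _)
  have hinC : InC H Set.univ := hNg.inC
  refine ⟨N, inferInstance, j, AA H Ma, hjA, ⟨a, haA, ?_⟩, ?_⟩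
  · -- (iii)
    intro y hyA hya
    obtain ⟨Y, hYs, hYY⟩ := exists_YY hMa ({a, y} : Finset N) (by
      intro v hv
      rw [Finset.mem_coe, Finset.mem_insert, Finset.mem_singleton] at hv
      rcases hv with rfl | rfl
      · exact haA
      · exact hyA)
    have hnot : ({a, y} : Finset N) ∉ H := by
      intro hmem
      have hym : y ∈ Ma := by
        by_contra hym
        have h5 := YY_triple hMa hYY hmem hYs (fun h => hym (h (by simp)))
        rw [Finset.card_pair hya.symm] at h5
        omega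
      have hyj : y ∈ Set.range j := by
        rcases hym with h | h
        · exact absurd h hya
        · exact h
      have h5 := hstr {a, y} (fun h => ha (h (by simp)))
      have h6 : ({a, y} : Finset N).filter (fun v => v ∈ Set.range j) = {y} := by
        ext v
        simp only [Finset.mem_filter, Finset.mem_insert, Finset.mem_singleton]
        constructor
        · rintro ⟨rfl | rfl, h⟩
          · exact absurd h ha
          · rfl
        · rintro rfl
          exact ⟨Or.inr rfl, hyj⟩
      rw [h6] at h5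
      have h7 : dl H ({y} : Finset N) = 1 := by
        have : edg H ({y} : Finset N) = ∅ := by
          rw [Finset.eq_empty_iff_forall_notMem]
          intro e he
          rw [mem_edg] at he
          have h8 := hinC.k1 e he.2 (Set.subset_univ _)
          have h9 := Finset.card_le_card he.1
          rw [Finset.card_singleton] at h9
          omega
        rw [dl, this]
        simp
      have h8 : dl H ({a, y} : Finset N) ≤ 1 := by
        have h9 : ({a, y} : Finset N) ∈ edg H {a, y} := mem_edg.2 ⟨subset_rfl, hmem⟩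
        have h10 : 1 ≤ (edg H ({a, y} : Finset N)).card := Finset.card_pos.2 ⟨_, h9⟩
        have h11 : ({a, y} : Finset N).card = 2 := Finset.card_pair hya.symm
        rw [dl, h11]
        zify at h10
        push_cast
        linarith
      linarith
    have hex : ∃ z, tri a y z := by
      by_contra hcon
      push Not at hcon
      exact hnot (Or.inr ⟨a, y, hya.symm, rfl, hcon⟩)
    obtain ⟨z, hz⟩ := hex
    refine ⟨z, ?_, hz⟩
    obtain ⟨d1, d2, d3⟩ := hNg.dist a y z hz
    exact triple_AA hMa hYY (hYs (by simp)) (hYs (by simp)) ((tri_iff hNg d1 d2 d3).1 hz)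
      (Finset.card_eq_three.2 ⟨a, y, z, d1, d2, d3, rfl⟩)
  · -- (vii)
    intro X0 Z0 hX0
    have hAstr := strong_AA hMa
    obtain ⟨X1, hX1, hX1A, hX1s⟩ := exists_closure hAstr
      (fun X _ => hinC.k5 X (Set.subset_univ _)) (X0 ∪ Z0.filter (fun v => v ∈ AA H Ma)) (by
        intro v hv
        rcases Finset.mem_union.1 (Finset.mem_coe.1 hv) with hv | hv
        · exact hX0 (Finset.mem_coe.2 hv)
        · exact (Finset.mem_filter.1 hv).2)
    set Z := Z0.filter (fun v => v ∉ AA H Ma) with hZdef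
    have hZ : ∀ z ∈ Z, z ∉ AA H Ma := fun z hz => (Finset.mem_filter.1 hz).2
    have hsub : X0 ∪ Z0 ⊆ X1 ∪ Z := by
      intro v hv
      rcases Finset.mem_union.1 hv with hv | hv
      · exact Finset.mem_union_left _ (hX1 (Finset.mem_union_left _ hv))
      · by_cases h : v ∈ AA H Ma
        · exact Finset.mem_union_left _ (hX1 (Finset.mem_union_right _ (Finset.mem_filter.2 ⟨hv, h⟩)))
        · exact Finset.mem_union_right _ (Finset.mem_filter.2 ⟨hv, h⟩)
    have hstr' := strong_Hst hMa hX1A hZ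
    have hjc : ¬ (Set.range j).Countable := by
      intro h
      apply hMc
      have : (j '' Set.univ).Countable := by rwa [Set.image_univ]
      exact Set.countable_of_injective_of_countable_image (j.injective.injOn) this
    obtain ⟨h, g1, g2, g3⟩ := h4 N N (Hst H X1) H (AA H Ma) (fun n => n = 3) hinC hNg.lr
      (by
        intro X _ hXs
        obtain ⟨c, hc, hc'⟩ := h3 N H (Set.range j) hinC hjc X hXs
        exact ⟨c, hjA hc, hc'⟩)
      (by
        intro α b f hq hb hc
        exact cop_AA hMa hq hb hc)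
      X1 (X1 ∪ Z) id Finset.subset_union_left
      (by
        refine ⟨Set.injOn_id _, ?_, ?_⟩
        · intro e he
          rw [Finset.image_id]
          constructor
          · intro h
            exact h.1
          · intro h
            exact ⟨h, Or.inl he⟩
        · rw [Finset.image_id]
          exact hX1s)
      (fun y hy => hX1A (Finset.mem_coe.2 hy))
      hstr'
      ((hinC.mono_edges (fun e he => he.1)).mono_set (Set.subset_univ _))
      (by
        intro e he _ hn
        exact he.2.resolve_left hn)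
    refine ⟨h, ?_, ?_, ?_, ?_⟩
    · exact g2.1.mono (Finset.coe_subset.2 hsub)
    · intro x hx
      exact g1 x (hX1 (Finset.mem_union_left _ hx))
    · intro z hz
      exact g3 z (hsub hz)
    · intro p hp q hq r hr
      have hinj := g2.1
      by_cases hpq : p = q
      · constructor
        · intro ht
          exact absurd hpq (hNg.dist _ _ _ ht).1
        · intro ht
          exact absurd (by rw [hpq]) (hNg.dist _ _ _ ht).1
      by_cases hpr : p = r
      · constructor
        · intro ht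
          exact absurd hpr (hNg.dist _ _ _ ht).2.1
        · intro ht
          exact absurd (by rw [hpr]) (hNg.dist _ _ _ ht).2.1
      by_cases hqr : q = r
      · constructor
        · intro ht
          exact absurd hqr (hNg.dist _ _ _ ht).2.2
        · intro ht
          exact absurd (by rw [hqr]) (hNg.dist _ _ _ ht).2.2
      have e1 : h p ≠ h q := fun he => hpq (hinj (hsub hp) (hsub hq) he)
      have e2 : h p ≠ h r := fun he => hpr (hinj (hsub hp) (hsub hr) he)
      have e3 : h q ≠ h r := fun he => hqr (hinj (hsub hq) (hsub hr) he)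
      rw [tri_iff hNg hpq hpr hqr, tri_iff hNg e1 e2 e3]
      have h5 := g2.2.1 ({p, q, r} : Finset N) (by
        intro v hv
        simp only [Finset.mem_insert, Finset.mem_singleton] at hv
        rcases hv with rfl | rfl | rfl
        · exact hsub hp
        · exact hsub hq
        · exact hsub hr)
      rw [Finset.image_insert, Finset.image_insert, Finset.image_singleton] at h5
      rw [← h5]
      constructor
      · intro h6
        exact ⟨h6, Or.inr (Finset.card_eq_three.2 ⟨p, q, r, hpq, hpr, hqr, rfl⟩)⟩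
      · intro h6
        exact h6.1

end H912SM
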