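import Pool.Agent.H912R2.SM.FO
import Pool.Agent.H912R2.SM.Basic2

/-!
# Goodness is preserved by elementary equivalence (task T8b, helper605)
-/

set_option autoImplicit false

open scoped Classical
open FirstOrder FirstOrder.Language

namespace H912SM

/-- two tuples with the same diagram -/
structure SD {p : ℕ} (M : Type) [LT.Structure M] (v : Fin p → M) (M' : Type) [LT.Structure M']
    (v' : Fin p → M') : Prop where
  eq : ∀ i j, v i = v j ↔ v' i = v' j
  ed : ∀ e : Finset (Fin p), e.image v ∈ Hs M ↔ e.image v' ∈ Hs M'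

theorem SD.symm {p : ℕ} {M : Type} [LT.Structure M] {v : Fin p → M} {M' : Type} [LT.Structure M']
    {v' : Fin p → M'} (h : SD M v M' v') : SD M' v' M v :=
  ⟨fun i j => (h.eq i j).symm, fun e => (h.ed e).symm⟩

theorem SD.ed' {p : ℕ} {M : Type} [LT.Structure M] {v : Fin p → M} {M' : Type} [LT.Structure M']
    {v' : Fin p → M'} (h : SD M v M' v') {ι : Type} (σ : ι → Fin p) (e : Finset ι) :
    e.image (v ∘ σ) ∈ Hs M ↔ e.image (v' ∘ σ) ∈ Hs M' := by
  rw [← Finset.image_image, ← Finset.image_image]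
  exact h.ed _

theorem FO.ofSD {p : ℕ} {Q : ∀ (M : Type) [LT.Structure M], (Fin p → M) → Prop}
    (h : ∀ (M : Type) [LT.Structure M] (v : Fin p → M) (M' : Type) [LT.Structure M']
      (v' : Fin p → M'), SD M v M' v' → Q M v → Q M' v') : FO Q := by
  apply FO.diag
  intro M _ v M' _ v' h1 h2
  exact ⟨h M v M' v' ⟨h1, h2⟩, h M' v' M v (SD.symm ⟨h1, h2⟩)⟩

theorem empty_notMem_Hs (M : Type) [LT.Structure M] : (∅ : Finset M) ∉ Hs M := by
  rintro (⟨a, b, c, -, -, -, h, -⟩ | ⟨a, b, -, h, -⟩)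
  · have : a ∈ (∅ : Finset M) := by rw [h]; simp
    simp at this
  · have : a ∈ (∅ : Finset M) := by rw [h]; simp
    simp at this

theorem dl_empty_Hs (M : Type) [LT.Structure M] : dl (Hs M) ∅ = 0 := by
  unfold dl
  have : edg (Hs M) ∅ = ∅ := by
    rw [Finset.eq_empty_iff_forall_notMem]
    intro e he
    rw [mem_edg, Finset.subset_empty] at he
    exact empty_notMem_Hs M (he.1 ▸ he.2)
  rw [this]
  simp

theorem SD.dl_eq {p : ℕ} {M : Type} [LT.Structure M] {v : Fin p → M} {M' : Type}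
    [LT.Structure M'] {v' : Fin p → M'} (h : SD M v M' v') (A : Finset (Fin p)) :
    dl (Hs M') (A.image v') = dl (Hs M) (A.image v) := by
  by_cases hne : Nonempty M'
  · set g : M → M' := fun m => if h : ∃ i, v i = m then v' h.choose else Classical.arbitrary M'
      with hg
    have hgv : ∀ i, g (v i) = v' i := by
      intro i
      have hex : ∃ j, v j = v i := ⟨i, rfl⟩
      simp only [hg, dif_pos hex]
      exact (h.eq _ _).1 hex.choose_spec
    have himg : ∀ B : Finset (Fin p), (B.image v).image g = B.image v' := by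
      intro B
      rw [Finset.image_image]
      exact Finset.image_congr fun i _ => hgv i
    rw [← himg A]
    apply dl_map
    · intro a ha b hb hab
      obtain ⟨i, -, rfl⟩ := Finset.mem_image.1 (Finset.mem_coe.1 ha)
      obtain ⟨j, -, rfl⟩ := Finset.mem_image.1 (Finset.mem_coe.1 hb)
      rw [hgv, hgv] at hab
      exact (h.eq _ _).2 hab
    · intro e he
      obtain ⟨B, -, rfl⟩ := Finset.subset_image_iff.1 he
      rw [himg]
      exact h.ed B
  · have hA : A = ∅ := by
      rw [Finset.eq_empty_iff_forall_notMem]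
      intro i _
      exact hne ⟨v' i⟩
    rw [hA, Finset.image_empty, Finset.image_empty, dl_empty_Hs, dl_empty_Hs]

theorem SD.cop {p : ℕ} {M : Type} [LT.Structure M] {v : Fin p → M} {M' : Type}
    [LT.Structure M'] {v' : Fin p → M'} (h : SD M v M' v') {α : Code} {β : Fin α.m → Fin p}
    {γ : Fin α.n → Fin p} (hc : Cop (Hs M) α (v ∘ β) (v ∘ γ)) :
    Cop (Hs M') α (v' ∘ β) (v' ∘ γ) := by
  obtain ⟨h1, h2⟩ := hc
  rw [← Sum.comp_elim] at h1 h2
  refine ⟨?_, ?_⟩
  · rw [← Sum.comp_elim]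
    intro x y hxy
    apply h1
    exact (h.eq _ _).2 hxy
  · intro e he
    rw [← Sum.comp_elim]
    exact (h.ed' _ e).1 (h2 e he)

/-- transfer of universally quantified first order statements -/
theorem FO.transfer_all {M N : Type} [LT.Structure M] [LT.Structure N] (hMN : M ≅[LT] N) {q : ℕ}
    {Q : ∀ (M : Type) [LT.Structure M], (Fin q → M) → Prop} (h : FO Q)
    (hM : ∀ w : Fin q → M, Q M w) : ∀ w : Fin q → N, Q N w := by
  have h1 := FO.allFin (p := 0) (FO.reindex (Fin.natAdd 0 : Fin q → Fin (0 + q)) h)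
  have h2 := FO.transfer hMN h1 Fin.elim0 Fin.elim0
  have e1 : ∀ (K : Type) (w : Fin q → K),
      (Fin.append (Fin.elim0 : Fin 0 → K) w) ∘ (Fin.natAdd 0 : Fin q → Fin (0 + q)) = w := by
    intro K w
    funext i
    exact Fin.append_right _ _ i
  simp only [e1] at h2
  exact h2.1 hM

/-- every finite set is the range of a tuple -/
theorem exists_ran {V : Type} (X : Finset V) : ∃ (p : ℕ) (v : Fin p → V), ran v = X := by
  refine ⟨X.card, fun i => (X.equivFin.symm i : V), ?_⟩
  ext x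
  rw [mem_ran]
  constructor
  · rintro ⟨k, rfl⟩
    exact (X.equivFin.symm k).2
  · intro hx
    exact ⟨X.equivFin ⟨x, hx⟩, by simp⟩

theorem card_Hs {M : Type} [LT.Structure M] {e : Finset M} (he : e ∈ Hs M) :
    e.card = 2 ∨ e.card = 3 := by
  rcases he with ⟨a, b, c, h1, h2, h3, rfl, -⟩ | ⟨a, b, h1, rfl, -⟩
  · right
    rw [Finset.card_insert_of_notMem (by simp [h1, h2]),
      Finset.card_insert_of_notMem (by simp [h3]), Finset.card_singleton]
  · left
    exact Finset.card_pair h1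

/-- edges are images of `Fin 3` -/
theorem Hs_image {M : Type} [LT.Structure M] {e : Finset M} (he : e ∈ Hs M) :
    ∃ w : Fin 3 → M, Finset.univ.image w = e := by
  rcases he with ⟨a, b, c, h1, h2, h3, rfl, -⟩ | ⟨a, b, h1, rfl, -⟩
  · refine ⟨![a, b, c], ?_⟩
    ext x
    simp only [Finset.mem_image, Finset.mem_univ, true_and, Finset.mem_insert,
      Finset.mem_singleton, Fin.exists_fin_succ]
    simp [eq_comm]
  · refine ⟨![a, b, b], ?_⟩
    ext x
    simp only [Finset.mem_image, Finset.mem_univ, true_and, Finset.mem_insert,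
      Finset.mem_singleton]
    simp [Fin.exists_fin_succ, eq_comm]

section Fields

variable {M N : Type} [LT.Structure M] [LT.Structure N]

theorem trans_dist (hMN : M ≅[LT] N) (hM : Good M) :
    ∀ a b c : N, tri a b c → a ≠ b ∧ a ≠ c ∧ b ≠ c := by
  have h : FO (p := 3) (fun M _ v => tri (v 0) (v 1) (v 2) → v 0 ≠ v 1 ∧ v 0 ≠ v 2 ∧ v 1 ≠ v 2) :=
    FO.imp (FO.tri 0 1 2) (FO.and (FO.not (FO.eq 0 1)) (FO.and (FO.not (FO.eq 0 2))
      (FO.not (FO.eq 1 2))))
  have h1 := FO.transfer_all hMN h (fun w => hM.dist _ _ _)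
  intro a b c
  exact h1 ![a, b, c]

theorem trans_sym (hMN : M ≅[LT] N) (hM : Good M) :
    ∀ a b c : N, tri a b c → tri b a c ∧ tri a c b := by
  have h : FO (p := 3) (fun M _ v => tri (v 0) (v 1) (v 2) →
      tri (v 1) (v 0) (v 2) ∧ tri (v 0) (v 2) (v 1)) :=
    FO.imp (FO.tri 0 1 2) (FO.and (FO.tri 1 0 2) (FO.tri 0 2 1))
  have h1 := FO.transfer_all hMN h (fun w => hM.sym _ _ _)
  intro a b c
  exact h1 ![a, b, c]

theorem trans_mate (hMN : M ≅[LT] N) (hM : Good M) :
    ∀ x : N, ∃ y, y ≠ x ∧ ∀ z, ¬ tri x y z := by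
  have h : FO (p := 1) (fun M _ v => ∃ y : M, (Fin.snoc v y : Fin 2 → M) 1 ≠
      (Fin.snoc v y : Fin 2 → M) 0 ∧ ∀ z, ¬ tri ((Fin.snoc v y : Fin 2 → M) 0)
        ((Fin.snoc v y : Fin 2 → M) 1) z) :=
    FO.ex (p := 1) (Q := fun M _ w => w 1 ≠ w 0 ∧ ∀ z, ¬ tri (w 0) (w 1) z)
      (FO.and (FO.not (FO.eq 1 0)) (FO.noTri 0 1))
  have e0 : ∀ (K : Type) (v : Fin 1 → K) (y : K), (Fin.snoc v y : Fin 2 → K) 0 = v 0 := by
    intro K v y
    exact Fin.snoc_castSucc (α := fun _ => K) y v 0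
  have e1 : ∀ (K : Type) (v : Fin 1 → K) (y : K), (Fin.snoc v y : Fin 2 → K) 1 = y := by
    intro K v y
    exact Fin.snoc_last (α := fun _ => K) y v
  have h1 := FO.transfer_all hMN h (fun w => by
    obtain ⟨y, hy⟩ := hM.mate (w 0)
    refine ⟨y, ?_⟩
    rw [e0, e1]
    exact hy)
  intro x
  obtain ⟨y, hy⟩ := h1 (fun _ => x)
  rw [e0, e1] at hy
  exact ⟨y, hy⟩

theorem trans_k4 (hMN : M ≅[LT] N) (hM : Good M) :
    ∀ e ∈ Hs N, ∀ f ∈ Hs N, e ⊆ f → e = f := by
  have h : FO (p := 3) (fun M _ v => ∀ e0 : Finset (Fin 3), e0.image v ∈ Hs M →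
      (Finset.univ.image v) ∈ Hs M → ∀ i, ∃ j ∈ e0, v i = v j) := by
    apply FO.ofSD
    intro K _ v K' _ v' hs hQ e0 he0 huniv i
    obtain ⟨j, hj, hij⟩ := hQ e0 ((hs.ed e0).2 he0) ((hs.ed _).2 huniv) i
    exact ⟨j, hj, (hs.eq i j).1 hij⟩
  have h1 := FO.transfer_all hMN h (by
    intro w e0 he0 huniv i
    have h2 := hM.inC.k4 _ he0 _ huniv (Set.subset_univ _)
      (Finset.image_subset_image (Finset.subset_univ _))
    have h3 : w i ∈ e0.image w := by
      rw [h2]
      exact Finset.mem_image_of_mem w (Finset.mem_univ i)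
    obtain ⟨j, hj, hji⟩ := Finset.mem_image.1 h3
    exact ⟨j, hj, hji.symm⟩)
  intro e he f hf hef
  obtain ⟨w, rfl⟩ := Hs_image hf
  obtain ⟨e0, -, rfl⟩ := Finset.subset_image_iff.1 hef
  apply Finset.Subset.antisymm hef
  intro x hx
  obtain ⟨i, -, rfl⟩ := Finset.mem_image.1 hx
  obtain ⟨j, hj, hij⟩ := h1 w e0 he hf i
  exact Finset.mem_image.2 ⟨j, hj, hij.symm⟩

theorem trans_k5 (hMN : M ≅[LT] N) (hM : Good M) :
    ∀ X : Finset N, 0 ≤ dl (Hs N) X := by
  intro X
  obtain ⟨p, v, rfl⟩ := exists_ran X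
  have h : FO (p := p) (fun M _ v => 0 ≤ dl (Hs M) (ran v)) := by
    apply FO.ofSD
    intro K _ v K' _ v' hs hQ
    unfold ran at hQ ⊢
    rw [hs.dl_eq]
    exact hQ
  exact FO.transfer_all hMN h (fun w => hM.inC.k5 _ (Set.subset_univ _)) v

theorem trans_k6 (hMN : M ≅[LT] N) (hM : Good M) :
    ∀ α : Code, ¬ Viol (Hs N) Set.univ α := by
  intro α
  -- one tuple for all the points
  set q := α.m + (α.mu + 1) * α.n with hq
  let β : Fin α.m → Fin q := fun j => Fin.castAdd _ j
  let γ : Fin (α.mu + 1) → Fin α.n → Fin q := fun i k => Fin.natAdd α.m (finProdFinEquiv (i, k))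
  have h : FO (p := q) (fun M _ v => ¬ ((∀ i, Cop (Hs M) α (v ∘ β) (v ∘ γ i)) ∧
      ∀ i j, i ≠ j → ∀ k l, v (γ i k) ≠ v (γ j l))) := by
    apply FO.ofSD
    intro K _ v K' _ v' hs hQ hcon
    apply hQ
    refine ⟨fun i => hs.symm.cop (hcon.1 i), ?_⟩
    intro i j hij k l hkl
    exact hcon.2 i j hij k l ((hs.eq _ _).1 hkl)
  have h1 := FO.transfer_all hMN h (by
    rintro w ⟨h2, h3⟩
    exact hM.inC.k6 α ⟨w ∘ β, fun i => w ∘ γ i, fun _ => trivial, fun _ _ => trivial, h2, h3⟩)
  rintro ⟨b, F, -, -, h2, h3⟩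
  let w : Fin q → N := Fin.append b (fun t => F (finProdFinEquiv.symm t).1 (finProdFinEquiv.symm t).2)
  have hb : w ∘ β = b := by
    funext j
    exact Fin.append_left _ _ j
  have hF : ∀ i, w ∘ γ i = F i := by
    intro i
    funext k
    have := Fin.append_right b
      (fun t => F (finProdFinEquiv.symm t).1 (finProdFinEquiv.symm t).2) (finProdFinEquiv (i, k))
    refine this.trans ?_
    rw [Equiv.symm_apply_apply]
  apply h1 w
  refine ⟨fun i => ?_, fun i j hij k l => ?_⟩
  · rw [hb, hF]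
    exact h2 i
  · have e1 : w (γ i k) = F i k := congrFun (hF i) k
    have e2 : w (γ j l) = F j l := congrFun (hF j) l
    rw [e1, e2]
    exact h3 i j hij k l

theorem trans_lr (hMN : M ≅[LT] N) (hM : Good M) : LR (Hs N) := by
  intro p G α c hc hin
  obtain ⟨K, hK⟩ := hM.lr p G α c hc hin
  refine ⟨K, ?_⟩
  have hA : FO (p := p) (fun M _ x => Function.Injective x) := by
    apply FO.ofSD
    intro K _ v K' _ v' hs hQ i j hij
    exact hQ ((hs.eq i j).2 hij)
  have hB : FO (p := p) (fun M _ x => ∀ e : Finset (Fin p), e ∈ G ↔ e.image x ∈ Hs M) := by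
    apply FO.ofSD
    intro K _ v K' _ v' hs hQ e
    rw [hQ e]
    exact hs.ed e
  have hC : FO (p := p) (fun M _ x => ∀ z : Fin K → M,
      dl (Hs M) ((Finset.univ.image (Fin.castAdd K : Fin p → Fin (p + K))).image
        (Fin.append x z)) ≤ dl (Hs M) (Finset.univ.image (Fin.append x z))) := by
    apply FO.allFin (p := p) (q := K) (Q := fun M _ w =>
      dl (Hs M) ((Finset.univ.image (Fin.castAdd K : Fin p → Fin (p + K))).image w) ≤
        dl (Hs M) (Finset.univ.image w))
    apply FO.ofSD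
    intro K _ v K' _ v' hs hQ
    rw [hs.dl_eq, hs.dl_eq]
    exact hQ
  have hD : FO (p := p) (fun M _ x => ∃ f : Fin α.n → M,
      Cop (Hs M) α (Fin.append x f ∘ (fun j => Fin.castAdd α.n (c j)))
        (Fin.append x f ∘ (fun k => Fin.natAdd p k)) ∧
      ∀ k i, Fin.append x f (Fin.natAdd p k) ≠ Fin.append x f (Fin.castAdd α.n i)) := by
    apply FO.exFin (p := p) (q := α.n) (Q := fun M _ w =>
      Cop (Hs M) α (w ∘ (fun j => Fin.castAdd α.n (c j))) (w ∘ (fun k => Fin.natAdd p k)) ∧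
      ∀ (k : Fin α.n) (i : Fin p), w (Fin.natAdd p k) ≠ w (Fin.castAdd α.n i))
    apply FO.ofSD
    intro K _ v K' _ v' hs hQ
    exact ⟨hs.cop hQ.1, fun k i hki => hQ.2 k i ((hs.eq _ _).2 hki)⟩
  have e1 : ∀ (K' : Type) (x : Fin p → K') (z : Fin K → K'),
      ((Finset.univ.image (Fin.castAdd K : Fin p → Fin (p + K))).image (Fin.append x z)) =
        ran x := by
    intro K' x z
    rw [Finset.image_image]
    unfold ran
    refine Finset.image_congr fun i _ => ?_
    exact Fin.append_left _ _ i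
  have e2 : ∀ (K' : Type) (x : Fin p → K') (z : Fin K → K'),
      Finset.univ.image (Fin.append x z) = ran x ∪ ran z := by
    intro K' x z
    ext y
    rw [Finset.mem_union, mem_ran, mem_ran, Finset.mem_image]
    constructor
    · rintro ⟨i, -, rfl⟩
      refine Fin.addCases (fun s => ?_) (fun s => ?_) i
      · left
        exact ⟨s, (Fin.append_left _ _ s).symm⟩
      · right
        exact ⟨s, (Fin.append_right _ _ s).symm⟩
    · rintro (⟨k, rfl⟩ | ⟨k, rfl⟩)
      · exact ⟨_, Finset.mem_univ _, Fin.append_left _ _ k⟩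
      · exact ⟨_, Finset.mem_univ _, Fin.append_right _ _ k⟩
  have e3 : ∀ (K' : Type) (x : Fin p → K') (f : Fin α.n → K'),
      (Fin.append x f ∘ (fun j => Fin.castAdd α.n (c j))) = x ∘ c := by
    intro K' x f
    funext j
    exact Fin.append_left _ _ _
  have e4 : ∀ (K' : Type) (x : Fin p → K') (f : Fin α.n → K'),
      (Fin.append x f ∘ (fun k => Fin.natAdd p k)) = f := by
    intro K' x f
    funext j
    exact Fin.append_right _ _ _
  have h1 := FO.transfer_all hMN (FO.imp hA (FO.imp hB (FO.imp hC hD))) (by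
    intro x hx1 hx2 hx3
    obtain ⟨f, hf1, hf2⟩ := hK x hx1 hx2 (by
      intro z
      have := hx3 z
      rw [e1, e2] at this
      exact this)
    refine ⟨f, ?_, ?_⟩
    · rw [e3, e4]
      exact hf1
    · intro k i
      rw [Fin.append_left, Fin.append_right]
      exact hf2 k i)
  intro x hx1 hx2 hx3
  obtain ⟨f, hf1, hf2⟩ := h1 x hx1 hx2 (by
    intro z
    rw [e1, e2]
    exact hx3 z)
  refine ⟨f, ?_, ?_⟩
  · rw [e3, e4] at hf1
    exact hf1
  · intro k i
    have := hf2 k i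
    rw [Fin.append_left, Fin.append_right] at this
    exact this

end Fields

theorem st_Trans : St_Trans := by
  intro M N _ _ hMN hne hM
  exact
    { ne := hne
      dist := trans_dist hMN hM
      sym := trans_sym hMN hM
      inC :=
        { k1 := fun e he _ => card_Hs he
          k4 := fun e he f hf _ hef => trans_k4 hMN hM e he f hf hef
          k5 := fun X _ => trans_k5 hMN hM X
          k6 := trans_k6 hMN hM }
      lr := trans_lr hMN hM
      mate := trans_mate hMN hM }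

end H912SM
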